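import Pool.Agent.Q45.TW.Crt
import Pool.Agent.Y228.SE.Pic

/-!
# The class of an ideal in the Picard group
-/

set_option autoImplicit false
set_option linter.all false

open Polynomial IsDedekindDomain CommRing

namespace Pool.Agent.Q45.TW

/-- The ideal `I` of `R` is an invertible module, and `P` is its class in the Picard group. -/
def IsIdealClass {R : Type} [CommRing R] (P : Additive (CommRing.Pic R)) (I : Ideal R) : Prop :=
  ∃ _ : Module.Invertible R I, P = Additive.ofMul (CommRing.Pic.mk R I)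

theorem ideal_class {R : Type} [CommRing R] [IsDedekindDomain R] {I : Ideal R} (hI : I ≠ ⊥) :
    IsIdealClass (Additive.ofMul (ClassGroup.equivPic R (ClassGroup.mk0
      ⟨I, mem_nonZeroDivisors_of_ne_zero hI⟩))) I := by
  haveI := Pool.Agent.Y228.SE.inv_ideal I (mem_nonZeroDivisors_of_ne_zero hI)
  exact ⟨this, by rw [Pool.Agent.Y228.SE.equivPic_mk0 I (mem_nonZeroDivisors_of_ne_zero hI)]⟩

theorem cl_class {K Ω : Type} [Field K] {ℓ : ℕ} {f : K[X]} [Field Ω] [Algebra K Ω]
    {I : Ideal (Pool.Agent.Y160.SQ.CR ℓ (f.map (algebraMap K Ω)))}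
    {x : Pool.Agent.Y160.SQ.Jac ℓ f Ω} (h : Pool.Agent.Y160.SQ.IsCl Ω I x) :
    IsIdealClass (R := Pool.Agent.Y160.SQ.CR ℓ (f.map (algebraMap K Ω))) x I := by
  obtain ⟨h1, hI, rfl⟩ := h
  exact ideal_class hI

end Pool.Agent.Q45.TW
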