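import Pool.Agent.Q45.TW.Chn
import Pool.Agent.Q45.GS.CritT

/-!
# The base curve
-/

set_option autoImplicit false
set_option linter.all false

open Polynomial IsDedekindDomain WithZero
open scoped Classical

namespace Pool.Agent.Q45.TW

open Pool.Agent.Y160.SE (IsPw)
open Pool.Agent.Q45.GP (Regular TateOver)
open Pool.Agent.Y160.SQ

/-- The field `K` is generated over `k(t)` by square roots `y c` of the elements `t + c`. -/
structure IsBase (k : Type) [Field k] (cs : List k) (K : Type) [Field K] [Algebra k[X] K]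
    (y : k → K) : Prop where
  inj : Function.Injective (algebraMap k[X] K)
  sq : ∀ c ∈ cs, y c ^ 2 = algebraMap k[X] K (X + C c)
  gen : Subfield.closure (Set.range (algebraMap k[X] K) ∪ y '' {c | c ∈ cs}) = ⊤

section base

variable {k : Type} [Field k] {cs : List k} {K : Type} [Field K] [Algebra k[X] K] {y : k → K}

theorem inj_of_integral {S R B : Type} [CommRing S] [IsDomain S] [CommRing R] [IsDomain R]
    [Algebra S R] [Algebra.IsIntegral S R] [Field B] (φ : R →+* B)
    (h : Function.Injective (φ.comp (algebraMap S R))) : Function.Injective φ := by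
  rw [RingHom.injective_iff_ker_eq_bot]
  refine Ideal.eq_bot_of_comap_eq_bot (R := S) ?_
  rw [eq_bot_iff]
  intro s hs
  have h1 : φ.comp (algebraMap S R) s = 0 := hs
  exact Ideal.mem_bot.2 (h (by rw [h1, map_zero]))

/-- The tower maps to the field. -/
theorem IsBase.frac {A₀ : Type} [CommRing A₀] [IsDedekindDomain A₀] [Algebra k[X] A₀] {y₀ : k → A₀}
    (H : IsTw (fun c => X + C c) cs A₀ y₀) (hB : IsBase k cs K y) :
    ∃ (_ : Algebra A₀ K), IsFractionRing A₀ K ∧ IsScalarTower k[X] A₀ K ∧
      ∀ c ∈ cs, algebraMap A₀ K (y₀ c) = y c := by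
  obtain ⟨φ, h1, h3⟩ := H.lift K (algebraMap k[X] K) y hB.sq
  haveI := H.integral
  have hcomp : φ.comp (algebraMap k[X] A₀) = algebraMap k[X] K := RingHom.ext h1
  have hinj : Function.Injective φ := inj_of_integral φ (by rw [hcomp]; exact hB.inj)
  letI : Algebra A₀ K := φ.toAlgebra
  have hinj' : Function.Injective (algebraMap A₀ K) := hinj
  let ψ : FractionRing A₀ →+* K := IsFractionRing.lift hinj'
  have hψ : ∀ a, ψ (algebraMap A₀ (FractionRing A₀) a) = φ a := fun a =>
    IsFractionRing.lift_algebraMap hinj' a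
  have hsurj : Function.Surjective ψ := by
    have h5 : (⊤ : Subfield K) ≤ ψ.fieldRange := by
      rw [← hB.gen, Subfield.closure_le]
      rintro x (⟨p, rfl⟩ | ⟨c, hc, rfl⟩)
      · exact ⟨algebraMap A₀ _ (algebraMap k[X] A₀ p), by rw [hψ, h1]⟩
      · exact ⟨algebraMap A₀ _ (y₀ c), by rw [hψ, h3 c hc]⟩
    intro x
    exact h5 (Subfield.mem_top x)
  let e : FractionRing A₀ ≃ₐ[A₀] K :=
    AlgEquiv.ofBijective ({ ψ with commutes' := fun a => hψ a } : FractionRing A₀ →ₐ[A₀] K)
      ⟨ψ.injective, hsurj⟩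
  refine ⟨inferInstance, IsLocalization.isLocalization_of_algEquiv (nonZeroDivisors A₀) e,
    IsScalarTower.of_algebraMap_eq fun p => (h1 p).symm, h3⟩

/-- The tower is the integral closure. -/
theorem IsBase.equiv {A₀ : Type} [CommRing A₀] [IsDedekindDomain A₀] [Algebra k[X] A₀] {y₀ : k → A₀}
    (H : IsTw (fun c => X + C c) cs A₀ y₀) [Algebra A₀ K] [IsFractionRing A₀ K]
    [IsScalarTower k[X] A₀ K] {A : Type} [CommRing A] [Algebra A K] [Algebra k[X] A]
    [IsScalarTower k[X] A K] [IsIntegralClosure A k[X] K] :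
    ∃ e : A₀ ≃+* A, (∀ p, e (algebraMap k[X] A₀ p) = algebraMap k[X] A p) ∧
      ∀ a, algebraMap A K (e a) = algebraMap A₀ K a := by
  haveI := H.integral
  haveI : IsIntegralClosure A₀ k[X] K := IsIntegralClosure.of_isIntegrallyClosed A₀ k[X] K
  refine ⟨(IsIntegralClosure.equiv k[X] A₀ K A).toRingEquiv, fun p => ?_, fun a => ?_⟩
  · exact (IsIntegralClosure.equiv k[X] A₀ K A).commutes p
  · exact IsIntegralClosure.algebraMap_equiv k[X] A₀ K A a

end base

end Pool.Agent.Q45.TW
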