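import Pool.Agent.Y474.SH.N

/-!
# Norms of simple extensions
-/

set_option autoImplicit false
set_option linter.all false

open Polynomial
open scoped Classical

namespace Pool.Agent.Q45.TW

section norm

variable {K L : Type} [Field K] [Field L] [Algebra K L] {f : K[X]} {θ : L}

theorem fin_of (hm : f.Monic) (hθ : aeval θ f = 0)
    (htop : IntermediateField.adjoin K {θ} = ⊤) : FiniteDimensional K L := by
  have hθint : IsIntegral K θ := ⟨f, hm, hθ⟩
  have h1 : FiniteDimensional K (IntermediateField.adjoin K {θ}) :=
    IntermediateField.adjoin.finiteDimensional hθint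
  rw [htop] at h1
  exact LinearEquiv.finiteDimensional (IntermediateField.topEquiv (F := K) (E := L)).toLinearEquiv

theorem sep_of (hsep : f.Separable) (hθ : aeval θ f = 0)
    (htop : IntermediateField.adjoin K {θ} = ⊤) : Algebra.IsSeparable K L := by
  have hs : IsSeparable K θ := hsep.of_dvd (minpoly.dvd K θ hθ)
  have f3 : Algebra.IsSeparable K (IntermediateField.adjoin K {θ}) :=
    (IntermediateField.isSeparable_adjoin_simple_iff_isSeparable K L).2 hs
  rw [htop] at f3
  exact Algebra.IsSeparable.of_algHom K (⊤ : IntermediateField K L)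
      (IntermediateField.topEquiv (F := K) (E := L)).symm.toAlgHom

theorem finrank_of (hirr : Irreducible f) (hm : f.Monic) (hθ : aeval θ f = 0)
    (htop : IntermediateField.adjoin K {θ} = ⊤) : Module.finrank K L = f.natDegree := by
  have hθint : IsIntegral K θ := ⟨f, hm, hθ⟩
  have h1 := IntermediateField.adjoin.finrank hθint
  rw [htop, IntermediateField.finrank_top', ← minpoly.eq_of_irreducible_of_monic hirr hθ hm] at h1
  exact h1

/-- Every element is a polynomial in the generator. -/
theorem exists_aeval (hm : f.Monic) (hθ : aeval θ f = 0)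
    (htop : IntermediateField.adjoin K {θ} = ⊤) (z : L) : ∃ P : K[X], z = aeval θ P := by
  have hθint : IsIntegral K θ := ⟨f, hm, hθ⟩
  have hz : z ∈ (⊤ : IntermediateField K L) := trivial
  rw [← htop, IntermediateField.mem_adjoin_simple_iff] at hz
  have h1 : (Algebra.adjoin K {θ}) = ⊤ := by
    have h3 := IntermediateField.adjoin_simple_toSubalgebra_of_isAlgebraic hθint.isAlgebraic
    rw [htop] at h3
    exact h3.symm
  have h4 : z ∈ (⊤ : Subalgebra K L) := trivial
  rw [← h1, Algebra.adjoin_singleton_eq_range_aeval] at h4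
  obtain ⟨P, hP⟩ := h4
  exact ⟨P, hP.symm⟩

/-- The norm as a product over the roots. -/
theorem norm_roots (hirr : Irreducible f) (hm : f.Monic) (hsep : f.Separable) (hθ : aeval θ f = 0)
    (htop : IntermediateField.adjoin K {θ} = ⊤) (E : Type) [Field E] [Algebra K E] [IsAlgClosed E]
    (P : K[X]) : algebraMap K E (Algebra.norm K (aeval θ P)) =
      ((f.map (algebraMap K E)).roots.map fun β => aeval β P).prod := by
  haveI := fin_of hm hθ htop
  haveI := sep_of hsep hθ htop
  have hθint : IsIntegral K θ := ⟨f, hm, hθ⟩
  have hmin : minpoly K θ = f := (minpoly.eq_of_irreducible_of_monic hirr hθ hm).symm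
  have hnd : (f.map (algebraMap K E)).roots.Nodup := nodup_roots hsep.map
  rw [Algebra.norm_eq_prod_embeddings K E]
  have h1 : ((f.map (algebraMap K E)).roots.map fun β => aeval β P).prod =
      ∏ β ∈ (f.map (algebraMap K E)).roots.toFinset, aeval β P := by
    show _ = ((f.map (algebraMap K E)).roots.toFinset.val.map fun β => aeval β P).prod
    rw [Multiset.toFinset_val, Multiset.dedup_eq_self.2 hnd]
  rw [h1]
  have hf0' : f.map (algebraMap K E) ≠ 0 := (hm.map _).ne_zero
  refine Finset.prod_bij (fun σ _ => σ θ) ?_ ?_ ?_ ?_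
  · intro σ _
    rw [Multiset.mem_toFinset, mem_roots hf0', IsRoot, eval_map_algebraMap, aeval_algHom_apply, hθ,
      map_zero]
  · intro σ _ σ' _ h
    exact Pool.Agent.Y474.SH.hom_ext htop h
  · intro β hβ
    rw [Multiset.mem_toFinset] at hβ
    have hβ' : β ∈ (minpoly K θ).aroots E := by rw [hmin]; exact hβ
    let τ := (IntermediateField.algHomAdjoinIntegralEquiv K (K := E) hθint).symm ⟨β, hβ'⟩
    have hτ : τ (IntermediateField.AdjoinSimple.gen K θ) = β :=
      IntermediateField.algHomAdjoinIntegralEquiv_symm_apply_gen K hθint ⟨β, hβ'⟩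
    let e : L →ₐ[K] IntermediateField.adjoin K {θ} :=
      ((IntermediateField.equivOfEq htop.symm).toAlgHom).comp
        (IntermediateField.topEquiv (F := K) (E := L)).symm.toAlgHom
    refine ⟨τ.comp e, Finset.mem_univ _, ?_⟩
    rw [← hτ]
    rfl
  · intro σ _
    rw [aeval_algHom_apply]

end norm

section base

variable {K K' L L' : Type} [Field K] [Field K'] [Field L] [Field L'] [Algebra K L] [Algebra K' L']
  [Algebra K' K] [Algebra L' L] [Algebra K' L] [IsScalarTower K' K L] [IsScalarTower K' L' L]

/-- The norm does not change under the extension of the base field. -/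
theorem norm_base {f : K'[X]} (hm : f.Monic) (hsep : f.Separable) (hirr' : Irreducible f)
    (hirr : Irreducible (f.map (algebraMap K' K))) {θ' : L'} (hθ' : aeval θ' f = 0)
    (htop' : IntermediateField.adjoin K' {θ'} = ⊤)
    (htop : IntermediateField.adjoin K {algebraMap L' L θ'} = ⊤) (w : L') :
    Algebra.norm K (algebraMap L' L w) = algebraMap K' K (Algebra.norm K' w) := by
  obtain ⟨P, rfl⟩ := exists_aeval hm hθ' htop' w
  let E := AlgebraicClosure K
  have hθ : aeval (algebraMap L' L θ') (f.map (algebraMap K' K)) = 0 := by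
    rw [aeval_map_algebraMap, aeval_algebraMap_apply, hθ', map_zero]
  have e1 : algebraMap L' L (aeval θ' P) = aeval (algebraMap L' L θ') (P.map (algebraMap K' K)) := by
    rw [aeval_map_algebraMap, aeval_algebraMap_apply]
  apply (algebraMap K E).injective
  rw [e1, norm_roots hirr (hm.map _) hsep.map hθ htop E, ← IsScalarTower.algebraMap_apply K' K E,
    norm_roots hirr' hm hsep hθ' htop' E, Polynomial.map_map, ← IsScalarTower.algebraMap_eq]
  congr 1
  refine Multiset.map_congr rfl fun β _ => ?_
  rw [aeval_map_algebraMap]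

end base

section nc

variable {k K L : Type} [Field k] [Field K] [Field L] [Algebra K L] {θ : L}

/-- The norm of a divisor of `g(θ) - c`, for `g(θ) + t = 0`. -/
theorem norm_dvd (κ : k →+* K) (t : K) {g : k[X]} (hg : g.Monic) (hg0 : 0 < g.natDegree)
    (hirr : Irreducible (g.map κ + C t)) (hsep : (g.map κ + C t).Separable)
    (hθ : aeval θ (g.map κ + C t) = 0) (htop : IntermediateField.adjoin K {θ} = ⊤) {b : k[X]}
    (hb : b.Monic) {c : k} (hbg : b ∣ g - C c) :
    Algebra.norm K ((-1) ^ b.natDegree * aeval θ (b.map κ)) = (t + κ c) ^ b.natDegree := by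
  let E := AlgebraicClosure K
  have hm : (g.map κ + C t).Monic := by
    refine (hg.map κ).add_of_left ?_
    refine lt_of_le_of_lt degree_C_le ?_
    rw [degree_map]
    exact natDegree_pos_iff_degree_pos.1 hg0
  have e1 : (-1) ^ b.natDegree * aeval θ (b.map κ) =
      aeval θ ((-1) ^ b.natDegree * b.map κ : K[X]) := by
    rw [map_mul, map_pow, map_neg, map_one]
  apply (algebraMap K E).injective
  rw [e1, norm_roots hirr hm hsep hθ htop E]
  set B := ((g.map κ + C t).map (algebraMap K E)).roots with hB
  set bE := b.map ((algebraMap K E).comp κ) with hbE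
  have hbm : bE.Monic := hb.map _
  have hbs : bE.Splits := IsAlgClosed.splits bE
  have hfs : ((g.map κ + C t).map (algebraMap K E)).Splits := IsAlgClosed.splits _
  have hcard : Multiset.card bE.roots = b.natDegree := by
    rw [← hbs.natDegree_eq_card_roots, hbE, hb.natDegree_map]
  have h1 : ∀ β : E, aeval β ((-1) ^ b.natDegree * b.map κ : K[X]) =
      (bE.roots.map fun η => η - β).prod := by
    intro β
    have h3 : aeval β (b.map κ) = bE.eval β := by
      rw [hbE, ← Polynomial.map_map, eval_map_algebraMap]
    have h4 : (bE.roots.map fun η => η - β) = (bE.roots.map fun η => β - η).map Neg.neg := by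
      rw [Multiset.map_map]
      refine Multiset.map_congr rfl fun η _ => ?_
      show η - β = -(β - η)
      ring
    rw [map_mul, map_pow, map_neg, map_one, h3, hbs.eval_eq_prod_roots_of_monic hbm, h4,
      Multiset.prod_map_neg, Multiset.card_map, hcard]
  simp only [h1]
  rw [Multiset.prod_map_prod_map]
  have h3 : ∀ η ∈ bE.roots, (B.map fun β => η - β).prod = algebraMap K E (t + κ c) := by
    intro η hη
    rw [← hfs.eval_eq_prod_roots_of_monic (hm.map _), Polynomial.map_add, Polynomial.map_map,
      map_C, eval_add, eval_C]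
    have h5 : (g.map ((algebraMap K E).comp κ)).eval η = algebraMap K E (κ c) := by
      obtain ⟨q, hq⟩ := hbg
      have h6 : (g - C c).map ((algebraMap K E).comp κ) = bE * q.map ((algebraMap K E).comp κ) := by
        rw [hq, Polynomial.map_mul]
      have h7 := congrArg (eval η) h6
      rw [eval_mul, (mem_roots hbm.ne_zero).1 hη, zero_mul, Polynomial.map_sub, map_C, eval_sub,
        eval_C, sub_eq_zero] at h7
      exact h7
    rw [h5, map_add, add_comm]
  rw [Multiset.map_congr rfl h3, Multiset.map_const', Multiset.prod_replicate, hcard, map_pow]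

end nc

end Pool.Agent.Q45.TW
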