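import Pool.Agent.Q45.TW.Ind
import Pool.Agent.Y160.SL.Fam

/-!
# The basis of the Mordell-Weil group at `2`
-/

set_option autoImplicit false
set_option linter.all false

open Polynomial IsDedekindDomain WithZero UniqueFactorizationMonoid
open scoped Classical

namespace Pool.Agent.Q45.TW

open Pool.Agent.Y160.SE (IsPw)
open Pool.Agent.Q45.GP (Regular TateOver)
open Pool.Agent.Y160.SQ
open Pool.Agent.TH115.GD (Sep)
open Pool.Agent.Y160.RK (ptCl spanD mem_spanD gen_iter rank_lin sum_pts)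

/-- `Q` lists the pairs `(c, G)`, `c` in the list `cs` and `G` a monic irreducible factor of `g - c`,
without the pairs `(c, G0 c)`. -/
structure IsList {k : Type} [Field k] (g : k[X]) (cs : List k) {n : ℕ} (Q : Fin n → k × k[X])
    (G0 : k → k[X]) : Prop where
  mem : ∀ i, (Q i).1 ∈ cs ∧ (Q i).2.Monic ∧ Irreducible (Q i).2 ∧ (Q i).2 ∣ g - C (Q i).1 ∧
    (Q i).2 ≠ G0 (Q i).1
  inj : Function.Injective Q
  base : ∀ c ∈ cs, (G0 c).Monic ∧ Irreducible (G0 c) ∧ G0 c ∣ g - C c
  all : ∀ c ∈ cs, ∀ G : k[X], G.Monic → Irreducible G → G ∣ g - C c → G ≠ G0 c → ∃ i, Q i = (c, G)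

section bss

variable {k : Type} [Field k] {g : k[X]} {cs : List k} {K : Type} [Field K] [Algebra k[X] K]
  {y : k → K}

/-- The divisor of a pair. -/
noncomputable def dv (y : k → K) (P : k × k[X]) : K[X] × K[X] := (P.2.map (cst k K), C (y P.1))

/-- The sum of the classes over the factors of `g - c`. -/
theorem sum_fac (hB : IsBase k cs K y) (hg : g.Monic) (hg0 : 0 < g.natDegree)
    (hirr : ∀ G : k[X], G.Monic → Irreducible G → Irreducible (G.map (cst k K)))
    (hgd : Good 2 (-1) (ff g K)) {c : k} (hc : c ∈ cs) (hs : (g - C c).Separable) :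
    ∑ G ∈ (normalizedFactors (g - C c)).toFinset, ptCl 2 (ff g K) (dv y (c, G)) = 0 := by
  set S := (normalizedFactors (g - C c)).toFinset with hS
  have hS1 : ∀ G ∈ S, G.Monic ∧ Irreducible G := fun G hG => by
    rw [hS, Multiset.mem_toFinset] at hG
    exact ⟨monic_nf hG, irreducible_of_normalized_factor G hG⟩
  have hm : (g - C c).Monic := by
    refine hg.sub_of_left (lt_of_le_of_lt degree_C_le ?_)
    rw [degree_eq_natDegree hg.ne_zero]
    exact_mod_cast hg0
  have hprod : ∏ G ∈ S, G = g - C c := by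
    have h1 : (normalizedFactors (g - C c)).Nodup :=
      (squarefree_iff_nodup_normalizedFactors hs.ne_zero).1 hs.squarefree
    have h3 : ∏ G ∈ S, G = (normalizedFactors (g - C c)).prod := by
      rw [hS, Finset.prod_multiset_count, ]
      refine Finset.prod_congr rfl fun G hG => ?_
      rw [Multiset.mem_toFinset] at hG
      rw [Multiset.count_eq_one_of_mem h1 hG, pow_one]
    rw [h3, prod_normalizedFactors_eq hs.ne_zero, hm.normalize_eq_self]
  let e : Fin S.card ≃ S := (S.equivFin).symm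
  have h := sum_pts hyps hgd (fun j : Fin S.card => ((e j : k[X])).map (cst k K)) (C (y c))
    (fun j => ⟨hirr _ (hS1 _ (e j).2).1 (hS1 _ (e j).2).2, (hS1 _ (e j).2).1.map _⟩)
    (fun i j hij => by
      have h1 := Polynomial.map_injective _ (cst k K).injective hij
      exact e.injective (Subtype.ext h1))
    (by
      rw [ff_sub (hB.sq c hc), ← hprod, Polynomial.map_prod]
      rw [← Finset.prod_coe_sort S]
      exact Equiv.prod_comp e (fun G : S => (G : k[X]).map (cst k K)))
    (by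
      rw [ff_sub (hB.sq c hc)]
      exact (Polynomial.map_ne_zero_iff (cst k K).injective).2 hs.ne_zero)
  rw [← Finset.sum_coe_sort S]
  rw [← h]
  exact (Equiv.sum_comp e (fun G : S => ptCl 2 (ff g K) ((G : k[X]).map (cst k K), C (y c)))).symm

/-- The ring of integers. -/
theorem exists_A (h2 : (2 : k) ≠ 0) (hnd : cs.Nodup) (hB : IsBase k cs K y) :
    ∃ (A : Type) (_ : CommRing A) (_ : IsDedekindDomain A) (_ : Algebra A K)
      (_ : IsFractionRing A K) (_ : Algebra k[X] A) (_ : IsScalarTower k[X] A K),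
      IsIntegralClosure A k[X] K := by
  obtain ⟨A, a1, a2, a3, y₀, H⟩ := exists_ded h2 X (fun c => not_isUnit_X_add_C c) cs
    hnd (fun c _ => separable_X_add_C c)
  obtain ⟨l1, l2, l3, hy₀⟩ := IsBase.frac H hB
  haveI := H.integral
  exact ⟨A, a1, a2, l1, l2, a3, l3, IsIntegralClosure.of_isIntegrallyClosed A k[X] K⟩

/-- The factors of different `g - c` are different. -/
theorem IsList.snd {n : ℕ} {Q : Fin n → k × k[X]} {G0 : k → k[X]} (hQ : IsList g cs Q G0)
    {i j : Fin n} (h : (Q i).2 = (Q j).2) : i = j := by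
  apply hQ.inj
  obtain ⟨-, -, h3, h4, -⟩ := hQ.mem i
  obtain ⟨-, -, -, h5, -⟩ := hQ.mem j
  rw [← h] at h5
  exact Prod.ext (not_both h3 h4 h5) h

/-- The multiplicities of a product. -/
theorem IsList.mult {n : ℕ} {Q : Fin n → k × k[X]} {G0 : k → k[X]} (hQ : IsList g cs Q G0)
    (e : Fin n → ℕ) (i : Fin n) (S : Finset (Fin n)) : ∏ j ∈ S, (Q j).2 ^ e j ≠ 0 ∧
      vG (Q i).2 (∏ j ∈ S, (Q j).2 ^ e j) = if i ∈ S then e i else 0 := by
  induction S using Finset.induction_on with
  | empty =>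
    rw [Finset.prod_empty, if_neg (Finset.notMem_empty i)]
    exact ⟨one_ne_zero, vG_one⟩
  | insert j S hj ih =>
    obtain ⟨-, hm, hi, -, -⟩ := hQ.mem j
    obtain ⟨-, hm', hi', -, -⟩ := hQ.mem i
    rw [Finset.prod_insert hj]
    have hne : (Q j).2 ^ e j ≠ 0 := pow_ne_zero _ hi.ne_zero
    refine ⟨mul_ne_zero hne ih.1, ?_⟩
    rw [vG_mul hne ih.1, ih.2, vG_pow]
    by_cases h : i = j
    · subst h
      rw [vG_self hm hi, if_neg hj, if_pos (Finset.mem_insert_self i S), mul_one, add_zero]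
    · have h1 : ¬ (Q i).2 ∣ (Q j).2 := fun h1 => h (hQ.snd (eq_of_monic_of_associated hm' hm
        (hi'.associated_of_dvd hi h1)))
      rw [vG_zero h1, mul_zero, zero_add]
      by_cases h3 : i ∈ S
      · rw [if_pos h3, if_pos (Finset.mem_insert_of_mem h3)]
      · rw [if_neg h3, if_neg]
        exact fun h4 => (Finset.mem_insert.1 h4).elim h h3

theorem gen_list (hB : IsBase k cs K y) (hg : g.Monic) (hg0 : 0 < g.natDegree)
    (hirr : ∀ G : k[X], G.Monic → Irreducible G → Irreducible (G.map (cst k K)))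
    (hgd : Good 2 (-1) (ff g K)) (hsep : ∀ c ∈ cs, (g - C c).Separable) {n : ℕ}
    {Q : Fin n → k × k[X]} {G0 : k → k[X]} (hQ : IsList g cs Q G0) :
    ∀ P ∈ Pts g cs y, ptCl 2 (ff g K) P ∈ AddSubgroup.closure
      (Set.range fun i => ptCl 2 (ff g K) (dv y (Q i))) := by
  have key : ∀ c ∈ cs, ∀ G : k[X], G.Monic → Irreducible G → G ∣ g - C c → G ≠ G0 c →
      ptCl 2 (ff g K) (dv y (c, G)) ∈ AddSubgroup.closure
      (Set.range fun i => ptCl 2 (ff g K) (dv y (Q i))) := by
    intro c hc G hm hi hd hne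
    obtain ⟨i, hi'⟩ := hQ.all c hc G hm hi hd hne
    rw [← hi']
    exact AddSubgroup.subset_closure ⟨i, rfl⟩
  rintro _ ⟨c, hc, G, hm, hi, hd, rfl⟩
  by_cases h : G = G0 c
  · subst h
    have h1 := sum_fac hB hg hg0 hirr hgd hc (hsep c hc)
    have h3 : G0 c ∈ (normalizedFactors (g - C c)).toFinset := by
      rw [Multiset.mem_toFinset]
      exact (Polynomial.mem_normalizedFactors_iff (hsep c hc).ne_zero).2 ⟨hi, hm, hd⟩
    rw [← Finset.add_sum_erase _ _ h3] at h1
    have h4 : ptCl 2 (ff g K) (dv y (c, G0 c)) = -∑ G ∈ (normalizedFactors (g - C c)).toFinset.erase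
        (G0 c), ptCl 2 (ff g K) (dv y (c, G)) := eq_neg_of_add_eq_zero_left h1
    show ptCl 2 (ff g K) (dv y (c, G0 c)) ∈ _
    rw [h4]
    refine AddSubgroup.neg_mem _ (AddSubgroup.sum_mem _ fun G hG => ?_)
    obtain ⟨h5, h6⟩ := Finset.mem_erase.1 hG
    rw [Multiset.mem_toFinset, Polynomial.mem_normalizedFactors_iff (hsep c hc).ne_zero] at h6
    exact key c hc G h6.2.1 h6.1 h6.2.2 h5
  · exact key c hc G hm hi hd h

/-- **The basis at `2`.** -/
theorem basis (h2 : (2 : k) ≠ 0) (hg : g.Monic) (hodd : Odd g.natDegree)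
    (hd : derivative g ≠ 0) (hG : GoodL g cs) (hB : IsBase k cs K y) {n : ℕ}
    {Q : Fin n → k × k[X]} {G0 : k → k[X]} (hQ : IsList g cs Q G0) :
    Pool.Agent.Y160.SL.IsBasisAt (M := Jac 2 (ff g K) K) 2
      (fun i => ptCl 2 (ff g K) (dv y (Q i))) := by
  obtain ⟨A, a1, a2, a3, a4, a5, a6, a7⟩ := exists_A h2 hG.nodup hB
  obtain ⟨hgd, -, hgen⟩ := sha_gen (A := A) h2 hg hodd hd hG hB
  obtain ⟨R, L, i1, i2, i4, i5, i6, i7, i8, θ, yA, hint, HA, hyA, hcomp, hff, hirr, hsep, hθ, htop,
    hP, hpts, i9, yR, HR, hev⟩ := allData (A := A) h2 hg hodd hd hG hB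
  have hirrG : ∀ G : k[X], G.Monic → Irreducible G → Irreducible (G.map (cst k K)) := by
    intro G hGm hGi
    have hcst : (algebraMap A K).comp (cst k A) = cst k K := RingHom.ext fun x =>
      (IsScalarTower.algebraMap_apply k[X] A K (C x)).symm
    rw [← hcst]
    exact irrG h2 hG.nodup HA hGm hGi
  have hu : ∀ c ∈ cs, ¬ IsUnit (g - C c) := fun c _ => not_unit hg hodd.pos c
  set D : Fin n → Jac 2 (ff g K) K := fun i => ptCl 2 (ff g K) (dv y (Q i)) with hD
  have hspan : spanD hgd D ≤ AddSubgroup.closure (Set.range D) := by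
    unfold spanD
    rw [AddSubgroup.closure_le]
    rintro _ ⟨⟨i, j⟩, rfl⟩
    have hj : (j : ℕ) = 0 := by
      have := j.2
      omega
    show ((sg hgd K) ^ (j : ℕ)) (D i) ∈ _
    rw [hj, pow_zero]
    exact AddSubgroup.subset_closure ⟨i, rfl⟩
  have hspan' : AddSubgroup.closure (Set.range D) ≤ spanD hgd D := by
    rw [AddSubgroup.closure_le]
    rintro _ ⟨i, rfl⟩
    exact mem_spanD hgd D i
  refine ⟨?_, fun N x => ?_⟩
  · -- independence
    obtain ⟨i⟩ := Pool.Agent.Q45.GP.exists_emb hgd hθ htop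
    letI : Algebra L (Sep K) := i.toRingHom.toAlgebra
    haveI : IsScalarTower K L (Sep K) := IsScalarTower.of_algebraMap_eq fun x => (i.commutes x).symm
    haveI : Algebra.IsSeparable K (Sep K) := IsSepClosure.separable
    haveI : IsSepClosed (Sep K) := IsSepClosure.sep_closed K
    haveI : IsGalois K (Sep K) := inferInstance
    have haR : Rt (ff g K) (algebraMap L (Sep K) θ) := by
      have h1 : aeval (algebraMap L (Sep K) θ) (ff g K) = 0 := by
        rw [aeval_algebraMap_apply, hθ, map_zero]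
      exact h1
    have h := rank_lin (p := 2) (s := 0) (N := L) (Ω := Sep K) hyps hgd Pool.Agent.Y160.FT.inj_all
      Pool.Agent.Y627.FT.stLin Nat.prime_two (by norm_num) hirr haR rfl (fun j => dv y (Q j))
      (fun j => hP _ ⟨(Q j).1, (hQ.mem j).1, (Q j).2, (hQ.mem j).2.1, (hQ.mem j).2.2.1,
        (hQ.mem j).2.2.2.1, rfl⟩) (by
        intro e w hw0 hw j
        set N := (ff g K).natDegree with hN
        have hNodd : Odd N := by rw [hN, ff_natDegree hg hodd.pos]; exact hodd
        set a₀ : k[X] := ∏ j, (Q j).2 ^ e j with ha₀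
        have ha₀0 : a₀ ≠ 0 := (hQ.mult e j Finset.univ).1
        have hv : vG (Q j).2 a₀ = e j := by
          have h1 := (hQ.mult e j Finset.univ).2
          rwa [if_pos (Finset.mem_univ j)] at h1
        have hev0 : (∏ j, aeval θ (dv y (Q j)).1 ^ e j) ^ N =
            algebraMap R L (algebraMap k[X] R (a₀ ^ N)) := by
          rw [← hev, Polynomial.map_pow, map_pow, ha₀, Polynomial.map_prod, map_prod]
          congr 1
          refine Finset.prod_congr rfl fun j _ => ?_
          rw [Polynomial.map_pow, map_pow]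
          rfl
        have hnd : ∀ c ∈ cs, ¬ G0 c ∣ a₀ ^ N := by
          intro c hc hdv
          obtain ⟨hm, hi, hd0⟩ := hQ.base c hc
          have h1 := hi.prime.dvd_of_dvd_pow hdv
          rw [ha₀, hi.prime.dvd_finset_prod_iff] at h1
          obtain ⟨i, -, h3⟩ := h1
          have h4 := hi.prime.dvd_of_dvd_pow h3
          obtain ⟨h5, h6, h7, h8, h9⟩ := hQ.mem i
          have h10 : G0 c = (Q i).2 := eq_of_monic_of_associated hm h6 (hi.associated_of_dvd h7 h4)
          have h11 : c = (Q i).1 := not_both hi hd0 (h10 ▸ h8)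
          exact h9 (by rw [← h11, h10])
        rw [hev0] at hw
        obtain ⟨b, hb⟩ : ∃ b : k[X], a₀ ^ N = b ^ 2 ∨ -(a₀ ^ N) = b ^ 2 := by
          rcases hw with h | h
          · obtain ⟨b, hb⟩ := sq_ind h2 hG.nodup (fun c hc => hG.sep c hc) hu HR
              (pow_ne_zero N ha₀0) h (fun c hc => ⟨G0 c, (hQ.base c hc).1, (hQ.base c hc).2.1,
                (hQ.base c hc).2.2, hnd c hc⟩)
            exact ⟨b, Or.inl hb⟩
          · obtain ⟨b, hb⟩ := sq_ind (w := w) (L := L) h2 hG.nodup (fun c hc => hG.sep c hc) hu HR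
              (neg_ne_zero.2 (pow_ne_zero N ha₀0)) (by rw [map_neg, map_neg, h, neg_neg])
              (fun c hc => ⟨G0 c, (hQ.base c hc).1, (hQ.base c hc).2.1,
                (hQ.base c hc).2.2, fun h3 => hnd c hc ((dvd_neg).1 h3)⟩)
            exact ⟨b, Or.inr hb⟩
        have h3 : N * e j = 2 * vG (Q j).2 b := by
          rw [← hv, ← vG_pow, ← vG_pow]
          rcases hb with h | h
          · rw [h]
          · rw [← h, vG_neg (pow_ne_zero N ha₀0)]
        have h4 : 2 ∣ N * e j := ⟨_, h3⟩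
        exact (Nat.Coprime.dvd_of_dvd_mul_left ((Nat.coprime_two_left).2 hNodd) h4))
    have hc := h.comp (fun i : Fin n => ((i, ⟨0, by norm_num⟩) : Fin n × Fin (2 - 1)))
      (fun a b hab => (Prod.ext_iff.1 hab).1)
    have e1 : D = ((fun i : Fin n × Fin (2 - 1) => ((sg hgd K) ^ (i.2 : ℕ))
        (ptCl 2 (ff g K) (dv y (Q i.1)))) ∘
        (fun i : Fin n => ((i, ⟨0, by norm_num⟩) : Fin n × Fin (2 - 1)))) := by
      funext i
      show D i = ((sg hgd K) ^ 0) (D i)
      rw [pow_zero]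
      rfl
    rw [e1]
    exact hc
  · -- generation
    obtain ⟨v, hv⟩ := gen_iter (m := 1) hyps hgd Nat.prime_two (by norm_num) D (fun x => by
      obtain ⟨T, v, hT, hx⟩ := hgen x
      refine ⟨v, ?_⟩
      rw [hx, add_sub_cancel_right]
      refine AddSubgroup.multiset_sum_mem _ _ fun z hz => ?_
      obtain ⟨P, hPT, rfl⟩ := Multiset.mem_map.1 hz
      exact hspan' (gen_list hB hg hodd.pos hirrG hgd (fun c hc => hG.sep c hc) hQ P (hT P hPT)))
      N x
    exact ⟨v, hspan hv⟩

end bss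

end Pool.Agent.Q45.TW
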