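import Pool.Agent.Q45.TW.Core

/-!
# The universal pointed curve
-/

set_option autoImplicit false
set_option linter.all false

open Polynomial IsDedekindDomain
open scoped Classical

namespace Pool.Agent.Q45.TW

open Pool.Agent.Y160.SQ
open Pool.Agent.Q45.GP (TateOver)

section ufin

variable {k₀ k : Type} [Field k₀] {r : ℕ} [Field k] [Algebra (MvPolynomial (Option (Fin r)) k₀) k]
  [IsFractionRing (MvPolynomial (Option (Fin r)) k₀) k]

/-- The data for the universal pointed curve. -/
theorem univ_all (h2 : (2 : k₀) ≠ 0) {f₀ : k₀[X]} (hf : f₀.Monic) (hn : 1 < f₀.natDegree)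
    (hodd : Odd f₀.natDegree) {G : k[X]} (hG : G = f₀.map
      ((algebraMap (MvPolynomial (Option (Fin r)) k₀) k).comp MvPolynomial.C) +
      C (algebraMap (MvPolynomial (Option (Fin r)) k₀) k (MvPolynomial.X none)) * X)
    {x : Fin r → k}
    (hx : ∀ i, x i = algebraMap (MvPolynomial (Option (Fin r)) k₀) k (MvPolynomial.X (some i))) :
    ∃ q : Fin r → k[X], Data G (fun i => eval (x i) G) x (fun _ => True) q (List.finRange r)
      (id : Fin r → Fin r) := by
  obtain ⟨k₁, a1, a2, a3, a4, a5, h1, h3, h4⟩ := opt_ex k₀ k r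
  have hD := data_univ (k₁ := k₁) (k := k) (r := r) h2 hf hn hodd
  have e1 : gU k (f₀.map (j0 k₀ k₁ r)) = G := by
    unfold gU
    rw [hG, Polynomial.map_map, h4]
    congr 2
    exact RingHom.ext h1
  have e2 : (fun i => cst k₁ k (xi k₀ k₁ r i)) = x := funext fun i => by rw [h3, hx]
  have e3 : cU k (f₀.map (j0 k₀ k₁ r)) (xi k₀ k₁ r) = fun i => eval (x i) G := funext fun i => by
    have h5 := congrFun e2 i
    have h6 : cst k₁ k (xi k₀ k₁ r i) = x i := h5
    rw [← gU_eval, e1, h6]
  rw [e1, e2, e3] at hD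
  exact ⟨_, hD⟩

end ufin

section eval

variable {k : Type} [Field k] {K : Type} [Field K] [Algebra k[X] K] {g : k[X]} {ι : Type}
  {x : ι → k} {y : ι → K}

theorem ff_eval (a : k) : eval (cst k K a) (ff g K) = algebraMap k[X] K (X + C (eval a g)) := by
  unfold ff
  rw [eval_add, eval_C, eval_map, eval₂_at_apply, map_add, add_comm]
  rfl

/-- The equations of the points. -/
theorem cov_of (h1 : Function.Injective (algebraMap k[X] K))
    (h3 : ∀ i, y i ^ 2 = eval (cst k K (x i)) (ff g K))
    (h4 : Subfield.closure (Set.range (algebraMap k[X] K) ∪ Set.range y) = ⊤) :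
    IsCov k (fun i => eval (x i) g) K y :=
  ⟨h1, fun i => by rw [h3, ff_eval], h4⟩

end eval

end Pool.Agent.Q45.TW
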