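import Pool.Agent.Q45.TW.UFin

/-!
# The general criterion
-/

set_option autoImplicit false
set_option linter.all false

open Polynomial IsDedekindDomain WithZero UniqueFactorizationMonoid
open scoped Classical

namespace Pool.Agent.Q45.TW

open Pool.Agent.Y160.SQ
open Pool.Agent.Q45.GP (TateOver)

section conv

variable {ι : Type}

theorem fin_of_list {l l' : List ι} (hl : l.Nodup) (h : l'.Sublist l) :
    ∃ V : Finset ι, (∀ i ∈ V, i ∈ l) ∧ (V = ∅ → l' = []) ∧
      ∀ {M : Type} [CommMonoid M] (f : ι → M), (l'.map f).prod = ∏ i ∈ V, f i := by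
  obtain ⟨h1, h3⟩ := finset_of_list hl h
  refine ⟨l'.toFinset, fun i hi => List.mem_toFinset.1 (h1 hi), fun h4 => ?_, fun f => h3 f⟩
  rwa [List.toFinset_eq_empty_iff] at h4

theorem list_of_fin {l : List ι} (hl : l.Nodup) (V : Finset ι) (hV : ∀ i ∈ V, i ∈ l) :
    ∃ l' : List ι, l'.Sublist l ∧ ∀ {M : Type} [CommMonoid M] (f : ι → M),
      (l'.map f).prod = ∏ i ∈ V, f i :=
  list_of_finset hl V fun i hi => List.mem_toFinset.2 (hV i hi)

theorem prod_list_all {l : List ι} (hl : l.Nodup) {S : Finset ι} (hS : ∀ i, i ∈ S ↔ i ∈ l)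
    {M : Type} [CommMonoid M] (f : ι → M) : (l.map f).prod = ∏ i ∈ S, f i := by
  rw [← List.prod_toFinset f hl]
  congr 1
  ext i
  rw [List.mem_toFinset, hS]

end conv

section crt

variable {k : Type} [Field k] {m : ℕ}

/-- The conditions for `c s`. -/
structure StepF (g : k[X]) (c : Fin m → k) (s : Fin m) : Prop where
  sep : (g - C (c s)).Separable
  ind : ∀ G : k[X], G.Monic → Irreducible G → G ∣ g - C (c s) → ∀ I : Finset (Fin m), I ≠ ∅ →
    (∀ i ∈ I, i < s) → ∀ w : k[X], ¬ G ∣ C (∏ i ∈ I, (c i - c s)) - w ^ 2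
  redei : ∀ a : k[X], a.Monic → a ∣ ∏ i ∈ Finset.univ.filter (· < s), (g - C (c i)) →
    (∀ G : k[X], G.Monic → Irreducible G → G ∣ g - C (c s) → ∃ (I : Finset (Fin m)) (w : k[X]),
      (∀ i ∈ I, i < s) ∧ G ∣ (-1) ^ a.natDegree * a * C (∏ i ∈ I, (c i - c s)) - w ^ 2) →
    ∃ I : Finset (Fin m), (∀ i ∈ I, i < s) ∧ a = ∏ i ∈ I, (g - C (c i))

/-- The indices smaller than `n`. -/
def Lm (m : ℕ) : (n : ℕ) → n ≤ m → List (Fin m)
  | 0, _ => []
  | n + 1, h => ⟨n, h⟩ :: Lm m n (Nat.le_of_succ_le h)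

theorem mem_Lm (i : Fin m) : ∀ (n : ℕ) (h : n ≤ m), i ∈ Lm m n h ↔ (i : ℕ) < n
  | 0, _ => by
      unfold Lm
      simp
  | n + 1, h => by
      unfold Lm
      rw [List.mem_cons, mem_Lm i n]
      constructor
      · rintro (h1 | h1)
        · rw [h1]
          exact Nat.lt_succ_self n
        · omega
      · intro h1
        rcases Nat.lt_succ_iff_lt_or_eq.1 h1 with h3 | h3
        · exact Or.inr h3
        · exact Or.inl (Fin.ext h3)

theorem nodup_Lm : ∀ (n : ℕ) (h : n ≤ m), (Lm m n h).Nodup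
  | 0, _ => List.nodup_nil
  | n + 1, h => by
      unfold Lm
      refine List.nodup_cons.2 ⟨?_, nodup_Lm n _⟩
      rw [mem_Lm]
      exact lt_irrefl n

variable {g : k[X]} {c : Fin m → k}

theorem cong_G {ι : Type} {c : ι → k} {s : ι} {G : k[X]} (hG : G ∣ g - C (c s)) (I : Finset ι) :
    G ∣ C (∏ i ∈ I, (c i - c s)) - ∏ i ∈ I, (-g + C (c i)) := by
  rw [← AdjoinRoot.mk_eq_mk, map_prod, map_prod, map_prod]
  refine Finset.prod_congr rfl fun i _ => ?_
  rw [AdjoinRoot.mk_eq_mk]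
  have h5 : C (c i - c s) - (-g + C (c i)) = g - C (c s) := by
    rw [C_sub]
    ring
  rw [h5]
  exact hG

theorem stepF (hg : g.Monic) (hodd : Odd g.natDegree) {n : ℕ} (hn : n + 1 ≤ m)
    (h : StepF g c ⟨n, hn⟩) : StepC g ((Lm m n (Nat.le_of_succ_le hn)).map c) (c ⟨n, hn⟩) := by
  set s : Fin m := ⟨n, hn⟩ with hs
  set l := Lm m n (Nat.le_of_succ_le hn) with hl
  have hmem : ∀ i, i ∈ l ↔ i < s := fun i => mem_Lm i n _
  have hnd : l.Nodup := nodup_Lm n _
  have hlf : ∀ i, i ∈ Finset.univ.filter (· < s) ↔ i ∈ l := by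
    intro i
    rw [hmem, Finset.mem_filter]
    exact ⟨fun h => h.2, fun h => ⟨Finset.mem_univ i, h⟩⟩
  have hsub : ∀ I' : List k, I'.Sublist (l.map c) → ∃ I : Finset (Fin m), (∀ i ∈ I, i < s) ∧
      (I' ≠ [] → I ≠ ∅) ∧ ∀ f : k → k[X], (I'.map f).prod = ∏ i ∈ I, f (c i) := by
    intro I' hI'
    obtain ⟨l', hl', rfl⟩ := List.sublist_map_iff.1 hI'
    obtain ⟨V, h1, h3, h4⟩ := fin_of_list hnd hl'
    refine ⟨V, fun i hi => (hmem i).1 (h1 i hi), fun h5 h6 => h5 ?_, fun f => ?_⟩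
    · rw [h3 h6, List.map_nil]
    · rw [List.map_map]
      exact h4 _
  refine ⟨fun h0 => ?_, h.sep, fun G hGm hGi hGd => ?_, fun a ha had hcond => ?_⟩
  · obtain ⟨i, hi, h1⟩ := List.mem_map.1 h0
    obtain ⟨G, hG⟩ := WfDvdMonoid.exists_irreducible_factor (not_unit hg hodd.pos (c s))
      h.sep.ne_zero
    have hG' : normalize G ∣ g - C (c s) := (normalize_associated G).dvd.trans hG.2
    have hGi : Irreducible (normalize G) := (normalize_associated G).symm.irreducible hG.1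
    have hGm : (normalize G).Monic := Polynomial.monic_normalize hG.1.ne_zero
    refine h.ind _ hGm hGi hG' {i} (Finset.singleton_ne_empty i) (fun j hj => ?_) 0 ?_
    · rw [Finset.mem_singleton.1 hj]
      exact (hmem i).1 hi
    · rw [Finset.prod_singleton, h1, sub_self, C_0, zero_pow (by norm_num), sub_zero]
      exact dvd_zero _
  · intro I' hI' hne w hw
    obtain ⟨I, hI, hIne, hIp⟩ := hsub I' hI'
    rw [hIp] at hw
    refine h.ind G hGm hGi hGd I (hIne hne) hI w ?_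
    have h4 := dvd_add (cong_G hGd I) hw
    have h5 : C (∏ i ∈ I, (c i - c s)) - ∏ i ∈ I, (-g + C (c i)) +
        (∏ i ∈ I, (-g + C (c i)) - w ^ 2) = C (∏ i ∈ I, (c i - c s)) - w ^ 2 := by ring
    rwa [h5] at h4
  · have had' : a ∣ ∏ i ∈ Finset.univ.filter (· < s), (g - C (c i)) := by
      rw [List.map_map] at had
      have h1 : (l.map ((fun c' => g - C c') ∘ c)).prod =
          ∏ i ∈ Finset.univ.filter (· < s), (g - C (c i)) := prod_list_all hnd hlf _
      rwa [h1] at had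
    obtain ⟨I, hI, haI⟩ := h.redei a ha had' fun G hGm hGi hGd => by
      obtain ⟨I', w, hI', hw⟩ := hcond G hGm hGi hGd
      obtain ⟨I, hI, -, hIp⟩ := hsub I' hI'
      refine ⟨I, w, hI, ?_⟩
      rw [hIp] at hw
      have h4 := dvd_add ((cong_G hGd I).mul_left ((-1) ^ a.natDegree * a)) hw
      have h5 : (-1) ^ a.natDegree * a * (C (∏ i ∈ I, (c i - c s)) - ∏ i ∈ I, (-g + C (c i))) +
          ((-1) ^ a.natDegree * a * ∏ i ∈ I, (-g + C (c i)) - w ^ 2) =
          (-1) ^ a.natDegree * a * C (∏ i ∈ I, (c i - c s)) - w ^ 2 := by ring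
      rwa [h5] at h4
    obtain ⟨l', hl', hlp⟩ := list_of_fin hnd I (fun i hi => (hmem i).2 (hI i hi))
    refine ⟨l'.map c, hl'.map c, ?_⟩
    rw [List.map_map, haI]
    exact (hlp _).symm

theorem goodF (hg : g.Monic) (hodd : Odd g.natDegree) (h : ∀ s, StepF g c s) :
    ∀ (n : ℕ) (hn : n ≤ m), GoodL g ((Lm m n hn).map c)
  | 0, _ => trivial
  | n + 1, hn => ⟨stepF hg hodd hn (h _), goodF hg hodd h n _⟩

/-- The list of the factors. -/
theorem exists_list (hg : g.Monic) (hodd : Odd g.natDegree) (h : ∀ s, StepF g c s)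
    (hc : Function.Injective c) : ∃ (Q : Fin (∑ i, ((normalizedFactors (g - C (c i))).card - 1)) →
      k × k[X]) (G0 : k → k[X]), IsList g ((Lm m m le_rfl).map c) Q G0 := by
  have hne : ∀ i, g - C (c i) ≠ 0 := fun i => (h i).sep.ne_zero
  have hex : ∀ i, ∃ G, G ∈ normalizedFactors (g - C (c i)) := by
    intro i
    have h1 : normalizedFactors (g - C (c i)) ≠ 0 := by
      intro h0
      have h3 := prod_normalizedFactors (hne i)
      rw [h0, Multiset.prod_zero] at h3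
      exact not_unit hg hodd.pos (c i) (h3.isUnit isUnit_one)
    exact Multiset.exists_mem_of_ne_zero h1
  choose H hH using hex
  let S : Fin m → Finset k[X] := fun i => (normalizedFactors (g - C (c i))).toFinset.erase (H i)
  have hS : ∀ i, (S i).card = (normalizedFactors (g - C (c i))).card - 1 := by
    intro i
    have h1 : (normalizedFactors (g - C (c i))).Nodup :=
      (squarefree_iff_nodup_normalizedFactors (hne i)).1 (h i).sep.squarefree
    show ((normalizedFactors (g - C (c i))).toFinset.erase (H i)).card = _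
    rw [Finset.card_erase_of_mem (Multiset.mem_toFinset.2 (hH i)), Multiset.toFinset_card_of_nodup h1]
  let T : Finset (Σ _ : Fin m, k[X]) := Finset.univ.sigma S
  have hT : T.card = ∑ i, ((normalizedFactors (g - C (c i))).card - 1) := by
    rw [Finset.card_sigma]
    exact Finset.sum_congr rfl fun i _ => hS i
  let e : Fin (∑ i, ((normalizedFactors (g - C (c i))).card - 1)) ≃ T :=
    (finCongr hT.symm).trans T.equivFin.symm
  let G0 : k → k[X] := fun a => if h : ∃ i, c i = a then H h.choose else 0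
  have hG0 : ∀ i, G0 (c i) = H i := by
    intro i
    have h : ∃ j, c j = c i := ⟨i, rfl⟩
    show (if h : ∃ j, c j = c i then H h.choose else 0) = H i
    rw [dif_pos h]
    congr 1
    exact hc h.choose_spec
  have hTm : ∀ t : T, (t : Σ _ : Fin m, k[X]).2 ∈ S (t : Σ _ : Fin m, k[X]).1 := fun t =>
    (Finset.mem_sigma.1 t.2).2
  have hSm : ∀ i G, G ∈ S i ↔ G ≠ H i ∧ Irreducible G ∧ G.Monic ∧ G ∣ g - C (c i) := by
    intro i G
    show G ∈ (normalizedFactors (g - C (c i))).toFinset.erase (H i) ↔ _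
    rw [Finset.mem_erase, Multiset.mem_toFinset, Polynomial.mem_normalizedFactors_iff (hne i)]
  refine ⟨fun j => (c (e j : Σ _ : Fin m, k[X]).1, (e j : Σ _ : Fin m, k[X]).2), G0,
    ⟨fun j => ?_, fun i j hij => ?_, fun a ha => ?_, fun a ha G hGm hGi hGd hne' => ?_⟩⟩
  · obtain ⟨h1, h3, h4, h5⟩ := (hSm _ _).1 (hTm (e j))
    refine ⟨List.mem_map_of_mem ((mem_Lm _ _ _).2 (Fin.is_lt _)), h4, h3, h5, ?_⟩
    show (e j : Σ _ : Fin m, k[X]).2 ≠ G0 (c (e j : Σ _ : Fin m, k[X]).1)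
    rw [hG0]
    exact h1
  · have h1 := congrArg Prod.fst hij
    have h3 := congrArg Prod.snd hij
    have h4 : (e i : Σ _ : Fin m, k[X]).1 = (e j : Σ _ : Fin m, k[X]).1 := hc h1
    have h5 : (e i : Σ _ : Fin m, k[X]).2 = (e j : Σ _ : Fin m, k[X]).2 := h3
    exact e.injective (Subtype.ext (Sigma.ext h4 (heq_of_eq h5)))
  · obtain ⟨i, -, rfl⟩ := List.mem_map.1 ha
    rw [hG0]
    obtain ⟨h1, h3, h4⟩ := (Polynomial.mem_normalizedFactors_iff (hne i)).1 (hH i)
    exact ⟨h3, h1, h4⟩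
  · obtain ⟨i, -, rfl⟩ := List.mem_map.1 ha
    rw [hG0] at hne'
    have h1 : (⟨i, G⟩ : Σ _ : Fin m, k[X]) ∈ T := Finset.mem_sigma.2 ⟨Finset.mem_univ i,
      (hSm i G).2 ⟨hne', hGi, hGm, hGd⟩⟩
    refine ⟨e.symm ⟨_, h1⟩, ?_⟩
    show (c (e (e.symm ⟨_, h1⟩) : Σ _ : Fin m, k[X]).1, (e (e.symm ⟨_, h1⟩) : Σ _ : Fin m, k[X]).2) = _
    rw [e.apply_symm_apply]

end crt

section concl

variable {k : Type} [Field k] {m : ℕ} {g : k[X]} {c : Fin m → k} {K : Type} [Field K]
  [Algebra k[X] K] {y : Fin m → K}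

/-- The conclusions of the general criterion. -/
theorem crit_all (h2 : (2 : k) ≠ 0) (hg : g.Monic) (hodd : Odd g.natDegree)
    (hd : derivative g ≠ 0) (h : ∀ s, StepF g c s) (hK : IsCov k c K y) :
    (∀ (A : Type) [CommRing A] [IsDedekindDomain A] [Algebra A K] [IsFractionRing A K]
      [Algebra k[X] A] [IsScalarTower k[X] A K] [IsIntegralClosure A k[X] K],
      Pool.Agent.Y160.SH.ShaTriv 2 2 A (ff g K)) ∧
    (∀ (k' F A' : Type) [Field k'] [Algebra k k'] [IsGalois k k'] [Field F] [Algebra k'[X] F]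
      [Algebra K F] [CommRing A'] [IsDedekindDomain A'] [Algebra A' F] [IsFractionRing A' F]
      [Algebra k'[X] A'] [IsScalarTower k'[X] A' F] [IsIntegralClosure A' k'[X] F],
      IsGeom k k' K F → TateOver (F := F) 2 2 A' (ff g K)) ∧
    ∃ D : Fin (∑ i, ((normalizedFactors (g - C (c i))).card - 1)) → Jac 2 (ff g K) K,
      Pool.Agent.Y160.SL.IsBasisAt 2 D := by
  have hG := goodF hg hodd h m le_rfl
  have hall : ∀ i, i ∈ Lm m m le_rfl := fun i => (mem_Lm i m _).2 i.2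
  have hc : Function.Injective c := fun i j hij =>
    List.inj_on_of_nodup_map hG.nodup (hall i) (hall j) hij
  have hB := hK.base hc hall
  obtain ⟨Q, G0, hQ⟩ := exists_list hg hodd h hc
  refine ⟨?_, ?_, _, basis h2 hg hodd hd hG hB hQ⟩
  · intro A _ _ _ _ _ _ _
    obtain ⟨-, h1, -⟩ := sha_gen (A := A) h2 hg hodd hd hG hB
    exact h1
  · intro k' F A' _ _ _ _ _ _ _ _ _ _ _ _ _ hF
    obtain ⟨A, a1, a2, a3, a4, a5, a6, a7⟩ := exists_A h2 hG.nodup hB
    exact TW.tate (A := A) h2 hg hodd hd hG hB hF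

end concl

end Pool.Agent.Q45.TW
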