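import Pool.Agent.Q45.TW.Ind

/-!
# The conditions of the steps for marked points
-/

set_option autoImplicit false
set_option linter.all false

open Polynomial IsDedekindDomain WithZero UniqueFactorizationMonoid
open scoped Classical

namespace Pool.Agent.Q45.TW

section lists

variable {ι : Type}

theorem list_of_finset {l : List ι} (hl : l.Nodup) (V : Finset ι) (hV : V ⊆ l.toFinset) :
    ∃ l' : List ι, l'.Sublist l ∧ ∀ {M : Type} [CommMonoid M] (f : ι → M),
      (l'.map f).prod = ∏ i ∈ V, f i := by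
  refine ⟨l.filter (· ∈ V), List.filter_sublist, fun f => ?_⟩
  have h1 : (l.filter (· ∈ V)).Nodup := hl.filter _
  rw [← List.prod_toFinset f h1]
  congr 1
  ext i
  rw [List.mem_toFinset, List.mem_filter, decide_eq_true_eq]
  exact ⟨fun h => h.2, fun h => ⟨List.mem_toFinset.1 (hV h), h⟩⟩

theorem finset_of_list {l l' : List ι} (hl : l.Nodup) (h : l'.Sublist l) :
    l'.toFinset ⊆ l.toFinset ∧ ∀ {M : Type} [CommMonoid M] (f : ι → M),
      (l'.map f).prod = ∏ i ∈ l'.toFinset, f i := by
  refine ⟨fun i hi => ?_, fun f => (List.prod_toFinset f (h.nodup hl)).symm⟩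
  rw [List.mem_toFinset] at hi ⊢
  exact h.subset hi

end lists

section fac

variable {k : Type} [Field k] {ι : Type}

/-- The factorisation of `g - c i`: for the indices with a marked point it is `(X - x i) q i`, for the
others it is `q i`; the polynomial `q i` is irreducible. -/
structure Fac (g : k[X]) (c : ι → k) (P : ι → Prop) (x : ι → k) (q : ι → k[X]) (i : ι) : Prop where
  pt : P i → g - C (c i) = (X - C (x i)) * q i
  npt : ¬ P i → g - C (c i) = q i
  irr : Irreducible (q i)

/-- The first factor. -/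
noncomputable def Bf (P : ι → Prop) (x : ι → k) (i : ι) : k[X] := if P i then X - C (x i) else 1

variable {g : k[X]} {c : ι → k} {P : ι → Prop} {x : ι → k} {q : ι → k[X]}

theorem Fac.eq {i : ι} (h : Fac g c P x q i) : g - C (c i) = Bf P x i * q i := by
  unfold Bf
  split_ifs with h1
  · exact h.pt h1
  · rw [one_mul]
    exact h.npt h1

theorem Bf_monic (i : ι) : (Bf P x i).Monic := by
  unfold Bf
  split_ifs
  · exact monic_X_sub_C _
  · exact monic_one

theorem sub_monic (hg : g.Monic) (hg0 : 0 < g.natDegree) (c : k) : (g - C c).Monic := by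
  refine hg.sub_of_left (lt_of_le_of_lt degree_C_le ?_)
  rw [degree_eq_natDegree hg.ne_zero]
  exact_mod_cast hg0

theorem Fac.monic {i : ι} (h : Fac g c P x q i) (hg : g.Monic) (hg0 : 0 < g.natDegree) :
    (q i).Monic := by
  have h1 := sub_monic hg hg0 (c i)
  rw [h.eq] at h1
  exact (Bf_monic i).of_mul_monic_left h1

/-- The monic divisors of a product. -/
theorem monic_fac (hg : g.Monic) (hg0 : 0 < g.natDegree) (T : Finset ι)
    (hF : ∀ i ∈ T, Fac g c P x q i) : ∀ a : k[X], a.Monic → a ∣ ∏ i ∈ T, (g - C (c i)) →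
      ∃ U V : Finset ι, U ⊆ T ∧ V ⊆ T ∧ (∀ i ∈ U, P i) ∧
        a = (∏ i ∈ U, Bf P x i) * ∏ i ∈ V, q i := by
  induction T using Finset.induction_on with
  | empty =>
    intro a ha hd
    rw [Finset.prod_empty] at hd
    refine ⟨∅, ∅, Finset.Subset.refl _, Finset.Subset.refl _, fun i hi => absurd hi
      (Finset.notMem_empty i), ?_⟩
    rw [Finset.prod_empty, Finset.prod_empty, mul_one]
    exact ha.eq_one_of_isUnit (isUnit_of_dvd_one hd)
  | insert j T hj ih =>
    intro a ha hd
    have hFj := hF j (Finset.mem_insert_self j T)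
    have ih' := ih fun i hi => hF i (Finset.mem_insert_of_mem hi)
    rw [Finset.prod_insert hj, hFj.eq, mul_assoc] at hd
    -- the first factor
    have s1 : ∃ (ε : Prop) (a' : k[X]), (ε → P j) ∧ a'.Monic ∧
        a = (if ε then Bf P x j else 1) * a' ∧ a' ∣ q j * ∏ i ∈ T, (g - C (c i)) := by
      by_cases hP : P j
      · have hB : Bf P x j = X - C (x j) := if_pos hP
        rw [hB] at hd ⊢
        have hpr : Prime (X - C (x j) : k[X]) := (irreducible_X_sub_C (x j)).prime
        by_cases h1 : (X - C (x j)) ∣ a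
        · obtain ⟨a', ha'⟩ := h1
          refine ⟨True, a', fun _ => hP, ?_, ?_, ?_⟩
          · rw [ha'] at ha
            exact (monic_X_sub_C _).of_mul_monic_left ha
          · rw [if_pos trivial]
            exact ha'
          · rw [ha'] at hd
            exact (mul_dvd_mul_iff_left hpr.ne_zero).1 hd
        · refine ⟨False, a, fun h => absurd h id, ha, ?_, ?_⟩
          · rw [if_neg id, one_mul]
          · exact (((irreducible_X_sub_C (x j)).coprime_iff_not_dvd.2 h1).symm).dvd_of_dvd_mul_left hd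
      · have hB : Bf P x j = 1 := if_neg hP
        rw [hB, one_mul] at hd
        refine ⟨False, a, fun h => absurd h id, ha, ?_, hd⟩
        rw [if_neg id, one_mul]
    obtain ⟨ε, a', hε, ha', e1, hd'⟩ := s1
    -- the second factor
    have s2 : ∃ (δ : Prop) (b : k[X]), b.Monic ∧
        a' = (if δ then q j else 1) * b ∧ b ∣ ∏ i ∈ T, (g - C (c i)) := by
      have hqm := hFj.monic hg hg0
      by_cases h1 : q j ∣ a'
      · obtain ⟨b, hb⟩ := h1
        refine ⟨True, b, ?_, ?_, ?_⟩
        · rw [hb] at ha'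
          exact hqm.of_mul_monic_left ha'
        · rw [if_pos trivial]
          exact hb
        · rw [hb] at hd'
          exact (mul_dvd_mul_iff_left hqm.ne_zero).1 hd'
      · refine ⟨False, a', ha', ?_, ?_⟩
        · rw [if_neg id, one_mul]
        · exact ((hFj.irr.coprime_iff_not_dvd.2 h1).symm).dvd_of_dvd_mul_left hd'
    obtain ⟨δ, b, hb, e2, hdb⟩ := s2
    obtain ⟨U, V, hU, hV, hUP, e3⟩ := ih' b hb hdb
    have hjU : j ∉ U := fun h => hj (hU h)
    have hjV : j ∉ V := fun h => hj (hV h)
    refine ⟨if ε then insert j U else U, if δ then insert j V else V, ?_, ?_, ?_, ?_⟩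
    · split_ifs
      · exact Finset.insert_subset_insert j hU
      · exact hU.trans (Finset.subset_insert j T)
    · split_ifs
      · exact Finset.insert_subset_insert j hV
      · exact hV.trans (Finset.subset_insert j T)
    · split_ifs with h
      · intro i hi
        rcases Finset.mem_insert.1 hi with h0 | h0
        · rw [h0]
          exact hε h
        · exact hUP i h0
      · exact hUP
    · rw [e1, e2, e3]
      by_cases h1 : ε <;> by_cases h3 : δ
      · rw [if_pos h1, if_pos h3, if_pos h1, if_pos h3, Finset.prod_insert hjU,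
          Finset.prod_insert hjV]
        ring
      · rw [if_pos h1, if_neg h3, if_pos h1, if_neg h3, Finset.prod_insert hjU]
        ring
      · rw [if_neg h1, if_pos h3, if_neg h1, if_pos h3, Finset.prod_insert hjV]
        ring
      · rw [if_neg h1, if_neg h3, if_neg h1, if_neg h3]
        ring

theorem prod_symm {M : Type} [CommRing M] (f : ι → M) (U V : Finset ι) :
    (∏ i ∈ U, f i) * ∏ i ∈ V, f i = (∏ i ∈ symmDiff U V, f i) * (∏ i ∈ U ∩ V, f i) ^ 2 := by
  have h1 : (∏ i ∈ U ∪ V, f i) * ∏ i ∈ U ∩ V, f i = (∏ i ∈ U, f i) * ∏ i ∈ V, f i :=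
    Finset.prod_union_inter
  have h3 : (∏ i ∈ symmDiff U V, f i) * ∏ i ∈ U ∩ V, f i = ∏ i ∈ U ∪ V, f i := by
    have hd : Disjoint (symmDiff U V) (U ∩ V) := by
      rw [Finset.disjoint_left]
      intro i hi hi'
      rw [Finset.mem_symmDiff] at hi
      rw [Finset.mem_inter] at hi'
      tauto
    rw [← Finset.prod_union hd]
    congr 1
    ext i
    rw [Finset.mem_union, Finset.mem_symmDiff, Finset.mem_inter, Finset.mem_union]
    tauto
  rw [← h1, ← h3]
  ring

/-- The conditions for a marked point. -/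
theorem step_pt (hg : g.Monic) (hodd : Odd g.natDegree) {s : ι} {l : List ι} (hPs : P s)
    (hFs : Fac g c P x q s) (hF : ∀ i ∈ l, Fac g c P x q i) (hsep : (g - C (c s)).Separable)
    (hnd : l.Nodup)
    (hA : ∀ U I : Finset ι, U ⊆ l.toFinset → (∀ i ∈ U, P i) → I ⊆ l.toFinset → ∀ w : k,
      (∏ i ∈ U, (x i - x s)) * ∏ i ∈ I, (c i - c s) = w ^ 2 → U = ∅ ∧ I = ∅)
    (hQ : ∀ I : Finset ι, I ⊆ l.toFinset → I ≠ ∅ → ∀ w : k[X],
      ¬ q s ∣ C (∏ i ∈ I, (c i - c s)) - w ^ 2) : StepC g (l.map c) (c s) := by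
  have hg0 := hodd.pos
  have hcs : ∀ i ∈ l, c i - c s ≠ 0 := by
    intro i hi h0
    have h1 := (hA ∅ {i} (Finset.empty_subset _) (fun j hj => absurd hj (Finset.notMem_empty j))
      (by rw [Finset.singleton_subset_iff, List.mem_toFinset]; exact hi) 0 (by
        rw [Finset.prod_empty, Finset.prod_singleton, h0]
        norm_num)).2
    exact Finset.singleton_ne_empty i h1
  have hxs : ∀ i ∈ l, P i → x i - x s ≠ 0 := by
    intro i hi hP h0
    have h1 := (hA {i} ∅ (by rw [Finset.singleton_subset_iff, List.mem_toFinset]; exact hi)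
      (fun j hj => by rw [Finset.mem_singleton.1 hj]; exact hP) (Finset.empty_subset _) 0 (by
        rw [Finset.prod_empty, Finset.prod_singleton, h0]
        norm_num)).1
    exact Finset.singleton_ne_empty i h1
  have hsub : ∀ I' : List k, I'.Sublist (l.map c) → ∃ I : Finset ι, I ⊆ l.toFinset ∧
      (I' ≠ [] → I ≠ ∅) ∧ ∀ f : k → k[X], (I'.map f).prod = ∏ i ∈ I, f (c i) := by
    intro I' hI'
    obtain ⟨l', hl', rfl⟩ := List.sublist_map_iff.1 hI'
    obtain ⟨h1, h3⟩ := finset_of_list hnd hl'
    refine ⟨l'.toFinset, h1, fun h4 h5 => h4 ?_, fun f => ?_⟩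
    · rw [List.toFinset_eq_empty_iff] at h5
      rw [h5, List.map_nil]
    · rw [List.map_map]
      exact h3 _
  have hevs : eval (x s) g = c s := by
    have h1 := congrArg (eval (x s)) (hFs.pt hPs)
    rw [eval_mul, eval_sub, eval_sub, eval_X, eval_C, eval_C, sub_self, zero_mul, sub_eq_zero] at h1
    exact h1
  have hqm := hFs.monic hg hg0
  refine ⟨fun h0 => ?_, hsep, fun G hGm hGi hGd => ?_, fun a ha had hcond => ?_⟩
  · obtain ⟨i, hi, h1⟩ := List.mem_map.1 h0
    exact hcs i hi (sub_eq_zero.2 h1)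
  · -- independence
    intro I' hI' hne w hw
    obtain ⟨I, hI, hIne, hIp⟩ := hsub I' hI'
    rw [hIp] at hw
    have hG : G = X - C (x s) ∨ G = q s := by
      rw [hFs.pt hPs] at hGd
      rcases hGi.prime.dvd_or_dvd hGd with h | h
      · exact Or.inl (eq_of_monic_of_associated hGm (monic_X_sub_C _)
          (hGi.associated_of_dvd (irreducible_X_sub_C _) h))
      · exact Or.inr (eq_of_monic_of_associated hGm hqm (hGi.associated_of_dvd hFs.irr h))
    rcases hG with h | h
    · subst h
      rw [dvd_iff_isRoot, IsRoot.def, eval_sub, eval_pow, eval_prod, sub_eq_zero] at hw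
      have h1 : ∏ i ∈ I, eval (x s) (-g + C (c i)) = ∏ i ∈ I, (c i - c s) := by
        refine Finset.prod_congr rfl fun i _ => ?_
        rw [eval_add, eval_neg, eval_C, hevs]
        ring
      rw [h1] at hw
      exact hIne hne (hA ∅ I (Finset.empty_subset _) (fun j hj => absurd hj (Finset.notMem_empty j))
        hI _ (by rw [Finset.prod_empty, one_mul]; exact hw)).2
    · subst h
      refine hQ I hI (hIne hne) w ?_
      have h1 : q s ∣ C (∏ i ∈ I, (c i - c s)) - ∏ i ∈ I, (-g + C (c i)) := by
        have h3 : q s ∣ g - C (c s) := ⟨X - C (x s), by rw [hFs.pt hPs]; ring⟩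
        rw [← AdjoinRoot.mk_eq_mk, map_prod, map_prod, map_prod]
        refine Finset.prod_congr rfl fun i _ => ?_
        rw [AdjoinRoot.mk_eq_mk]
        have h4 : C (c i - c s) - (-g + C (c i)) = g - C (c s) := by
          rw [C_sub]
          ring
        rw [h4]
        exact h3
      have h4 := dvd_add h1 hw
      have h5 : C (∏ i ∈ I, (c i - c s)) - ∏ i ∈ I, (-g + C (c i)) +
          (∏ i ∈ I, (-g + C (c i)) - w ^ 2) = C (∏ i ∈ I, (c i - c s)) - w ^ 2 := by ring
      rwa [h5] at h4
  · -- the condition of Rédei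
    have had' : a ∣ ∏ i ∈ l.toFinset, (g - C (c i)) := by
      rw [List.map_map] at had
      have h1 : (l.map ((fun c' => g - C c') ∘ c)).prod = ∏ i ∈ l.toFinset, (g - C (c i)) :=
        (List.prod_toFinset _ hnd).symm
      rwa [h1] at had
    obtain ⟨U, V, hU, hV, hUP, hUV⟩ := monic_fac hg hg0 l.toFinset
      (fun i hi => hF i (List.mem_toFinset.1 hi)) a ha had'
    obtain ⟨I', w, hI', hw⟩ := hcond (X - C (x s)) (monic_X_sub_C _) (irreducible_X_sub_C _)
      ⟨q s, hFs.pt hPs⟩
    obtain ⟨I, hI, -, hIp⟩ := hsub I' hI'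
    rw [hIp, dvd_iff_isRoot, IsRoot.def, eval_sub, eval_pow, eval_mul, eval_mul, eval_pow, eval_prod,
      eval_neg, eval_one, sub_eq_zero] at hw
    have h1 : ∏ i ∈ I, eval (x s) (-g + C (c i)) = ∏ i ∈ I, (c i - c s) := by
      refine Finset.prod_congr rfl fun i _ => ?_
      rw [eval_add, eval_neg, eval_C, hevs]
      ring
    rw [h1] at hw
    -- the value of `a`
    let b : ι → k := fun i => if P i then x i - x s else 1
    have hb0 : ∀ i ∈ l, b i ≠ 0 := by
      intro i hi
      show (if P i then x i - x s else 1) ≠ 0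
      split_ifs with h
      · exact hxs i hi h
      · exact one_ne_zero
    have hVi : ∀ i ∈ V, i ∈ l := fun i hi => List.mem_toFinset.1 (hV hi)
    have hBv : ∀ i, (-1) ^ (Bf P x i).natDegree * eval (x s) (Bf P x i) = b i := by
      intro i
      show _ = (if P i then x i - x s else 1)
      unfold Bf
      split_ifs with h
      · rw [natDegree_X_sub_C, pow_one, eval_sub, eval_X, eval_C]
        ring
      · rw [natDegree_one, pow_zero, eval_one, mul_one]
    have hqv : ∀ i ∈ V, b i * ((-1) ^ (q i).natDegree * eval (x s) (q i)) = c i - c s := by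
      intro i hi
      have hFi := hF i (hVi i hi)
      rw [← hBv]
      have h3 := congrArg (eval (x s)) hFi.eq
      rw [eval_mul, eval_sub, eval_C, hevs] at h3
      have h4 : (Bf P x i).natDegree + (q i).natDegree = g.natDegree := by
        rw [← (Bf_monic i).natDegree_mul (hFi.monic hg hg0), ← hFi.eq, natDegree_sub_C]
      have h5 : ((-1 : k)) ^ (Bf P x i).natDegree * (-1) ^ (q i).natDegree = -1 := by
        rw [← pow_add, h4, hodd.neg_one_pow]
      calc _ = ((-1 : k) ^ (Bf P x i).natDegree * (-1) ^ (q i).natDegree) *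
            (eval (x s) (Bf P x i) * eval (x s) (q i)) := by ring
        _ = _ := by
          rw [h5, ← h3]
          ring
    have hprodm : ∀ (W : Finset ι) (f : ι → k[X]), (∀ i ∈ W, (f i).Monic) →
        (-1) ^ (∏ i ∈ W, f i).natDegree * eval (x s) (∏ i ∈ W, f i) =
          ∏ i ∈ W, ((-1) ^ (f i).natDegree * eval (x s) (f i)) := by
      intro W f hf
      rw [natDegree_prod_of_monic _ _ hf, ← Finset.prod_pow_eq_pow_sum, eval_prod,
        Finset.prod_mul_distrib]
    have hqmV : ∀ i ∈ V, (q i).Monic := fun i hi => (hF i (hVi i hi)).monic hg hg0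
    have hval : (-1) ^ a.natDegree * eval (x s) a = (∏ i ∈ U, b i) *
        ∏ i ∈ V, ((-1) ^ (q i).natDegree * eval (x s) (q i)) := by
      rw [hUV, (monic_prod_of_monic _ _ fun i _ => Bf_monic i).natDegree_mul
        (monic_prod_of_monic _ _ hqmV), pow_add, eval_mul, ← hprodm V q hqmV,
        ← Finset.prod_congr rfl (fun i _ => hBv i), ← hprodm U (Bf P x) fun i _ => Bf_monic i]
      ring
    -- the squares
    have hb2 : (∏ i ∈ V, b i) * ∏ i ∈ V, ((-1) ^ (q i).natDegree * eval (x s) (q i)) =
        ∏ i ∈ V, (c i - c s) := by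
      rw [← Finset.prod_mul_distrib]
      exact Finset.prod_congr rfl hqv
    have hbV0 : ∏ i ∈ V, b i ≠ 0 := Finset.prod_ne_zero_iff.2 fun i hi => hb0 i (hVi i hi)
    have key : ((∏ i ∈ U, b i) * ∏ i ∈ V, b i) * ((∏ i ∈ V, (c i - c s)) * ∏ i ∈ I, (c i - c s)) =
        ((∏ i ∈ V, b i) * eval (x s) w) ^ 2 := by
      rw [mul_pow, ← hw, hval, ← hb2]
      ring
    rw [prod_symm, prod_symm] at key
    have hUVl : U ∩ V ⊆ l.toFinset := fun i hi => hU (Finset.mem_inter.1 hi).1
    have n1 : ∏ i ∈ U ∩ V, b i ≠ 0 := Finset.prod_ne_zero_iff.2 fun i hi =>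
      hb0 i (List.mem_toFinset.1 (hUVl hi))
    have n2 : ∏ i ∈ V ∩ I, (c i - c s) ≠ 0 := Finset.prod_ne_zero_iff.2 fun i hi =>
      hcs i (hVi i (Finset.mem_inter.1 hi).1)
    have key2 : (∏ i ∈ symmDiff U V, b i) * ∏ i ∈ symmDiff V I, (c i - c s) =
        (((∏ i ∈ V, b i) * eval (x s) w) / ((∏ i ∈ U ∩ V, b i) * ∏ i ∈ V ∩ I, (c i - c s))) ^ 2 := by
      rw [div_pow, ← key]
      field_simp
    have hbf : ∏ i ∈ symmDiff U V, b i = ∏ i ∈ (symmDiff U V).filter P, (x i - x s) := by
      rw [Finset.prod_filter]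
    rw [hbf] at key2
    have hsl : symmDiff U V ⊆ l.toFinset := fun i hi => by
      rcases (Finset.mem_symmDiff.1 hi) with h | h
      · exact hU h.1
      · exact hV h.1
    have hsl' : symmDiff V I ⊆ l.toFinset := fun i hi => by
      rcases (Finset.mem_symmDiff.1 hi) with h | h
      · exact hV h.1
      · exact hI h.1
    obtain ⟨e1, e2⟩ := hA _ _ ((Finset.filter_subset P _).trans hsl)
      (fun i hi => (Finset.mem_filter.1 hi).2) hsl' _ key2
    -- the conclusion
    have hUV' : U = V.filter P := by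
      ext i
      rw [Finset.mem_filter]
      constructor
      · intro hi
        refine ⟨?_, hUP i hi⟩
        by_contra h
        have : i ∈ (symmDiff U V).filter P := Finset.mem_filter.2
          ⟨Finset.mem_symmDiff.2 (Or.inl ⟨hi, h⟩), hUP i hi⟩
        rw [e1] at this
        exact Finset.notMem_empty i this
      · rintro ⟨hi, hP⟩
        by_contra h
        have : i ∈ (symmDiff U V).filter P := Finset.mem_filter.2
          ⟨Finset.mem_symmDiff.2 (Or.inr ⟨hi, h⟩), hP⟩
        rw [e1] at this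
        exact Finset.notMem_empty i this
    obtain ⟨l', hl', hlp⟩ := list_of_finset hnd V hV
    refine ⟨l'.map c, hl'.map c, ?_⟩
    rw [List.map_map]
    have h5 : (l'.map ((fun c' => g - C c') ∘ c)).prod = ∏ i ∈ V, (g - C (c i)) := hlp _
    rw [h5, hUV]
    have h6 : ∏ i ∈ U, Bf P x i = ∏ i ∈ V, Bf P x i := by
      rw [hUV', Finset.prod_filter]
      refine Finset.prod_congr rfl fun i _ => ?_
      unfold Bf
      split_ifs <;> rfl
    rw [h6, ← Finset.prod_mul_distrib]
    exact Finset.prod_congr rfl fun i hi => ((hF i (hVi i hi)).eq).symm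

end fac

end Pool.Agent.Q45.TW
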