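import Pool.Agent.Q45.TW.Ic
import Pool.Agent.Q45.TW.Bss

/-!
# Marked points over a field `k = k₁(h)`
-/

set_option autoImplicit false
set_option linter.all false

open Polynomial IsDedekindDomain WithZero UniqueFactorizationMonoid
open scoped Classical

namespace Pool.Agent.Q45.TW

section more

variable {k : Type} [Field k]

theorem vG_fprod {ι : Type} {G : k[X]} (f : ι → k[X]) (S : Finset ι) (hf : ∀ i ∈ S, f i ≠ 0) :
    ∏ i ∈ S, f i ≠ 0 ∧ vG G (∏ i ∈ S, f i) = ∑ i ∈ S, vG G (f i) := by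
  induction S using Finset.induction_on with
  | empty => rw [Finset.prod_empty, Finset.sum_empty]; exact ⟨one_ne_zero, vG_one⟩
  | insert j S hj ih =>
    obtain ⟨h1, h3⟩ := ih fun i hi => hf i (Finset.mem_insert_of_mem hi)
    have h4 := hf j (Finset.mem_insert_self j S)
    rw [Finset.prod_insert hj, Finset.sum_insert hj]
    exact ⟨mul_ne_zero h4 h1, by rw [vG_mul h4 h1, h3]⟩

theorem vG_C {G : k[X]} (hG : Irreducible G) {a : k} (ha : a ≠ 0) : vG G (C a) = 0 :=
  vG_zero fun h => hG.not_isUnit (isUnit_of_dvd_unit h (isUnit_C.2 (IsUnit.mk0 _ ha)))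

theorem vG_simple {a : k} {p : k[X]} (h0 : eval a p = 0) (h1 : eval a (derivative p) ≠ 0) :
    vG (X - C a) p = 1 := by
  obtain ⟨p1, rfl⟩ := dvd_iff_isRoot.2 h0
  have h3 : eval a p1 ≠ 0 := by
    rw [derivative_mul, derivative_sub, derivative_X, derivative_C, sub_zero, one_mul, eval_add,
      eval_mul, eval_sub, eval_X, eval_C, sub_self, zero_mul, add_zero] at h1
    exact h1
  have h4 : p1 ≠ 0 := by
    rintro rfl
    exact h3 eval_zero
  rw [vG_mul (X_sub_C_ne_zero a) h4, vG_self (monic_X_sub_C a) (irreducible_X_sub_C a), vG_zero]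
  intro h5
  exact h3 (dvd_iff_isRoot.1 h5)

theorem vG_lin (a b : k) : vG (X + C a) (X + C b) = if a = b then 1 else 0 := by
  have e : ∀ a : k, (X + C a : k[X]) = X - C (-a) := fun a => by rw [C_neg, sub_neg_eq_add]
  split_ifs with h
  · subst h
    rw [e]
    exact vG_self (monic_X_sub_C _) (irreducible_X_sub_C _)
  · apply vG_zero
    rw [e, dvd_iff_isRoot, IsRoot.def, eval_add, eval_X, eval_C, neg_add_eq_sub, sub_eq_zero]
    exact fun h1 => h h1.symm

end more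

section uni

variable {k₁ k : Type} [Field k₁] [Field k] [Algebra k₁[X] k] [IsFractionRing k₁[X] k] {ι : Type}

/-- The element `h`. -/
noncomputable def hh (k₁ k : Type) [Field k₁] [Field k] [Algebra k₁[X] k] : k :=
  algebraMap k₁[X] k X

/-- The polynomial `f₀(x) + h x`. -/
noncomputable def gU (k : Type) [Field k] [Algebra k₁[X] k] (f₀ : k₁[X]) : k[X] :=
  f₀.map (cst k₁ k) + C (hh k₁ k) * X

/-- Its value at `x i`. -/
noncomputable def cU (k : Type) [Field k] [Algebra k₁[X] k] (f₀ : k₁[X]) (x : ι → k₁) (i : ι) : k :=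
  cst k₁ k (eval (x i) f₀) + hh k₁ k * cst k₁ k (x i)

/-- The quotient `(f₀(X) - f₀(x)) / (X - x)`. -/
noncomputable def Ph (f₀ : k₁[X]) (x : k₁) : k₁[X] :=
  (X_sub_C_dvd_sub_C_eval (p := f₀) (a := x)).choose

theorem Ph_spec (f₀ : k₁[X]) (x : k₁) : f₀ - C (eval x f₀) = (X - C x) * Ph f₀ x :=
  (X_sub_C_dvd_sub_C_eval (p := f₀) (a := x)).choose_spec

theorem Ph_monic {f₀ : k₁[X]} (hf : f₀.Monic) (hn : 0 < f₀.natDegree) (x : k₁) :
    (Ph f₀ x).Monic := by
  have h1 := sub_monic hf hn (eval x f₀)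
  rw [Ph_spec] at h1
  exact (monic_X_sub_C x).of_mul_monic_left h1

theorem Ph_deg {f₀ : k₁[X]} (hf : f₀.Monic) (hn : 0 < f₀.natDegree) (x : k₁) :
    (Ph f₀ x).natDegree + 1 = f₀.natDegree := by
  have h1 := congrArg natDegree (Ph_spec f₀ x)
  rw [natDegree_sub_C, (monic_X_sub_C x).natDegree_mul (Ph_monic hf hn x), natDegree_X_sub_C] at h1
  omega

theorem Ph_eval (f₀ : k₁[X]) (x z : k₁) : eval z f₀ - eval x f₀ = (z - x) * eval z (Ph f₀ x) := by
  have h1 := congrArg (eval z) (Ph_spec f₀ x)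
  rw [eval_sub, eval_C, eval_mul, eval_sub, eval_X, eval_C] at h1
  exact h1

/-- The conditions on the points. -/
structure GenPt (f₀ : k₁[X]) (x : ι → k₁) : Prop where
  der : ∀ s, derivative (Ph f₀ (x s)) ≠ 0
  ne : ∀ s i, i ≠ s → x i ≠ x s
  val : ∀ s i, i ≠ s → eval (x i) (derivative (Ph f₀ (x s))) ≠ 0
  dif : ∀ s i j, i ≠ s → j ≠ s → i ≠ j → eval (x i) (Ph f₀ (x s)) ≠ eval (x j) (Ph f₀ (x s))
  sq : ∀ (s : ι) (U : Finset ι), s ∉ U → U ≠ ∅ → ∀ w : k₁, ∏ i ∈ U, (x i - x s) ≠ w ^ 2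

variable {f₀ : k₁[X]} {x : ι → k₁}

theorem gU_monic (hf : f₀.Monic) (hn : 1 < f₀.natDegree) : (gU k f₀).Monic := by
  unfold gU
  refine (hf.map _).add_of_left ?_
  refine lt_of_le_of_lt (degree_C_mul_X_le _) ?_
  rw [degree_eq_natDegree (hf.map _).ne_zero, hf.natDegree_map]
  exact_mod_cast hn

theorem gU_deg (hf : f₀.Monic) (hn : 1 < f₀.natDegree) : (gU k f₀).natDegree = f₀.natDegree := by
  unfold gU
  rw [natDegree_add_eq_left_of_degree_lt, hf.natDegree_map]
  refine lt_of_le_of_lt (degree_C_mul_X_le _) ?_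
  rw [degree_eq_natDegree (hf.map _).ne_zero, hf.natDegree_map]
  exact_mod_cast hn

theorem gU_eval (i : ι) : eval (cst k₁ k (x i)) (gU k f₀) = cU k f₀ x i := by
  unfold gU cU
  rw [eval_add, eval_mul, eval_C, eval_X, eval_map, eval₂_at_apply]

theorem gU_fac (s : ι) : gU k f₀ - C (cU k f₀ x s) =
    (X - C (cst k₁ k (x s))) * ff (Ph f₀ (x s)) k := by
  have h1 := congrArg (Polynomial.map (cst k₁ k)) (Ph_spec f₀ (x s))
  rw [Polynomial.map_sub, Polynomial.map_mul, Polynomial.map_sub, map_C, map_C, map_X] at h1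
  unfold gU cU ff
  rw [C_add, C_mul]
  show _ = _ * (_ + C (hh k₁ k))
  linear_combination h1

theorem cU_sub (s i : ι) : cU k f₀ x i - cU k f₀ x s =
    algebraMap k₁[X] k (C (x i - x s) * (X + C (eval (x i) (Ph f₀ (x s))))) := by
  have h1 := Ph_eval f₀ (x s) (x i)
  have h3 : cst k₁ k (eval (x i) f₀) - cst k₁ k (eval (x s) f₀) =
      (cst k₁ k (x i) - cst k₁ k (x s)) * cst k₁ k (eval (x i) (Ph f₀ (x s))) := by
    rw [← map_sub, ← map_sub, ← map_mul, h1]
  unfold cU hh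
  rw [map_mul, map_add, C_sub, map_sub]
  change _ = (cst k₁ k (x i) - cst k₁ k (x s)) * (_ + cst k₁ k (eval (x i) (Ph f₀ (x s))))
  linear_combination h3

theorem q_irr (hf : f₀.Monic) (hn : 1 < f₀.natDegree) (s : ι) :
    Irreducible (ff (Ph f₀ (x s)) k) := by
  have h0 : 0 < (Ph f₀ (x s)).natDegree := by
    have := Ph_deg hf (by omega) (x s)
    omega
  have h1 := irr (K := k) (g := Ph f₀ (x s)) (cs := []) (A := k₁[X]) (R := k₁[X])
    (Ph_monic hf (by omega) (x s)) h0 (IsTw.nil _ fun _ => 0) (IsTw.nil _ fun _ => 0)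
  rwa [ff_map (algebraMap k₁[X] k) fun p => rfl] at h1

theorem cst_inj : Function.Injective (algebraMap k₁[X] k) := IsFractionRing.injective k₁[X] k

theorem prod_cU (s : ι) (I : Finset ι) : ∏ i ∈ I, (cU k f₀ x i - cU k f₀ x s) =
    algebraMap k₁[X] k (C (∏ i ∈ I, (x i - x s)) * ∏ i ∈ I, (X + C (eval (x i) (Ph f₀ (x s))))) := by
  rw [Finset.prod_congr rfl fun i _ => cU_sub s i, ← map_prod, Finset.prod_mul_distrib, map_prod C]

theorem uni_A (hG : GenPt f₀ x) {s : ι} {l : List ι} (hs : s ∉ l) (U I : Finset ι)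
    (hU : U ⊆ l.toFinset) (hI : I ⊆ l.toFinset) (w : k)
    (h : (∏ i ∈ U, (cst k₁ k (x i) - cst k₁ k (x s))) * ∏ i ∈ I, (cU k f₀ x i - cU k f₀ x s) =
      w ^ 2) : U = ∅ ∧ I = ∅ := by
  have hUs : ∀ i ∈ U, i ≠ s := fun i hi h0 => hs (h0 ▸ List.mem_toFinset.1 (hU hi))
  have hIs : ∀ i ∈ I, i ≠ s := fun i hi h0 => hs (h0 ▸ List.mem_toFinset.1 (hI hi))
  have h1 : ∏ i ∈ U, (cst k₁ k (x i) - cst k₁ k (x s)) =
      algebraMap k₁[X] k (C (∏ i ∈ U, (x i - x s))) := by
    rw [map_prod C, map_prod]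
    refine Finset.prod_congr rfl fun i _ => ?_
    rw [C_sub, map_sub]
    rfl
  rw [h1, prod_cU, ← map_mul, ← mul_assoc, ← C_mul] at h
  obtain ⟨b, hb⟩ := sq_poly h
  set κ : k₁ := (∏ i ∈ U, (x i - x s)) * ∏ i ∈ I, (x i - x s) with hκ
  have hU0 : ∏ i ∈ U, (x i - x s) ≠ 0 := Finset.prod_ne_zero_iff.2 fun i hi =>
    sub_ne_zero.2 (hG.ne s i (hUs i hi))
  have hκ0 : κ ≠ 0 := mul_ne_zero hU0 (Finset.prod_ne_zero_iff.2 fun i hi =>
    sub_ne_zero.2 (hG.ne s i (hIs i hi)))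
  have hI0 : I = ∅ := by
    by_contra hne
    obtain ⟨i0, hi0⟩ := Finset.nonempty_iff_ne_empty.2 hne
    have hirr : Irreducible (X + C (eval (x i0) (Ph f₀ (x s))) : k₁[X]) := by
      have e : (X + C (eval (x i0) (Ph f₀ (x s))) : k₁[X]) =
        X - C (-(eval (x i0) (Ph f₀ (x s)))) := by rw [C_neg, sub_neg_eq_add]
      rw [e]
      exact irreducible_X_sub_C _
    obtain ⟨n1, n2⟩ := vG_fprod (G := X + C (eval (x i0) (Ph f₀ (x s))))
      (fun i => (X + C (eval (x i) (Ph f₀ (x s))) : k₁[X])) I (fun i _ => X_add_C_ne_zero _)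
    have h3 := congrArg (vG (X + C (eval (x i0) (Ph f₀ (x s))))) hb
    rw [vG_mul (C_ne_zero.2 hκ0) n1, vG_C hirr hκ0, zero_add, n2, vG_pow,
      Finset.sum_congr rfl fun i _ => vG_lin _ _, Finset.sum_eq_single i0, if_pos rfl] at h3
    · omega
    · intro i hi hne'
      rw [if_neg]
      exact hG.dif s i0 i (hIs i0 hi0) (hIs i hi) (Ne.symm hne')
    · exact fun h4 => absurd hi0 h4
  refine ⟨?_, hI0⟩
  by_contra hne
  rw [hκ, hI0, Finset.prod_empty, Finset.prod_empty, mul_one, mul_one] at hb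
  have hb0 : b.natDegree = 0 := by
    have h3 := congrArg natDegree hb
    rw [natDegree_C, natDegree_pow] at h3
    omega
  rw [eq_C_of_natDegree_eq_zero hb0, ← C_pow] at hb
  exact hG.sq s U (fun h4 => hUs s h4 rfl) hne _ (C_injective hb)

theorem uni_Q (hf : f₀.Monic) (hn : 1 < f₀.natDegree) (hG : GenPt f₀ x) {s : ι} {l : List ι}
    (hs : s ∉ l) (I : Finset ι) (hI : I ⊆ l.toFinset) (hne : I ≠ ∅) (w : k[X]) :
    ¬ ff (Ph f₀ (x s)) k ∣ C (∏ i ∈ I, (cU k f₀ x i - cU k f₀ x s)) - w ^ 2 := by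
  intro hd
  have hIs : ∀ i ∈ I, i ≠ s := fun i hi h0 => hs (h0 ▸ List.mem_toFinset.1 (hI hi))
  set Φ := Ph f₀ (x s) with hΦ
  let L := FractionRing k₁[X]
  let φ : k₁[X] →+* L := (algebraMap k₁[X] L).comp (compRingHom (-Φ))
  have hφ : ∀ p, φ p = algebraMap k₁[X] L (p.comp (-Φ)) := fun p => rfl
  have hΦd : 0 < Φ.natDegree := by
    have : Φ.natDegree + 1 = f₀.natDegree := Ph_deg hf (by omega) (x s)
    omega
  have hinj : Function.Injective φ := by
    rw [injective_iff_map_eq_zero]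
    intro p hp
    rw [hφ] at hp
    have h5 : p.comp (-Φ) = 0 := IsFractionRing.injective k₁[X] L (by rw [hp, map_zero])
    rcases comp_eq_zero_iff.1 h5 with h6 | ⟨-, h6⟩
    · exact h6
    · exfalso
      have h7 := congrArg natDegree h6
      rw [natDegree_neg, natDegree_C] at h7
      omega
  let Ψ : k →+* L := IsFractionRing.lift hinj
  have hΨ : ∀ p, Ψ (algebraMap k₁[X] k p) = algebraMap k₁[X] L (p.comp (-Φ)) := fun p =>
    IsFractionRing.lift_algebraMap hinj p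
  let η : L := algebraMap k₁[X] L X
  have hroot : eval₂ Ψ η (ff Φ k) = 0 := by
    unfold ff
    rw [eval₂_add, eval₂_C, hΨ, X_comp, eval₂_map]
    have h1 : eval₂ (Ψ.comp (cst k₁ k)) η Φ = algebraMap k₁[X] L Φ := by
      have h3 : eval₂RingHom (Ψ.comp (cst k₁ k)) η = algebraMap k₁[X] L := by
        apply Polynomial.ringHom_ext
        · intro a
          rw [coe_eval₂RingHom, eval₂_C]
          show Ψ (algebraMap k₁[X] k (C a)) = _
          rw [hΨ, C_comp]
        · rw [coe_eval₂RingHom, eval₂_X]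
      exact congrArg (fun f : k₁[X] →+* L => f Φ) h3
    rw [h1, map_neg, add_neg_cancel]
  have h1 : eval₂ Ψ η (C (∏ i ∈ I, (cU k f₀ x i - cU k f₀ x s)) - w ^ 2) = 0 := by
    obtain ⟨v, hv⟩ := hd
    rw [hv, eval₂_mul, hroot, zero_mul]
  rw [eval₂_sub, eval₂_C, eval₂_pow, sub_eq_zero, prod_cU, hΨ] at h1
  obtain ⟨b, hb⟩ := sq_poly h1
  rw [mul_comp, C_comp, prod_comp] at hb
  obtain ⟨i0, hi0⟩ := Finset.nonempty_iff_ne_empty.2 hne
  have hκ0 : ∏ i ∈ I, (x i - x s) ≠ 0 := Finset.prod_ne_zero_iff.2 fun i hi =>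
    sub_ne_zero.2 (hG.ne s i (hIs i hi))
  have e1 : ∀ i, (X + C (eval (x i) Φ) : k₁[X]).comp (-Φ) = -Φ + C (eval (x i) Φ) := fun i => by
    rw [add_comp, X_comp, C_comp]
  have hne1 : ∀ i ∈ I, (X + C (eval (x i) Φ) : k₁[X]).comp (-Φ) ≠ 0 := by
    intro i _ h0
    rw [e1] at h0
    have h3 : Φ = C (eval (x i) Φ) := by linear_combination -h0
    have h4 := congrArg natDegree h3
    rw [natDegree_C] at h4
    omega
  obtain ⟨n1, n2⟩ := vG_fprod (G := X - C (x i0))
    (fun i => (X + C (eval (x i) Φ) : k₁[X]).comp (-Φ)) I hne1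
  have h3 := congrArg (vG (X - C (x i0))) hb
  rw [vG_mul (C_ne_zero.2 hκ0) n1, vG_C (irreducible_X_sub_C _) hκ0, zero_add, n2, vG_pow,
    Finset.sum_eq_single i0] at h3
  · have h4 : vG (X - C (x i0)) (-Φ + C (eval (x i0) Φ)) = 1 := by
      refine vG_simple ?_ ?_
      · rw [eval_add, eval_neg, eval_C]
        ring
      · rw [derivative_add, derivative_neg, derivative_C, add_zero, eval_neg]
        exact neg_ne_zero.2 (hG.val s i0 (hIs i0 hi0))
    rw [e1, h4] at h3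
    omega
  · intro i hi hne'
    rw [e1, vG_zero]
    rw [dvd_iff_isRoot, IsRoot.def, eval_add, eval_neg, eval_C, neg_add_eq_sub, sub_eq_zero]
    exact hG.dif s i i0 (hIs i hi) (hIs i0 hi0) hne'
  · exact fun h4 => absurd hi0 h4

theorem uni_sep (hf : f₀.Monic) (hn : 1 < f₀.natDegree) (hG : GenPt f₀ x) (s : ι) :
    (gU k f₀ - C (cU k f₀ x s)).Separable := by
  rw [gU_fac]
  refine Separable.mul separable_X_sub_C ?_ ?_
  · rw [separable_iff_derivative_ne_zero (q_irr hf hn s)]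
    unfold ff
    rw [derivative_add, derivative_C, add_zero, derivative_map]
    exact (Polynomial.map_ne_zero_iff (cst k₁ k).injective).2 (hG.der s)
  · rw [(irreducible_X_sub_C _).coprime_iff_not_dvd, dvd_iff_isRoot, IsRoot.def]
    unfold ff
    rw [eval_add, eval_C, eval_map, eval₂_at_apply]
    intro h0
    have h1 : algebraMap k₁[X] k (X + C (eval (x s) (Ph f₀ (x s)))) = 0 := by
      rw [map_add]
      rw [add_comm] at h0
      exact h0
    exact X_add_C_ne_zero _ (cst_inj (h1.trans (map_zero _).symm))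

/-- The conditions hold for the family. -/
theorem uni_good (hf : f₀.Monic) (hn : 1 < f₀.natDegree) (hodd : Odd f₀.natDegree)
    (hG : GenPt f₀ x) : ∀ l : List ι, l.Nodup → GoodL (gU k f₀) (l.map (cU k f₀ x)) := by
  intro l
  induction l with
  | nil => intro _; exact trivial
  | cons s l ih =>
    intro hnd
    obtain ⟨hs, hnd'⟩ := List.nodup_cons.1 hnd
    have hgm : (gU k f₀).Monic := gU_monic hf hn
    have hgo : Odd (gU k f₀).natDegree := by
      rw [gU_deg hf hn]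
      exact hodd
    have hF : ∀ i, Fac (gU k f₀) (cU k f₀ x) (fun _ => True) (fun i => cst k₁ k (x i))
        (fun i => ff (Ph f₀ (x i)) k) i := fun i =>
      ⟨fun _ => gU_fac i, fun h => absurd trivial h, q_irr hf hn i⟩
    exact ⟨step_pt hgm hgo trivial (hF s) (fun i _ => hF i) (uni_sep hf hn hG s) hnd'
      (fun U I hU _ hI w h => uni_A hG hs U I hU hI w h)
      (fun I hI hne w => uni_Q hf hn hG hs I hI hne w), ih hnd'⟩

end uni

end Pool.Agent.Q45.TW
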