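import Pool.Agent.Q45.TW.Der
import Pool.Agent.Q45.TW.Nm
import Pool.Agent.Y494.FT.Kum

/-!
# The towers are Dedekind domains; the pair of towers
-/

set_option autoImplicit false
set_option linter.all false

open Polynomial IsDedekindDomain WithZero
open scoped Classical

namespace Pool.Agent.Q45.TW

open Pool.Agent.Q45.GP (Regular)

theorem prim {k : Type} [Field k] (h2 : (2 : k) ≠ 0) : IsPrimitiveRoot (-1 : k) 2 := by
  refine ⟨by norm_num, fun l hl => ?_⟩
  rcases Nat.even_or_odd l with h | h
  · exact h.two_dvd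
  · exfalso
    rw [h.neg_one_pow] at hl
    apply h2
    linear_combination -hl

/-- The tower is a Dedekind domain. -/
theorem exists_ded {k : Type} [Field k] (h2 : (2 : k) ≠ 0) (h : k[X])
    (hu : ∀ c, ¬ IsUnit (h + C c)) (cs : List k) (hnd : cs.Nodup)
    (hsep : ∀ c ∈ cs, (h + C c).Separable) :
    ∃ (R : Type) (_ : CommRing R) (_ : IsDedekindDomain R) (_ : Algebra k[X] R) (y : k → R),
      IsTw (fun c => h + C c) cs R y := by
  induction cs with
  | nil => exact ⟨k[X], inferInstance, inferInstance, inferInstance, fun _ => 0, IsTw.nil _ _⟩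
  | cons c cs ih =>
    obtain ⟨hc, hnd'⟩ := List.nodup_cons.1 hnd
    obtain ⟨R, i1, i2, i3, y, H⟩ := ih hnd' fun c' hc' => hsep c' (List.mem_cons_of_mem c hc')
    letI : Algebra k R := ((algebraMap k[X] R).comp C).toAlgebra
    obtain ⟨hD, -⟩ := Pool.Agent.Y494.FT.stKum 2 k R (-1) (algebraMap k[X] R (h + C c)) (by norm_num)
      (prim h2) (val_pi h2 H hc (hsep c List.mem_cons_self))
      (exists_pi h2 H hc (hsep c List.mem_cons_self) (hu c))
    exact ⟨_, inferInstance, hD, inferInstance, _, H.step c hc⟩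

section pair

variable {k : Type} [Field k] {g : k[X]} {cs : List k} {A : Type} [CommRing A] [Algebra k[X] A]
  {yA : k → A}

/-- The constants. -/
noncomputable def cst (k A : Type) [Field k] [CommRing A] [Algebra k[X] A] : k →+* A :=
  (algebraMap k[X] A).comp C

/-- The polynomial `g(x) + t`. -/
noncomputable def ff (g : k[X]) (A : Type) [CommRing A] [Algebra k[X] A] : A[X] :=
  g.map (cst k A) + C (algebraMap k[X] A X)

theorem ff_monic (hg : g.Monic) (hg0 : 0 < g.natDegree) : (ff g A).Monic := by
  nontriviality A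
  refine (hg.map _).add_of_left ?_
  refine lt_of_le_of_lt degree_C_le ?_
  rw [degree_eq_natDegree (hg.map _).ne_zero, hg.natDegree_map]
  exact_mod_cast hg0

theorem ff_natDegree [Nontrivial A] (hg : g.Monic) (hg0 : 0 < g.natDegree) :
    (ff g A).natDegree = g.natDegree := by
  unfold ff
  rw [natDegree_add_C, hg.natDegree_map]

theorem ff_map {B : Type} [CommRing B] [Algebra k[X] B] (φ : A →+* B)
    (hφ : ∀ p, φ (algebraMap k[X] A p) = algebraMap k[X] B p) : (ff g A).map φ = ff g B := by
  unfold ff
  rw [Polynomial.map_add, Polynomial.map_map, map_C, hφ]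
  congr 2
  exact RingHom.ext fun x => hφ (C x)

/-- Regularity. -/
theorem regular [IsDedekindDomain A] {K : Type} [Field K] [Algebra A K] [IsFractionRing A K]
    (h2 : (2 : k) ≠ 0) (H : IsTw (fun c => X + C c) cs A yA)
    (hsep : ∀ c ∈ cs, (g - C c).Separable) : Regular K (ff g A) := by
  obtain ⟨D, hD⟩ := exists_der h2 H
  refine regular_of D (ff g A) ?_
  have hdc : dc D (ff g A) = C ((cs.map yA).prod) := by
    ext n
    rw [coeff_dc]
    unfold ff
    rw [coeff_add, coeff_map, coeff_C, coeff_C]
    have h1 : D (cst k A (g.coeff n)) = 0 := by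
      show D (algebraMap k[X] A (C (g.coeff n))) = 0
      rw [hD, derivative_C, map_zero, zero_mul]
    split_ifs with h0
    · rw [map_add, h1, hD, derivative_X, map_one, one_mul, zero_add]
    · rw [add_zero, h1]
  rw [hdc]
  by_contra hne
  obtain ⟨M, hM, hle⟩ := Ideal.exists_le_maximal _ hne
  haveI := hM.isPrime
  have m1 : ff g A ∈ M := hle (Ideal.subset_span (by simp))
  have m2 : derivative (ff g A) ∈ M := hle (Ideal.subset_span (by simp))
  have m3 : C ((cs.map yA).prod) ∈ M := hle (Ideal.subset_span (by simp))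
  obtain ⟨c, hc, m4⟩ : ∃ c ∈ cs, yA c ∈ M.comap (C : A →+* A[X]) := by
    by_contra hcon
    push Not at hcon
    exact prod_notMem (I := M.comap C) (Ideal.comap_isPrime _ _) cs hcon m3
  have m5 : C (algebraMap k[X] A (X + C c)) ∈ M := by
    rw [← H.sq c hc, C_pow]
    exact M.pow_mem_of_mem m4 2 (by norm_num)
  have m6 : (g - C c).map (cst k A) ∈ M := by
    have h3 : (g - C c).map (cst k A) = ff g A - C (algebraMap k[X] A (X + C c)) := by
      unfold ff
      rw [Polynomial.map_sub, map_C, map_add, C_add]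
      show _ = g.map (cst k A) + C (algebraMap k[X] A X) - (C (algebraMap k[X] A X) + C (cst k A c))
      ring
    rw [h3]
    exact M.sub_mem m1 m5
  have m7 : (derivative (g - C c)).map (cst k A) ∈ M := by
    have h3 : (derivative (g - C c)).map (cst k A) = derivative (ff g A) := by
      unfold ff
      rw [derivative_add, derivative_C, add_zero, derivative_map, derivative_sub, derivative_C,
        sub_zero]
    rw [h3]
    exact m2
  obtain ⟨a, b, hab⟩ := hsep c hc
  have m8 : (a * (g - C c) + b * derivative (g - C c)).map (cst k A) ∈ M := by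
    rw [Polynomial.map_add, Polynomial.map_mul, Polynomial.map_mul]
    exact M.add_mem (M.mul_mem_left _ m6) (M.mul_mem_left _ m7)
  rw [hab, Polynomial.map_one] at m8
  exact hM.ne_top ((Ideal.eq_top_iff_one M).2 m8)

theorem eval₂_ff {B : Type} [CommRing B] (φ : A →+* B) (b : B) :
    eval₂ φ b (ff g A) = eval₂ (φ.comp (cst k A)) b g + φ (algebraMap k[X] A X) := by
  unfold ff
  rw [eval₂_add, eval₂_map, eval₂_C]

variable {R : Type} [CommRing R] [Algebra k[X] R] {yR : k → R}

/-- The ring `R` is `A[x] / (g(x) + t)`. -/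
theorem pair (HA : IsTw (fun c => X + C c) cs A yA) (HR : IsTw (fun c => -g + C c) cs R yR) :
    ∃ (α : A →+* R) (e : AdjoinRoot (ff g A) ≃+* R),
      (∀ p, α (algebraMap k[X] A p) = algebraMap k[X] R (p.comp (-g))) ∧
      (∀ c ∈ cs, α (yA c) = yR c) ∧ (∀ x, e (AdjoinRoot.of _ x) = α x) ∧
      e (AdjoinRoot.root _) = algebraMap k[X] R X := by
  have hroot : eval₂ (AdjoinRoot.of (ff g A)) (AdjoinRoot.root _) (ff g A) = 0 :=
    AdjoinRoot.eval₂_root _
  rw [eval₂_ff] at hroot
  -- the homomorphism `A → R`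
  obtain ⟨α, hα1, hα2⟩ := HA.lift R ((algebraMap k[X] R).comp (compRingHom (-g))) yR (fun c hc => by
    rw [HR.sq c hc]
    show algebraMap k[X] R (-g + C c) = algebraMap k[X] R ((X + C c).comp (-g))
    rw [add_comp, X_comp, C_comp])
  have hα1' : ∀ p, α (algebraMap k[X] A p) = algebraMap k[X] R (p.comp (-g)) := fun p => hα1 p
  have hαc : α.comp (cst k A) = cst k R := RingHom.ext fun x => by
    show α (algebraMap k[X] A (C x)) = algebraMap k[X] R (C x)
    rw [hα1', C_comp]
  have hevR : ∀ p : k[X], eval₂ (cst k R) (algebraMap k[X] R X) p = algebraMap k[X] R p := by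
    intro p
    have h1 : eval₂RingHom (cst k R) (algebraMap k[X] R X) = algebraMap k[X] R := by
      apply Polynomial.ringHom_ext
      · intro a
        rw [coe_eval₂RingHom, eval₂_C]
        rfl
      · rw [coe_eval₂RingHom, eval₂_X]
    exact congrArg (fun f : k[X] →+* R => f p) h1
  -- the homomorphism `A[x] / (g(x) + t) → R`
  let γ : AdjoinRoot (ff g A) →+* R := AdjoinRoot.lift α (algebraMap k[X] R X) (by
    rw [eval₂_ff, hαc, hevR, hα1', X_comp, ← map_add, add_neg_cancel, map_zero])
  -- the homomorphism in the other direction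
  let φ : k[X] →+* AdjoinRoot (ff g A) :=
    eval₂RingHom ((AdjoinRoot.of (ff g A)).comp (cst k A)) (AdjoinRoot.root _)
  have hφ : ∀ p, φ p = eval₂ ((AdjoinRoot.of (ff g A)).comp (cst k A)) (AdjoinRoot.root _) p :=
    fun p => rfl
  obtain ⟨β, hβ1, hβ2⟩ := HR.lift (AdjoinRoot (ff g A)) φ (fun c => AdjoinRoot.of _ (yA c))
    (fun c hc => by
      rw [← map_pow, HA.sq c hc, map_add, map_add, map_add, map_neg, hφ, hφ, eval₂_C]
      show AdjoinRoot.of _ (algebraMap k[X] A X) + AdjoinRoot.of _ (cst k A c) = _ +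
        AdjoinRoot.of _ (cst k A c)
      linear_combination hroot)
  have hβγ : β.comp γ = RingHom.id _ := by
    refine AdjoinRoot.ringHom_ext ?_ ?_
    · refine HA.hom_ext (fun p => ?_) fun c hc => ?_
      · show β (γ (AdjoinRoot.of _ (algebraMap k[X] A p))) = AdjoinRoot.of _ (algebraMap k[X] A p)
        rw [AdjoinRoot.lift_of, hα1', hβ1]
        have h1 : φ.comp (compRingHom (-g)) = (AdjoinRoot.of (ff g A)).comp (algebraMap k[X] A) := by
          apply Polynomial.ringHom_ext
          · intro a
            show φ ((C a).comp (-g)) = _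
            rw [C_comp, hφ, eval₂_C]
            rfl
          · show φ (X.comp (-g)) = AdjoinRoot.of _ (algebraMap k[X] A X)
            rw [X_comp, map_neg, hφ]
            linear_combination -hroot
        exact congrArg (fun f : k[X] →+* AdjoinRoot (ff g A) => f p) h1
      · show β (γ (AdjoinRoot.of _ (yA c))) = AdjoinRoot.of _ (yA c)
        rw [AdjoinRoot.lift_of, hα2 c hc, hβ2 c hc]
    · show β (γ (AdjoinRoot.root _)) = AdjoinRoot.root _
      rw [AdjoinRoot.lift_root, hβ1, hφ, eval₂_X]
  have hγβ : γ.comp β = RingHom.id _ := by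
    refine HR.hom_ext (fun p => ?_) fun c hc => ?_
    · show γ (β (algebraMap k[X] R p)) = algebraMap k[X] R p
      rw [hβ1, hφ, hom_eval₂]
      have h1 : γ.comp ((AdjoinRoot.of (ff g A)).comp (cst k A)) = cst k R := by
        rw [← hαc]
        refine RingHom.ext fun x => ?_
        show γ (AdjoinRoot.of (ff g A) (cst k A x)) = α (cst k A x)
        rw [AdjoinRoot.lift_of]
      rw [h1]
      show eval₂ (cst k R) (γ (AdjoinRoot.root _)) p = _
      rw [AdjoinRoot.lift_root, hevR]
    · show γ (β (yR c)) = yR c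
      rw [hβ2 c hc, AdjoinRoot.lift_of, hα2 c hc]
  refine ⟨α, RingEquiv.ofRingHom γ β hγβ hβγ, hα1', hα2, fun x => ?_, ?_⟩
  · show γ (AdjoinRoot.of (ff g A) x) = α x
    rw [AdjoinRoot.lift_of]
  · show γ (AdjoinRoot.root (ff g A)) = _
    rw [AdjoinRoot.lift_root]

/-- The polynomial `g(x) + t` is irreducible. -/
theorem irr [IsDedekindDomain A] [IsDomain R] {K : Type} [Field K] [Algebra A K]
    [IsFractionRing A K] (hg : g.Monic) (hg0 : 0 < g.natDegree)
    (HA : IsTw (fun c => X + C c) cs A yA) (HR : IsTw (fun c => -g + C c) cs R yR) :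
    Irreducible ((ff g A).map (algebraMap A K)) := by
  obtain ⟨α, e, -⟩ := pair HA HR
  haveI : IsDomain (AdjoinRoot (ff g A)) := e.toMulEquiv.isDomain_iff.2 inferInstance
  have h1 : (Ideal.span {ff g A}).IsPrime := (Ideal.Quotient.isDomain_iff_prime _).1
    (inferInstance : IsDomain (AdjoinRoot (ff g A)))
  have h3 : Prime (ff g A) := (Ideal.span_singleton_prime (ff_monic hg hg0).ne_zero).1 h1
  exact ((ff_monic hg hg0).irreducible_iff_irreducible_map_fraction_map).1 h3.irreducible

end pair

end Pool.Agent.Q45.TW
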