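import Pool.Agent.Q45.TW.Main
import Pool.Agent.TH115.TC.Crit

/-!
# The Tate conjecture over the base curve
-/

set_option autoImplicit false
set_option linter.all false

open Polynomial IsDedekindDomain WithZero UniqueFactorizationMonoid
open scoped Classical

namespace Pool.Agent.Q45.TW

open Pool.Agent.Y160.SE (IsPw)
open Pool.Agent.Q45.GP (Regular TateOver)
open Pool.Agent.Y160.SQ
open Pool.Agent.Y160.RK (ptCl)

/-- The field `F` is the extension of `K` by the constants `k'`. -/
structure IsGeom (k k' K F : Type) [Field k] [Field k'] [Algebra k k'] [Field K] [Algebra k[X] K]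
    [Field F] [Algebra k'[X] F] [Algebra K F] : Prop where
  inj : Function.Injective (algebraMap k'[X] F)
  comp : ∀ p : k[X], algebraMap K F (algebraMap k[X] K p) =
    algebraMap k'[X] F (p.map (algebraMap k k'))
  gen : IntermediateField.adjoin K (Set.range ((algebraMap k'[X] F).comp C)) = ⊤

section tat

variable {k k' : Type} [Field k] [Field k'] [Algebra k k'] {g : k[X]} {cs : List k}
  {K F : Type} [Field K] [Algebra k[X] K] {y : k → K} [Field F] [Algebra k'[X] F] [Algebra K F]

/-- The square roots in `F`. -/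
noncomputable def yF (k' F : Type) [Field k'] [Algebra k k'] [Field F] [Algebra K F] (y : k → K) :
    k' → F := Function.extend (algebraMap k k') (fun c => algebraMap K F (y c)) 0

theorem yF_map (c : k) : yF k' F y (algebraMap k k' c) = algebraMap K F (y c) :=
  (algebraMap k k').injective.extend_apply _ _ c

theorem base_up (hB : IsBase k cs K y) (hF : IsGeom k k' K F) :
    IsBase k' (cs.map (algebraMap k k')) F (yF k' F y) := by
  refine ⟨hF.inj, fun c hc => ?_, ?_⟩
  · obtain ⟨c, hc', rfl⟩ := List.mem_map.1 hc
    rw [yF_map, ← map_pow, hB.sq c hc', hF.comp, Polynomial.map_add, map_X, map_C]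
  · set S := Subfield.closure (Set.range (algebraMap k'[X] F) ∪
      yF k' F y '' {c | c ∈ cs.map (algebraMap k k')}) with hS
    have h1 : ∀ x : K, algebraMap K F x ∈ S := by
      intro x
      have h3 : (⊤ : Subfield K) ≤ S.comap (algebraMap K F) := by
        rw [← hB.gen, Subfield.closure_le]
        rintro x (⟨p, rfl⟩ | ⟨c, hc, rfl⟩)
        · show algebraMap K F (algebraMap k[X] K p) ∈ S
          rw [hF.comp]
          exact Subfield.subset_closure (Or.inl ⟨_, rfl⟩)
        · show algebraMap K F (y c) ∈ S
          rw [← yF_map (k' := k')]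
          exact Subfield.subset_closure (Or.inr ⟨_, List.mem_map_of_mem hc, rfl⟩)
      exact h3 (Subfield.mem_top x)
    rw [eq_top_iff]
    rintro x -
    have hx : x ∈ IntermediateField.adjoin K (Set.range ((algebraMap k'[X] F).comp C)) := by
      rw [hF.gen]
      trivial
    refine IntermediateField.adjoin_induction K (p := fun x _ => x ∈ S) ?_ ?_ ?_ ?_ ?_ hx
    · rintro _ ⟨c, rfl⟩
      exact Subfield.subset_closure (Or.inl ⟨_, rfl⟩)
    · exact h1
    · intro x y _ _ hx hy
      exact add_mem hx hy
    · intro x _ hx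
      exact inv_mem hx
    · intro x y _ _ hx hy
      exact mul_mem hx hy

/-- **The Tate conjecture.** -/
theorem tate [IsGalois k k'] (h2 : (2 : k) ≠ 0) (hg : g.Monic) (hodd : Odd g.natDegree)
    (hd : derivative g ≠ 0) (hG : GoodL g cs) (hB : IsBase k cs K y) (hF : IsGeom k k' K F)
    {A A' : Type} [CommRing A] [IsDedekindDomain A] [Algebra A K] [IsFractionRing A K]
    [Algebra k[X] A] [IsScalarTower k[X] A K] [IsIntegralClosure A k[X] K]
    [CommRing A'] [IsDedekindDomain A'] [Algebra A' F] [IsFractionRing A' F]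
    [Algebra k'[X] A'] [IsScalarTower k'[X] A' F] [IsIntegralClosure A' k'[X] F] :
    TateOver (F := F) 2 2 A' (ff g K) := by
  obtain ⟨R, L, i1, i2, i4, i5, i6, i7, i8, θ, yA, hint, HA, hyA, hcomp, hff, hirr, hsep, hθ, htop,
    hP, hpts, -⟩ := allData (A := A) h2 hg hodd hd hG hB
  have hgd := good h2 hg hodd hB.inj hsep
  haveI := hint
  set j := algebraMap k k' with hj
  have h2' : (2 : k') ≠ 0 := by
    have h3 : (2 : k') = j 2 := by rw [map_ofNat]
    rw [h3]
    exact (_root_.map_ne_zero _).2 h2
  have hg' : (g.map j).Monic := hg.map _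
  have hodd' : Odd (g.map j).natDegree := by rwa [hg.natDegree_map]
  have hsep' : ∀ c ∈ cs.map j, (g.map j - C c).Separable := by
    intro c hc
    obtain ⟨c, hc', rfl⟩ := List.mem_map.1 hc
    have h3 := (hG.sep c hc').map (f := j)
    rwa [Polynomial.map_sub, map_C] at h3
  have hnd : (cs.map j).Nodup := hG.nodup.map j.injective
  -- the towers over `k'`
  obtain ⟨A₀, a1, a2, a3, y₀, H₀⟩ := exists_ded h2' X (fun c => not_isUnit_X_add_C c) (cs.map j)
    hnd (fun c _ => separable_X_add_C c)
  obtain ⟨R', r1, r2, r3, yR', HR'⟩ := exists_ded h2' (-(g.map j)) (not_unit' hg' hodd'.pos)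
    (cs.map j) hnd (fun c hc => by
      have h1 : (-(g.map j) + C c : k'[X]) = -(g.map j - C c) := by ring
      rw [h1]
      obtain ⟨a, b, hab⟩ := hsep' c hc
      exact ⟨-a, -b, by rw [derivative_neg]; linear_combination hab⟩)
  have hBF := base_up hB hF
  obtain ⟨l1, l2, l3, hy₀⟩ := IsBase.frac H₀ hBF
  obtain ⟨e, he1, he2⟩ := IsBase.equiv (K := F) H₀ (A := A')
  have HA' := H₀.equiv e he1
  -- the map `A → A'`
  obtain ⟨ψ, hψ1, hψ2⟩ := HA.lift A' ((algebraMap k'[X] A').comp (mapRingHom j))
    (fun c => e (y₀ (j c))) (fun c hc => by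
      have h3 := HA'.sq (j c) (List.mem_map_of_mem hc)
      show e (y₀ (j c)) ^ 2 = algebraMap k'[X] A' ((X + C c).map j)
      rw [Polynomial.map_add, map_X, map_C]
      exact h3)
  have hAF : ∀ a : A, algebraMap K F (algebraMap A K a) = algebraMap A' F (ψ a) := by
    have h1 : (algebraMap K F).comp (algebraMap A K) = (algebraMap A' F).comp ψ := by
      refine HA.hom_ext (fun p => ?_) fun c hc => ?_
      · show algebraMap K F (algebraMap A K (algebraMap k[X] A p)) =
          algebraMap A' F (ψ (algebraMap k[X] A p))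
        rw [hψ1, ← IsScalarTower.algebraMap_apply k[X] A K, hF.comp]
        exact IsScalarTower.algebraMap_apply k'[X] A' F _
      · show algebraMap K F (algebraMap A K (yA c)) = algebraMap A' F (ψ (yA c))
        rw [hψ2 c hc, he2, hy₀ (j c) (List.mem_map_of_mem hc), yF_map, hyA c hc]
    exact fun a => congrArg (fun f : A →+* F => f a) h1
  letI : Algebra A A' := ψ.toAlgebra
  haveI : Algebra.IsIntegral A A' := by
    have h1 : (algebraMap k'[X] A').IsIntegral := by
      haveI := HA'.integral
      exact fun x => Algebra.IsIntegral.isIntegral (R := k'[X]) x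
    have h3 : ((algebraMap k'[X] A').comp (mapRingHom j)).IsIntegral :=
      RingHom.IsIntegral.trans _ _ Pool.Agent.TH115.GD.poly_integral h1
    have h4 : (algebraMap k'[X] A').comp (mapRingHom j) = ψ.comp (algebraMap k[X] A) :=
      RingHom.ext fun p => (hψ1 p).symm
    rw [h4] at h3
    exact ⟨RingHom.IsIntegral.tower_top _ _ h3⟩
  letI : Algebra k K := ((algebraMap k[X] K).comp C).toAlgebra
  letI : Algebra k' F := ((algebraMap k'[X] F).comp C).toAlgebra
  letI : Algebra k F := ((algebraMap k' F).comp j).toAlgebra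
  haveI : IsScalarTower k k' F := IsScalarTower.of_algebraMap_eq fun x => rfl
  haveI : IsScalarTower k K F := IsScalarTower.of_algebraMap_eq fun x => by
    show algebraMap k'[X] F (C (j x)) = algebraMap K F (algebraMap k[X] K (C x))
    rw [hF.comp, map_C]
  letI : Algebra k' A' := ((algebraMap k'[X] A').comp C).toAlgebra
  haveI : IsScalarTower k' A' F := IsScalarTower.of_algebraMap_eq fun x =>
    IsScalarTower.algebraMap_apply k'[X] A' F (C x)
  have hfA : (ff (g.map j) A').map (algebraMap A' F) = (ff g K).map (algebraMap K F) := by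
    rw [ff_map (algebraMap A' F) (fun p => (IsScalarTower.algebraMap_apply k'[X] A' F p).symm)]
    unfold ff
    rw [Polynomial.map_add, map_C, hF.comp, map_X, Polynomial.map_map, Polynomial.map_map]
    congr 2
    refine RingHom.ext fun x => ?_
    show algebraMap k'[X] F (C (j x)) = algebraMap K F (algebraMap k[X] K (C x))
    rw [hF.comp, map_C]
  exact Pool.Agent.Q45.GP.tateC k (R := R) (A := A) (p := 2) (m := 1) (ℓ := 2) Nat.prime_two
    (by norm_num) hF.gen hAF hcomp hfA hgd (ff_monic hg' hodd'.pos)
    (regular (K := F) h2' HA' hsep') hirr (by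
      rw [← hfA]
      exact irr hg' hodd'.pos HA' HR') hθ htop (Pts g cs y) hP hpts

end tat

end Pool.Agent.Q45.TW
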