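import Pool.Agent.Y228.SE.Sm
import Pool.Agent.Q45.GS.Par

/-!
# Regularity from a derivation
-/

set_option autoImplicit false
set_option linter.all false

open Polynomial IsDedekindDomain WithZero

namespace Pool.Agent.Q45.TW

open Pool.Agent.Y228.SE (approx_poly mem_sq_of_dvd)
open Pool.Agent.Q45.GP (Regular)

/-- The derivation `D` applied to the coefficients. -/
noncomputable def dc {A : Type} [CommRing A] (D : Derivation ℤ A A) (f : A[X]) : A[X] :=
  f.sum fun i a => C (D a) * X ^ i

section dc

variable {A : Type} [CommRing A] (D : Derivation ℤ A A)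

theorem coeff_dc (f : A[X]) (n : ℕ) : (dc D f).coeff n = D (f.coeff n) := by
  rw [dc, Polynomial.sum_def, finset_sum_coeff]
  simp only [coeff_C_mul, coeff_X_pow]
  simp only [mul_ite, mul_one, mul_zero]
  rw [Finset.sum_ite_eq]
  split_ifs with h
  · rfl
  · rw [notMem_support_iff.1 h, map_zero]

theorem dc_add (f g : A[X]) : dc D (f + g) = dc D f + dc D g := by
  ext1 n
  rw [coeff_add, coeff_dc, coeff_dc, coeff_dc, coeff_add, map_add]

theorem dc_mul (f g : A[X]) : dc D (f * g) = dc D f * g + f * dc D g := by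
  ext1 n
  rw [coeff_add, coeff_dc, coeff_mul, coeff_mul, coeff_mul, map_sum,
    ← Finset.sum_add_distrib]
  refine Finset.sum_congr rfl fun x _ => ?_
  rw [coeff_dc, coeff_dc, Derivation.leibniz, smul_eq_mul, smul_eq_mul]
  ring

end dc

theorem regular_of {A F : Type} [CommRing A] [IsDedekindDomain A] [Field F] [Algebra A F]
    [IsFractionRing A F] (D : Derivation ℤ A A) (f : A[X])
    (hf : Ideal.span {f, derivative f, dc D f} = ⊤) : Regular F f := by
  intro v a ha hirr hmem
  obtain ⟨π, hπ⟩ := v.intValuation_exists_uniformizer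
  set φ : A[X] →+* (v.adicCompletionIntegers F)[X] := mapRingHom (algebraMap A (v.adicCompletionIntegers F)) with hφ
  set J : Ideal (v.adicCompletionIntegers F)[X] := Ideal.span {a} ⊔ (IsLocalRing.maximalIdeal (v.adicCompletionIntegers F)).map C with hJ
  set J0 : Ideal A[X] := J.comap φ with hJ0
  have hvm : ∀ c ∈ v.asIdeal, algebraMap A (v.adicCompletionIntegers F) c ∈ IsLocalRing.maximalIdeal (v.adicCompletionIntegers F) := by
    intro c hc
    rw [IsLocalRing.mem_maximalIdeal, mem_nonunits_iff,
      HeightOneSpectrum.adicCompletionIntegers.isUnit_iff_valued_eq_one]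
    change ¬ Valued.v ((algebraMap A F c : F) : v.adicCompletion F) = 1
    rw [HeightOneSpectrum.valuedAdicCompletion_eq_valuation']
    exact ((v.valuation_lt_one_iff_mem c).2 hc).ne
  have hπv : π ∈ v.asIdeal := by
    rw [← v.intValuation_lt_one_iff_mem, hπ, ← exp_zero]
    exact exp_lt_exp.2 (by norm_num)
  have hCJ : ∀ m ∈ IsLocalRing.maximalIdeal (v.adicCompletionIntegers F), C m ∈ J := fun m hm =>
    Ideal.mem_sup_right (Ideal.mem_map_of_mem C hm)
  have hCπ : C (algebraMap A (v.adicCompletionIntegers F) π ^ 2) ∈ J := by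
    refine hCJ _ ?_
    exact Ideal.pow_mem_of_mem _ (hvm π hπv) 2 (by norm_num)
  have hC0 : v.asIdeal.map C ≤ J0 := by
    rw [Ideal.map_le_iff_le_comap]
    intro c hc
    rw [Ideal.mem_comap, hJ0, Ideal.mem_comap]
    have : φ (C c) = C (algebraMap A (v.adicCompletionIntegers F) c) := by rw [hφ, coe_mapRingHom, map_C]
    rw [this]
    exact hCJ _ (hvm c hc)
  -- approximation of the elements of `J ^ 2`
  have key : ∀ w ∈ J ^ 2, ∃ w0 ∈ J0 ^ 2, ∃ h : (v.adicCompletionIntegers F)[X], w = φ w0 + C (algebraMap A (v.adicCompletionIntegers F) π ^ 2) * h := by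
    intro w hw
    rw [pow_two] at hw
    refine Submodule.mul_induction_on hw ?_ ?_
    · intro m hm n hn
      obtain ⟨m0, m1, hm1⟩ := approx_poly (F := F) v π hπ m
      obtain ⟨n0, n1, hn1⟩ := approx_poly (F := F) v π hπ n
      have hm0 : m0 ∈ J0 := by
        rw [hJ0, Ideal.mem_comap]
        have : φ m0 = m - C (algebraMap A (v.adicCompletionIntegers F) π ^ 2) * m1 := by
          rw [hm1]
          change _ = φ m0 + _ - _
          ring
        rw [this]
        exact Ideal.sub_mem _ hm (Ideal.mul_mem_right _ _ hCπ)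
      have hn0 : n0 ∈ J0 := by
        rw [hJ0, Ideal.mem_comap]
        have : φ n0 = n - C (algebraMap A (v.adicCompletionIntegers F) π ^ 2) * n1 := by
          rw [hn1]
          change _ = φ n0 + _ - _
          ring
        rw [this]
        exact Ideal.sub_mem _ hn (Ideal.mul_mem_right _ _ hCπ)
      refine ⟨m0 * n0, ?_, φ m0 * n1 + m1 * φ n0 + C (algebraMap A (v.adicCompletionIntegers F) π ^ 2) * m1 * n1, ?_⟩
      · rw [pow_two]
        exact Ideal.mul_mem_mul hm0 hn0
      · have e1 : m = φ m0 + C (algebraMap A (v.adicCompletionIntegers F) π ^ 2) * m1 := hm1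
        have e2 : n = φ n0 + C (algebraMap A (v.adicCompletionIntegers F) π ^ 2) * n1 := hn1
        rw [map_mul]
        conv_lhs => rw [e1, e2]
        ring
    · rintro x y ⟨x0, hx0, x1, hx⟩ ⟨y0, hy0, y1, hy⟩
      refine ⟨x0 + y0, Ideal.add_mem _ hx0 hy0, x1 + y1, ?_⟩
      rw [map_add]
      linear_combination hx + hy
  obtain ⟨w0, hw0, h, hw⟩ := key _ hmem
  have hfw : f - w0 ∈ J0 ^ 2 := by
    have h1 : φ (f - w0) = C (algebraMap A (v.adicCompletionIntegers F) π ^ 2) * h := by
      rw [map_sub]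
      have : φ f = f.map (algebraMap A (v.adicCompletionIntegers F)) := rfl
      rw [this, hw]
      ring
    have h2 : f - w0 ∈ (v.asIdeal ^ 2).map C := by
      rw [Ideal.mem_map_C_iff]
      intro n
      refine mem_sq_of_dvd (F := F) v π hπ _ (h.coeff n) ?_
      have h3 := congrArg (fun p => coeff p n) h1
      simp only [coeff_C_mul] at h3
      rw [← h3, hφ, coe_mapRingHom, coeff_map]
    rw [Ideal.map_pow] at h2
    exact Ideal.pow_right_mono hC0 2 h2
  have hfJ : f ∈ J0 ^ 2 := by
    have := Ideal.add_mem _ hfw hw0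
    rwa [sub_add_cancel] at this
  have hd : ∀ w ∈ J0 ^ 2, w ∈ J0 ∧ derivative w ∈ J0 ∧ dc D w ∈ J0 := by
    intro w hw
    rw [pow_two] at hw
    refine Submodule.mul_induction_on hw ?_ ?_
    · intro m hm n hn
      refine ⟨Ideal.mul_mem_left _ _ hn, ?_, ?_⟩
      · rw [derivative_mul]
        exact Ideal.add_mem _ (Ideal.mul_mem_left _ _ hn) (Ideal.mul_mem_right _ _ hm)
      · rw [dc_mul]
        exact Ideal.add_mem _ (Ideal.mul_mem_left _ _ hn) (Ideal.mul_mem_right _ _ hm)
    · rintro x y ⟨h1, h2, h3⟩ ⟨h4, h5, h6⟩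
      refine ⟨Ideal.add_mem _ h1 h4, ?_, ?_⟩
      · rw [derivative_add]
        exact Ideal.add_mem _ h2 h5
      · rw [dc_add]
        exact Ideal.add_mem _ h3 h6
  obtain ⟨h1, h2, h3⟩ := hd f hfJ
  have htop : J0 = ⊤ := by
    rw [eq_top_iff, ← hf, Ideal.span_le]
    rintro x (rfl | rfl | rfl)
    · exact h1
    · exact h2
    · exact h3
  have hone : (1 : (v.adicCompletionIntegers F)[X]) ∈ J := by
    have : (1 : A[X]) ∈ J0 := by rw [htop]; trivial
    rw [hJ0, Ideal.mem_comap, map_one] at this
    exact this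
  have hle : J ≤ (Ideal.span {a.map (IsLocalRing.residue (v.adicCompletionIntegers F))}).comap
      (mapRingHom (IsLocalRing.residue (v.adicCompletionIntegers F))) := by
    rw [hJ, sup_le_iff]
    constructor
    · rw [Ideal.span_le, Set.singleton_subset_iff, SetLike.mem_coe, Ideal.mem_comap]
      exact Ideal.subset_span rfl
    · rw [Ideal.map_le_iff_le_comap]
      intro m hm
      rw [Ideal.mem_comap, Ideal.mem_comap, coe_mapRingHom, map_C,
        (IsLocalRing.residue_eq_zero_iff _).2 hm, C_0]
      exact Ideal.zero_mem _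
  have h4 := hle hone
  rw [Ideal.mem_comap, map_one, ← Ideal.eq_top_iff_one, Ideal.span_singleton_eq_top] at h4
  exact hirr.not_isUnit h4

end Pool.Agent.Q45.TW
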