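import Pool.Agent.Q45.TW.Stp

/-!
# The descent: the chain
-/

set_option autoImplicit false
set_option linter.all false

open Polynomial IsDedekindDomain WithZero
open scoped Classical

namespace Pool.Agent.Q45.TW

open Pool.Agent.Y160.FT (Kx)
open Pool.Agent.Y160.SE (IsPw)

/-- The conditions at all steps. -/
def GoodL {k : Type} [Field k] (g : k[X]) : List k → Prop
  | [] => True
  | c :: cs => StepC g cs c ∧ GoodL g cs

theorem GoodL.nodup {k : Type} [Field k] {g : k[X]} : ∀ {cs : List k}, GoodL g cs → cs.Nodup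
  | [], _ => List.nodup_nil
  | c :: cs, h => List.nodup_cons.2 ⟨h.1.nmem, GoodL.nodup h.2⟩

theorem GoodL.sep {k : Type} [Field k] {g : k[X]} : ∀ {cs : List k}, GoodL g cs →
    ∀ c ∈ cs, (g - C c).Separable
  | [], _ => fun c hc => absurd hc List.not_mem_nil
  | c :: cs, h => fun c' hc' => by
      rcases List.mem_cons.1 hc' with h0 | h0
      · rw [h0]
        exact h.1.sep
      · exact GoodL.sep h.2 c' h0

theorem chain {k : Type} [Field k] (h2 : (2 : k) ≠ 0) {g : k[X]} (hg : g.Monic)
    (hodd : Odd g.natDegree) (cs : List k) (hG : GoodL g cs) :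
    ∃ (A : Type) (_ : CommRing A) (_ : IsDedekindDomain A) (_ : Algebra k[X] A) (yA : k → A)
      (R : Type) (_ : CommRing R) (_ : IsDedekindDomain R) (_ : Algebra k[X] R) (yR : k → R),
      IsTw (fun c => X + C c) cs A yA ∧ IsTw (fun c => -g + C c) cs R yR ∧
      Desc g cs A R yA yR := by
  induction cs with
  | nil =>
    exact ⟨k[X], inferInstance, inferInstance, inferInstance, fun _ => 0, k[X], inferInstance,
      inferInstance, inferInstance, fun _ => 0, IsTw.nil _ _, IsTw.nil _ _, desc_nil hg hodd⟩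
  | cons c cs ih =>
    obtain ⟨S, hG'⟩ := hG
    obtain ⟨A', i1, i2, i3, yA', R', j1, j2, j3, yR', HA', HR', HD⟩ := ih hG'
    letI : Algebra k A' := ((algebraMap k[X] A').comp C).toAlgebra
    letI : Algebra k R' := ((algebraMap k[X] R').comp C).toAlgebra
    obtain ⟨hDA, hKA⟩ := Pool.Agent.Y494.FT.stKum 2 k A' (-1) (algebraMap k[X] A' (X + C c))
      (by norm_num) (prim h2) (val_pi h2 HA' S.nmem (separable_X_add_C c))
      (exists_pi h2 HA' S.nmem (separable_X_add_C c) (not_isUnit_X_add_C c))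
    obtain ⟨hDR, hKR⟩ := Pool.Agent.Y494.FT.stKum 2 k R' (-1) (algebraMap k[X] R' (-g + C c))
      (by norm_num) (prim h2) (val_pi h2 HR' S.nmem S.sep')
      (exists_pi h2 HR' S.nmem S.sep' (not_unit' hg hodd.pos c))
    letI := hDA
    letI := hDR
    refine ⟨AdjoinRoot (X ^ 2 - C (algebraMap k[X] A' (X + C c)) : A'[X]), inferInstance, hDA,
      inferInstance, fun i => if i = c then AdjoinRoot.root _ else AdjoinRoot.of _ (yA' i),
      AdjoinRoot (X ^ 2 - C (algebraMap k[X] R' (-g + C c)) : R'[X]), inferInstance, hDR,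
      inferInstance, fun i => if i = c then AdjoinRoot.root _ else AdjoinRoot.of _ (yR' i),
      HA'.step c S.nmem, HR'.step c S.nmem, ?_⟩
    intro K L _ _ _ _ _ _ _ hC z hz hev hno
    letI : Algebra k K := ((algebraMap (AdjoinRoot (X ^ 2 - C (algebraMap k[X] A' (X + C c)) : A'[X]))
      K).comp (algebraMap k _)).toAlgebra
    letI : Algebra k L := ((algebraMap (AdjoinRoot (X ^ 2 - C (algebraMap k[X] R' (-g + C c)) : R'[X]))
      L).comp (algebraMap k _)).toAlgebra
    obtain ⟨σA, kA⟩ := hKA K (fun c => rfl)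
    obtain ⟨σR, kR⟩ := hKR L (fun c => rfl)
    have hne : ∀ i ∈ cs, i ≠ c := fun i hi h0 => S.nmem (h0 ▸ hi)
    refine step_abs (A' := A') (R' := R') (σA := σA) (σR := σR) h2 hg hodd hG'.nodup S HA' HR' HD
      (fun p => rfl) (fun p => rfl)
      (fun i hi => by rw [if_neg (hne i hi)]; rfl) (fun i hi => by rw [if_neg (hne i hi)]; rfl)
      ?_ ?_ hC hz hev hno
    · rw [if_pos rfl]
      exact kA
    · rw [if_pos rfl]
      exact kR

end Pool.Agent.Q45.TW
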