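import Pool.Agent.Q45.TW.Opt

/-!
# The main theorem for a finite set of square roots
-/

set_option autoImplicit false
set_option linter.all false

open Polynomial IsDedekindDomain WithZero UniqueFactorizationMonoid
open scoped Classical

namespace Pool.Agent.Q45.TW

open Pool.Agent.Y160.SQ
open Pool.Agent.Y160.RK (ptCl ptCl_spec)
open Pool.Agent.Q45.GP (Regular TateOver)

section core

variable {k : Type} [Field k] {ι : Type} {g : k[X]} {c x : ι → k} {P : ι → Prop} {q : ι → k[X]}
  {l : List ι} {n : ℕ} {p : Fin n → ι} {K : Type} [Field K] [Algebra k[X] K] {y : ι → K}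

/-- All the conditions. -/
structure Data (g : k[X]) (c x : ι → k) (P : ι → Prop) (q : ι → k[X]) (l : List ι) {n : ℕ}
    (p : Fin n → ι) : Prop where
  two : (2 : k) ≠ 0
  mon : g.Monic
  odd : Odd g.natDegree
  der : derivative g ≠ 0
  all : ∀ i, i ∈ l
  nod : l.Nodup
  good : GoodL g (l.map c)
  fac : ∀ i, Fac g c P x q i
  deg : ∀ i, P i → 1 < (q i).natDegree
  inj : Function.Injective p
  pt : ∀ j, P (p j)
  sur : ∀ i, P i → ∃ j, p j = i

theorem Data.cinj (h : Data g c x P q l p) : Function.Injective c := fun i j hij =>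
  List.inj_on_of_nodup_map h.good.nodup (h.all i) (h.all j) hij

theorem Data.sha (h : Data g c x P q l p) (hK : IsCov k c K y) {A : Type} [CommRing A]
    [IsDedekindDomain A] [Algebra A K] [IsFractionRing A K] [Algebra k[X] A]
    [IsScalarTower k[X] A K] [IsIntegralClosure A k[X] K] :
    Pool.Agent.Y160.SH.ShaTriv 2 2 A (ff g K) := by
  obtain ⟨-, h1, -⟩ := sha_gen (A := A) h.two h.mon h.odd h.der h.good (hK.base h.cinj h.all)
  exact h1

theorem Data.tate (h : Data g c x P q l p) (hK : IsCov k c K y) {k' F : Type} [Field k']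
    [Algebra k k'] [IsGalois k k'] [Field F] [Algebra k'[X] F] [Algebra K F]
    (hF : IsGeom k k' K F) {A' : Type} [CommRing A'] [IsDedekindDomain A'] [Algebra A' F]
    [IsFractionRing A' F] [Algebra k'[X] A'] [IsScalarTower k'[X] A' F]
    [IsIntegralClosure A' k'[X] F] : TateOver (F := F) 2 2 A' (ff g K) := by
  have hB := hK.base h.cinj h.all
  obtain ⟨A, a1, a2, a3, a4, a5, a6, a7⟩ := exists_A h.two h.good.nodup hB
  exact TW.tate (A := A) h.two h.mon h.odd h.der h.good hB hF

/-- The class of the marked point. -/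
noncomputable def mkPt (g : k[X]) (x : ι → k) (y : ι → K) (i : ι) : Jac 2 (ff g K) K :=
  ptCl 2 (ff g K) ((X - C (x i)).map (cst k K), C (y i))

theorem Data.basis (h : Data g c x P q l p) (hK : IsCov k c K y) :
    Pool.Agent.Y160.SL.IsBasisAt (M := Jac 2 (ff g K) K) 2 (fun j => mkPt g x y (p j)) := by
  obtain ⟨G0, hQ⟩ := list_fac h.mon h.odd.pos (fun i _ j _ hij => h.cinj hij) (fun i _ => h.fac i)
    (fun i _ => h.deg i) p h.inj (fun j => ⟨h.all _, h.pt j⟩) (fun i _ hi => h.sur i hi)
    (l := l)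
  have h1 := TW.basis h.two h.mon h.odd h.der h.good (hK.base h.cinj h.all) hQ
  have e1 : (fun j => mkPt g x y (p j)) = fun j => ptCl 2 (ff g K)
      (dv (yk c y) (c (p j), X - C (x (p j)))) := by
    funext j
    unfold mkPt dv
    rw [yk_eq h.cinj]
  rw [e1]
  exact h1

theorem cls_gen {f : K[X]} {ζ : K} (hg : Good 2 ζ f) (a b : K[X]) (h : Irreducible a) :
    IsCl K (prI 2 (f.map (algebraMap K K)) a b) (ptCl 2 f (a, b)) :=
  ptCl_spec hyps hg (P := (a, b)) h

/-- The class of the marked point is the class of an ideal. -/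
theorem Data.cls (h : Data g c x P q l p) (hK : IsCov k c K y) (i : ι) :
    IsCl K (prI 2 ((ff g K).map (algebraMap K K)) ((X - C (x i)).map (cst k K)) (C (y i)))
      (mkPt g x y i) := by
  have hB := hK.base h.cinj h.all
  obtain ⟨A, a1, a2, a3, a4, a5, a6, a7⟩ := exists_A h.two h.good.nodup hB
  obtain ⟨hgd, -, -⟩ := sha_gen (A := A) h.two h.mon h.odd h.der h.good hB
  have h1 : Irreducible ((X - C (x i)).map (cst k K)) := by
    rw [Polynomial.map_sub, map_X, map_C]
    exact irreducible_X_sub_C _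
  have h3 := cls_gen hgd ((X - C (x i)).map (cst k K)) (C (y i)) h1
  unfold mkPt
  exact h3

end core

section univ

variable {k₀ k₁ k : Type} [Field k₀] [Field k₁] {r : ℕ} [Algebra (MvPolynomial (Fin r) k₀) k₁]
  [IsFractionRing (MvPolynomial (Fin r) k₀) k₁] [Field k] [Algebra k₁[X] k] [IsFractionRing k₁[X] k]

theorem data_univ (h2 : (2 : k₀) ≠ 0) {f₀ : k₀[X]} (hf : f₀.Monic) (hn : 1 < f₀.natDegree)
    (hodd : Odd f₀.natDegree) : Data (gU k (f₀.map (j0 k₀ k₁ r)))
      (cU k (f₀.map (j0 k₀ k₁ r)) (xi k₀ k₁ r)) (fun i => cst k₁ k (xi k₀ k₁ r i)) (fun _ => True)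
      (fun i => ff (Ph (f₀.map (j0 k₀ k₁ r)) (xi k₀ k₁ r i)) k) (List.finRange r)
      (id : Fin r → Fin r) := by
  set F := f₀.map (j0 k₀ k₁ r) with hF
  have hFm : F.Monic := hf.map _
  have hFd : F.natDegree = f₀.natDegree := hf.natDegree_map _
  have hFn : 1 < F.natDegree := by rw [hFd]; exact hn
  have hFo : Odd F.natDegree := by rw [hFd]; exact hodd
  have hG : GenPt F (xi k₀ k₁ r) := gnr k₁ hf hn
  refine ⟨?_, gU_monic hFm hFn, by rw [gU_deg hFm hFn]; exact hFo, ?_, fun i => List.mem_finRange i,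
    List.nodup_finRange r, uni_good hFm hFn hFo hG _ (List.nodup_finRange r), fun i =>
      ⟨fun _ => gU_fac i, fun h => absurd trivial h, q_irr hFm hFn i⟩, fun i _ => ?_,
    Function.injective_id, fun _ => trivial, fun i _ => ⟨i, rfl⟩⟩
  · have h3 : (2 : k) = cst k₁ k (j0 k₀ k₁ r 2) := by rw [map_ofNat, map_ofNat]
    rw [h3]
    exact (_root_.map_ne_zero _).2 ((_root_.map_ne_zero _).2 h2)
  · intro h0
    have h1 := congrArg (fun p => coeff p 0) h0
    unfold gU at h1
    simp only [derivative_add, derivative_C_mul, derivative_X, mul_one, coeff_add, coeff_C_zero,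
      coeff_zero, derivative_map, coeff_map] at h1
    have h3 : algebraMap k₁[X] k (X + C ((derivative F).coeff 0)) = 0 := by
      rw [map_add, ← h1, add_comm]
      rfl
    exact X_add_C_ne_zero _ (cst_inj (h3.trans (map_zero _).symm))
  · have h1 : (Ph F (xi k₀ k₁ r i)).natDegree + 1 = F.natDegree := Ph_deg hFm (by omega) _
    obtain ⟨m, hm⟩ := hFo
    rw [ff_natDegree (Ph_monic hFm (by omega) _) (by omega)]
    omega

end univ

end Pool.Agent.Q45.TW
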