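import Pool.Agent.Q45.TW.Gnr
import Pool.Agent.Q45.TW.Tat

/-!
# The base curve with a finite index set
-/

set_option autoImplicit false
set_option linter.all false

open Polynomial IsDedekindDomain WithZero UniqueFactorizationMonoid
open scoped Classical

namespace Pool.Agent.Q45.TW

open Pool.Agent.Y160.SQ
open Pool.Agent.Y160.RK (ptCl)

section cov

variable {k : Type} [Field k] {ι : Type} {c : ι → k} {K : Type} [Field K] [Algebra k[X] K]

/-- The field `K` is generated over `k(t)` by square roots `y i` of the elements `t + c i`. -/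
structure IsCov (k : Type) [Field k] {ι : Type} (c : ι → k) (K : Type) [Field K] [Algebra k[X] K]
    (y : ι → K) : Prop where
  inj : Function.Injective (algebraMap k[X] K)
  sq : ∀ i, y i ^ 2 = algebraMap k[X] K (X + C (c i))
  gen : Subfield.closure (Set.range (algebraMap k[X] K) ∪ Set.range y) = ⊤

/-- The square roots as a function on `k`. -/
noncomputable def yk (c : ι → k) (y : ι → K) (a : k) : K := if h : ∃ i, c i = a then y h.choose else 0

theorem yk_eq (hc : Function.Injective c) (y : ι → K) (i : ι) : yk c y (c i) = y i := by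
  have h : ∃ j, c j = c i := ⟨i, rfl⟩
  unfold yk
  rw [dif_pos h]
  congr 1
  exact hc h.choose_spec

theorem IsCov.base {y : ι → K} (h : IsCov k c K y) (hc : Function.Injective c) {l : List ι}
    (hl : ∀ i, i ∈ l) : IsBase k (l.map c) K (yk c y) := by
  refine ⟨h.inj, fun a ha => ?_, ?_⟩
  · obtain ⟨i, -, rfl⟩ := List.mem_map.1 ha
    rw [yk_eq hc]
    exact h.sq i
  · rw [← h.gen]
    congr 2
    ext z
    constructor
    · rintro ⟨a, ha, rfl⟩
      obtain ⟨i, -, rfl⟩ := List.mem_map.1 ha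
      exact ⟨i, (yk_eq hc y i).symm⟩
    · rintro ⟨i, rfl⟩
      exact ⟨c i, List.mem_map_of_mem (hl i), yk_eq hc y i⟩

/-- The list of the factors for marked points. -/
theorem list_fac {g : k[X]} (hg : g.Monic) (hg0 : 0 < g.natDegree) {P : ι → Prop} {x : ι → k}
    {q : ι → k[X]} {l : List ι} (hc : ∀ i ∈ l, ∀ j ∈ l, c i = c j → i = j)
    (hF : ∀ i ∈ l, Fac g c P x q i) (hq : ∀ i ∈ l, P i → 1 < (q i).natDegree) {n : ℕ}
    (p : Fin n → ι) (hp : Function.Injective p) (hpl : ∀ j, p j ∈ l ∧ P (p j))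
    (hps : ∀ i ∈ l, P i → ∃ j, p j = i) :
    ∃ G0 : k → k[X], IsList g (l.map c) (fun j => (c (p j), X - C (x (p j)))) G0 := by
  let G0 : k → k[X] := fun a => if h : ∃ i ∈ l, c i = a then q h.choose else 0
  have hG0 : ∀ i ∈ l, G0 (c i) = q i := by
    intro i hi
    have h : ∃ j ∈ l, c j = c i := ⟨i, hi, rfl⟩
    show (if h : ∃ j ∈ l, c j = c i then q h.choose else 0) = q i
    rw [dif_pos h]
    congr 1
    exact hc _ h.choose_spec.1 i hi h.choose_spec.2
  refine ⟨G0, ⟨fun j => ?_, fun i j hij => ?_, fun a ha => ?_, fun a ha G hGm hGi hGd hne => ?_⟩⟩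
  · have hF' := hF (p j) (hpl j).1
    refine ⟨List.mem_map_of_mem (hpl j).1, monic_X_sub_C _, irreducible_X_sub_C _,
      ⟨_, hF'.pt (hpl j).2⟩, ?_⟩
    rw [hG0 _ (hpl j).1]
    intro h
    have h1 := hq (p j) (hpl j).1 (hpl j).2
    rw [← h, natDegree_X_sub_C] at h1
    omega
  · have h1 := congrArg Prod.fst hij
    exact hp (hc _ (hpl i).1 _ (hpl j).1 h1)
  · obtain ⟨i, hi, rfl⟩ := List.mem_map.1 ha
    rw [hG0 i hi]
    exact ⟨(hF i hi).monic hg hg0, (hF i hi).irr, ⟨Bf P x i, by rw [(hF i hi).eq, mul_comm]⟩⟩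
  · obtain ⟨i, hi, rfl⟩ := List.mem_map.1 ha
    rw [hG0 i hi] at hne
    have hqm := (hF i hi).monic hg hg0
    have key : ∀ G', G'.Monic → Irreducible G' → G ∣ G' → G = G' := fun G' h1 h3 h4 =>
      eq_of_monic_of_associated hGm h1 (hGi.associated_of_dvd h3 h4)
    by_cases hP : P i
    · rw [(hF i hi).pt hP] at hGd
      obtain ⟨j, hj⟩ := hps i hi hP
      refine ⟨j, ?_⟩
      rcases hGi.prime.dvd_or_dvd hGd with h | h
      · rw [key _ (monic_X_sub_C _) (irreducible_X_sub_C _) h, hj]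
      · exact absurd (key _ hqm (hF i hi).irr h) hne
    · rw [(hF i hi).npt hP] at hGd
      exact absurd (key _ hqm (hF i hi).irr hGd) hne

end cov

end Pool.Agent.Q45.TW
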