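import Mathlib

/-!
# Rings generated by square roots
-/

set_option autoImplicit false
set_option linter.all false

open Polynomial
open scoped Classical

namespace Pool.Agent.Q45.TW

/-- `R` is the algebra over `S` generated by elements `y c`, for the `c` in the list `cs`, with the
only relations `y c ^ 2 = a c`. -/
structure IsTw {ι S : Type} [CommRing S] (a : ι → S) (cs : List ι) (R : Type) [CommRing R]
    [Algebra S R] (y : ι → R) : Prop where
  sq : ∀ c ∈ cs, y c ^ 2 = algebraMap S R (a c)
  gen : ∀ T : Subring R, (∀ s, algebraMap S R s ∈ T) → (∀ c ∈ cs, y c ∈ T) → ∀ x, x ∈ T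
  lift : ∀ (B : Type) [CommRing B] (φ : S →+* B) (b : ι → B), (∀ c ∈ cs, b c ^ 2 = φ (a c)) →
    ∃ ψ : R →+* B, (∀ s, ψ (algebraMap S R s) = φ s) ∧ ∀ c ∈ cs, ψ (y c) = b c

namespace IsTw

section basic

variable {ι S : Type} [CommRing S] {a : ι → S} {cs : List ι} {R : Type} [CommRing R] [Algebra S R]
  {y : ι → R} (h : IsTw a cs R y)

include h

theorem hom_ext {B : Type} [CommRing B] {ψ ψ' : R →+* B}
    (h1 : ∀ s, ψ (algebraMap S R s) = ψ' (algebraMap S R s)) (h2 : ∀ c ∈ cs, ψ (y c) = ψ' (y c)) :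
    ψ = ψ' :=
  RingHom.ext fun x => h.gen (RingHom.eqLocus ψ ψ') h1 h2 x

theorem integral : Algebra.IsIntegral S R :=
  ⟨fun x => h.gen (integralClosure S R).toSubring (fun s => isIntegral_algebraMap)
    (fun c hc => by
      show IsIntegral S (y c)
      refine IsIntegral.of_pow (n := 2) (by norm_num) ?_
      rw [h.sq c hc]
      exact isIntegral_algebraMap) x⟩

theorem inj [IsDomain S] : Function.Injective (algebraMap S R) := by
  let Ω := AlgebraicClosure (FractionRing S)
  have h1 : ∀ c : ι, ∃ b : Ω, b ^ 2 = algebraMap S Ω (a c) := fun c =>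
    IsAlgClosed.exists_pow_nat_eq _ (by norm_num)
  choose b hb using h1
  obtain ⟨ψ, hψ, -⟩ := h.lift Ω (algebraMap S Ω) b fun c _ => hb c
  have h2 : Function.Injective (algebraMap S Ω) := by
    rw [IsScalarTower.algebraMap_eq S (FractionRing S) Ω]
    exact (algebraMap (FractionRing S) Ω).injective.comp (IsFractionRing.injective S (FractionRing S))
  intro s s' hs
  apply h2
  rw [← hψ, ← hψ, hs]

/-- The ring of the tower with one more square root. -/
theorem step (c : ι) (hc : c ∉ cs) :
    IsTw a (c :: cs) (AdjoinRoot (X ^ 2 - C (algebraMap S R (a c)) : R[X]))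
      (fun i => if i = c then AdjoinRoot.root _ else AdjoinRoot.of _ (y i)) := by
  set f : R[X] := X ^ 2 - C (algebraMap S R (a c)) with hf
  have halg : ∀ s, algebraMap S (AdjoinRoot f) s = AdjoinRoot.of f (algebraMap S R s) := fun s => rfl
  have hroot : AdjoinRoot.root f ^ 2 = AdjoinRoot.of f (algebraMap S R (a c)) := by
    have h1 := AdjoinRoot.eval₂_root f
    rw [hf, eval₂_sub, eval₂_X_pow, eval₂_C, sub_eq_zero] at h1
    exact h1
  have hne : ∀ i ∈ cs, i ≠ c := fun i hi h0 => hc (h0 ▸ hi)
  refine ⟨fun i hi => ?_, fun T h1 h2 x => ?_, fun B _ φ b hb => ?_⟩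
  · by_cases h0 : i = c
    · rw [if_pos h0, h0, halg]
      exact hroot
    · rw [if_neg h0, halg, ← map_pow, h.sq i ((List.mem_cons.1 hi).resolve_left h0)]
  · have h3 : ∀ z : R, AdjoinRoot.of f z ∈ T := by
      refine h.gen (T.comap (AdjoinRoot.of f)) (fun s => h1 s) fun i hi => ?_
      have h4 := h2 i (List.mem_cons_of_mem c hi)
      rw [if_neg (hne i hi)] at h4
      exact h4
    have h4 : AdjoinRoot.root f ∈ T := by
      have h5 := h2 c List.mem_cons_self
      rw [if_pos rfl] at h5
      exact h5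
    obtain ⟨p, rfl⟩ := AdjoinRoot.mk_surjective x
    induction p using Polynomial.induction_on' with
    | add p q hp hq => rw [map_add]; exact T.add_mem hp hq
    | monomial n z =>
      rw [← C_mul_X_pow_eq_monomial, map_mul, map_pow, AdjoinRoot.mk_C, AdjoinRoot.mk_X]
      exact T.mul_mem (h3 z) (T.pow_mem h4 n)
  · obtain ⟨ψ, h1, h2⟩ := h.lift B φ b fun i hi => hb i (List.mem_cons_of_mem c hi)
    refine ⟨AdjoinRoot.lift ψ (b c) ?_, fun s => ?_, fun i hi => ?_⟩
    · rw [hf, eval₂_sub, eval₂_X_pow, eval₂_C, h1, hb c List.mem_cons_self, sub_self]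
    · rw [halg, AdjoinRoot.lift_of]
      exact h1 s
    · by_cases h0 : i = c
      · subst h0
        rw [if_pos rfl, AdjoinRoot.lift_root]
      · rw [if_neg h0, AdjoinRoot.lift_of]
        exact h2 i ((List.mem_cons.1 hi).resolve_left h0)

end basic

/-- The empty tower. -/
theorem nil {ι S : Type} [CommRing S] (a : ι → S) (y : ι → S) : IsTw a [] S y := by
  refine ⟨fun c hc => absurd hc List.not_mem_nil, fun T h1 _ x => h1 x, fun B _ φ b _ =>
    ⟨φ, fun s => rfl, fun c hc => absurd hc List.not_mem_nil⟩⟩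

/-- Transport along an isomorphism. -/
theorem equiv {ι S : Type} [CommRing S] {a : ι → S} {cs : List ι} {R R' : Type} [CommRing R]
    [CommRing R'] [Algebra S R] [Algebra S R'] {y : ι → R} (h : IsTw a cs R y) (e : R ≃+* R')
    (he : ∀ s, e (algebraMap S R s) = algebraMap S R' s) : IsTw a cs R' (fun c => e (y c)) := by
  refine ⟨fun c hc => ?_, fun T h1 h2 x => ?_, fun B _ φ b hb => ?_⟩
  · rw [← map_pow, h.sq c hc, he]
  · have h3 := h.gen (T.comap (e : R →+* R')) (fun s => by
      show e (algebraMap S R s) ∈ T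
      rw [he]
      exact h1 s) (fun c hc => h2 c hc) (e.symm x)
    have h4 : e (e.symm x) ∈ T := h3
    rwa [e.apply_symm_apply] at h4
  · obtain ⟨ψ, h1, h2⟩ := h.lift B φ b hb
    refine ⟨ψ.comp (e.symm : R' →+* R), fun s => ?_, fun c hc => ?_⟩
    · show ψ (e.symm (algebraMap S R' s)) = φ s
      rw [← he, e.symm_apply_apply, h1]
    · show ψ (e.symm (e (y c))) = b c
      rw [e.symm_apply_apply, h2 c hc]

end IsTw

/-- **The field tower.** If no product of the `a c` is a square, the tower is a field, and the elements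
of the base field which become squares are squares times products of the `a c`. -/
theorem field_tower {ι κ : Type} [Field κ] (h2 : (2 : κ) ≠ 0) (a : ι → κ) (cs : List ι)
    (hnd : cs.Nodup) (hind : ∀ I : List ι, I.Sublist cs → I ≠ [] → ∀ w : κ, (I.map a).prod ≠ w ^ 2) :
    ∃ (E : Type) (_ : Field E) (_ : Algebra κ E) (y : ι → E), IsTw a cs E y ∧
      ∀ x : κ, (∃ e : E, e ^ 2 = algebraMap κ E x) →
        ∃ (I : List ι) (w : κ), I.Sublist cs ∧ x * (I.map a).prod = w ^ 2 := by
  induction cs with
  | nil =>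
    refine ⟨κ, inferInstance, inferInstance, fun _ => 0, IsTw.nil a _, fun x hx => ?_⟩
    obtain ⟨e, he⟩ := hx
    refine ⟨[], e, List.Sublist.refl _, ?_⟩
    rw [List.map_nil, List.prod_nil, mul_one, he]
    rfl
  | cons c cs ih =>
    obtain ⟨hc, hnd'⟩ := List.nodup_cons.1 hnd
    obtain ⟨E, iE, aE, y, hE, hsq⟩ := ih hnd' fun I hI hI0 => hind I (hI.trans (List.sublist_cons_self c cs)) hI0
    let f : E[X] := X ^ 2 - C (algebraMap κ E (a c))
    have hf : f = X ^ 2 - C (algebraMap κ E (a c)) := rfl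
    have hirr : Irreducible f := by
      refine X_pow_sub_C_irreducible_of_prime Nat.prime_two fun e he => ?_
      obtain ⟨I, w, hI, hw⟩ := hsq (a c) ⟨e, he⟩
      refine hind (c :: I) (hI.cons₂ c) (List.cons_ne_nil _ _) w ?_
      rw [List.map_cons, List.prod_cons]
      exact hw
    haveI : Fact (Irreducible f) := ⟨hirr⟩
    refine ⟨AdjoinRoot f, inferInstance, inferInstance, _,
      hE.step c hc, fun x hx => ?_⟩
    obtain ⟨e, he⟩ := hx
    have hroot : AdjoinRoot.root f ^ 2 = AdjoinRoot.of f (algebraMap κ E (a c)) := by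
      have h1 := AdjoinRoot.eval₂_root f
      rw [hf, eval₂_sub, eval₂_X_pow, eval₂_C, sub_eq_zero] at h1
      exact h1
    have hmon : f.Monic := monic_X_pow_sub_C _ (by norm_num)
    have hdeg : f.degree = 2 := degree_X_pow_sub_C (by norm_num) _
    -- the expression of `e`
    obtain ⟨u, v, heuv⟩ : ∃ u v : E, e = AdjoinRoot.of f u + AdjoinRoot.of f v * AdjoinRoot.root f := by
      obtain ⟨p, rfl⟩ := AdjoinRoot.mk_surjective e
      have h1 : AdjoinRoot.mk f p = AdjoinRoot.mk f (p %ₘ f) := by
        rw [AdjoinRoot.mk_eq_mk]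
        refine ⟨p /ₘ f, ?_⟩
        have h3 := modByMonic_add_div p f
        linear_combination h3.symm
      have h3 : (p %ₘ f).degree < 2 := hdeg ▸ degree_modByMonic_lt p hmon
      have h4 := eq_X_add_C_of_degree_le_one (p := p %ₘ f) (by
        have h5 : (p %ₘ f).degree < ((1 : ℕ) + 1 : ℕ) := h3
        exact Order.le_of_lt_succ (by exact_mod_cast h5))
      refine ⟨(p %ₘ f).coeff 0, (p %ₘ f).coeff 1, ?_⟩
      rw [h1]
      conv_lhs => rw [h4]
      rw [map_add, map_mul, AdjoinRoot.mk_C, AdjoinRoot.mk_C, AdjoinRoot.mk_X, add_comm]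
    -- the comparison of the coefficients
    have hlin : ∀ u v : E, AdjoinRoot.of f u + AdjoinRoot.of f v * AdjoinRoot.root f = 0 →
        u = 0 ∧ v = 0 := by
      intro u v huv
      have h1 : AdjoinRoot.mk f (C u + C v * X) = 0 := by
        rw [map_add, map_mul, AdjoinRoot.mk_C, AdjoinRoot.mk_C, AdjoinRoot.mk_X]
        exact huv
      rw [AdjoinRoot.mk_eq_zero] at h1
      have h3 : (C u + C v * X : E[X]) = 0 := by
        by_contra h0
        have h4 := degree_le_of_dvd h1 h0
        rw [hdeg] at h4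
        have h5 : (C u + C v * X : E[X]).degree ≤ 1 := by
          rw [add_comm]
          exact degree_linear_le
        exact absurd (h4.trans h5) (by decide)
      have h4 := congrArg (fun p => coeff p 0) h3
      have h5 := congrArg (fun p => coeff p 1) h3
      simp at h4 h5
      exact ⟨h4, h5⟩
    have h2E : (2 : E) ≠ 0 := by
      have h3 : (2 : E) = algebraMap κ E 2 := by rw [map_ofNat]
      rw [h3]
      exact (_root_.map_ne_zero _).2 h2
    have hx' : algebraMap κ (AdjoinRoot f) x = AdjoinRoot.of f (algebraMap κ E x) := rfl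
    rw [hx', heuv] at he
    have key : AdjoinRoot.of f (u ^ 2 + v ^ 2 * algebraMap κ E (a c) - algebraMap κ E x) +
        AdjoinRoot.of f (2 * u * v) * AdjoinRoot.root f = 0 := by
      simp only [map_add, map_sub, map_mul, map_pow, map_ofNat]
      linear_combination he - (AdjoinRoot.of f v) ^ 2 * hroot
    obtain ⟨k1, k2⟩ := hlin _ _ key
    have k3 : u = 0 ∨ v = 0 := by
      rcases mul_eq_zero.1 k2 with h3 | h3
      · exact Or.inl ((mul_eq_zero.1 h3).resolve_left h2E)
      · exact Or.inr h3
    rcases k3 with h3 | h3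
    · -- `x = v ^ 2 a`
      obtain ⟨I, w, hI, hw⟩ := hsq (x * a c) ⟨v * algebraMap κ E (a c), by
        rw [h3] at k1
        rw [map_mul]
        linear_combination (algebraMap κ E (a c)) * k1⟩
      refine ⟨c :: I, w, hI.cons₂ c, ?_⟩
      rw [List.map_cons, List.prod_cons, ← mul_assoc]
      exact hw
    · obtain ⟨I, w, hI, hw⟩ := hsq x ⟨u, by
        rw [h3] at k1
        linear_combination k1⟩
      exact ⟨I, w, hI.cons c, hw⟩

end Pool.Agent.Q45.TW
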