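import Pool.Agent.Q45.TW.Def
import Pool.Agent.Q45.TW.Sm

/-!
# The derivation of a tower of square roots
-/

set_option autoImplicit false
set_option linter.all false

open Polynomial IsDedekindDomain WithZero
open scoped Classical

namespace Pool.Agent.Q45.TW

section ring

variable {R : Type} [CommRing R]

theorem der_mem (D : Derivation ℤ R R) (I : Ideal R) {x : R} (hx : x ∈ I ^ 2) : D x ∈ I := by
  rw [pow_two] at hx
  refine Submodule.mul_induction_on hx ?_ ?_
  · intro m hm n hn
    rw [Derivation.leibniz, smul_eq_mul, smul_eq_mul]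
    exact I.add_mem (I.mul_mem_right _ hm) (I.mul_mem_right _ hn)
  · intro x y hx hy
    rw [map_add]
    exact I.add_mem hx hy

end ring

section der

variable {k : Type} [Field k] {h : k[X]} {cs : List k} {R : Type} [CommRing R] [Algebra k[X] R]
  {y : k → R}

/-- The derivation with `D x = ∏ y c`. -/
theorem exists_der (h2 : (2 : k) ≠ 0) (H : IsTw (fun c => h + C c) cs R y) :
    ∃ D : Derivation ℤ R R, ∀ p : k[X],
      D (algebraMap k[X] R p) = algebraMap k[X] R (derivative p) * (cs.map y).prod := by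
  set Y : R := (cs.map y).prod with hY
  let φ : k[X] →+* TrivSqZeroExt R R :=
    { toFun := fun p => TrivSqZeroExt.inl (algebraMap k[X] R p) +
        TrivSqZeroExt.inr (algebraMap k[X] R (derivative p) * Y)
      map_one' := by
        ext
        · simp
        · simp
      map_mul' := fun p q => by
        ext
        · simp
        · simp [derivative_mul]
          ring
      map_zero' := by
        ext
        · simp
        · simp
      map_add' := fun p q => by
        ext
        · simp
        · simp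
          ring }
  have hφ1 : ∀ p, (φ p).fst = algebraMap k[X] R p := fun p => by
    show (TrivSqZeroExt.inl (algebraMap k[X] R p) +
        TrivSqZeroExt.inr (algebraMap k[X] R (derivative p) * Y) : TrivSqZeroExt R R).fst = _
    simp
  have hφ2 : ∀ p, (φ p).snd = algebraMap k[X] R (derivative p) * Y := fun p => by
    show (TrivSqZeroExt.inl (algebraMap k[X] R p) +
        TrivSqZeroExt.inr (algebraMap k[X] R (derivative p) * Y) : TrivSqZeroExt R R).snd = _
    simp
  let b : k → TrivSqZeroExt R R := fun c => TrivSqZeroExt.inl (y c) +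
    TrivSqZeroExt.inr (algebraMap k[X] R (C (2⁻¹ : k) * derivative h) * ((cs.erase c).map y).prod)
  have h22 : (2 : R) * algebraMap k[X] R (C (2⁻¹ : k)) = 1 := by
    have h3 : (2 : R) = algebraMap k[X] R (C (2 : k)) := by
      rw [show (C (2 : k) : k[X]) = 2 from rfl, map_ofNat]
    rw [h3, ← map_mul, ← C_mul, mul_inv_cancel₀ h2, C_1, map_one]
  obtain ⟨ψ, h3, h4⟩ := H.lift (TrivSqZeroExt R R) φ b (fun c hc => by
    have h5 : y c * ((cs.erase c).map y).prod = Y := List.prod_map_erase y hc
    ext
    · rw [hφ1, ← H.sq c hc]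
      simp [b, pow_two]
    · rw [hφ2]
      have h6 : derivative (h + C c) = derivative h := by simp
      rw [h6, pow_two, TrivSqZeroExt.snd_mul]
      simp only [b, TrivSqZeroExt.fst_add, TrivSqZeroExt.fst_inl, TrivSqZeroExt.fst_inr, add_zero,
        TrivSqZeroExt.snd_add, TrivSqZeroExt.snd_inl, TrivSqZeroExt.snd_inr, zero_add, smul_eq_mul,
        MulOpposite.smul_eq_mul_unop, MulOpposite.unop_op, map_mul]
      linear_combination (algebraMap k[X] R (derivative h)) * (2 * algebraMap k[X] R (C 2⁻¹)) * h5 +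
        (algebraMap k[X] R (derivative h)) * Y * h22)
  have hfst : (TrivSqZeroExt.fstHom ℤ R R : TrivSqZeroExt R R →+* R).comp ψ = RingHom.id R := by
    refine H.hom_ext (fun s => ?_) fun c hc => ?_
    · show (ψ (algebraMap k[X] R s)).fst = _
      rw [h3, hφ1]
      rfl
    · show (ψ (y c)).fst = _
      rw [h4 c hc]
      simp [b]
  have hf : ∀ x : R, (ψ x).fst = x := fun x => congrArg (fun g : R →+* R => g x) hfst
  let D0 : R →+ R :=
    { toFun := fun x => (ψ x).snd
      map_zero' := by rw [map_zero]; rfl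
      map_add' := fun x z => by rw [map_add, TrivSqZeroExt.snd_add] }
  refine ⟨Derivation.mk' D0.toIntLinearMap fun x z => ?_, fun p => ?_⟩
  · show (ψ (x * z)).snd = x • (ψ z).snd + z • (ψ x).snd
    rw [map_mul, TrivSqZeroExt.snd_mul, hf, hf]
    simp
    ring
  · show (ψ (algebraMap k[X] R p)).snd = _
    rw [h3, hφ2]

/-- The square roots are units modulo the primes which divide `h + c`, for another `c`. -/
theorem y_notMem (H : IsTw (fun c => h + C c) cs R y) {I : Ideal R} (hI : I.IsPrime) {c : k}
    (hc : algebraMap k[X] R (h + C c) ∈ I) {c' : k} (hc' : c' ∈ cs) (hne : c' ≠ c) : y c' ∉ I := by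
  intro hy
  have h1 : y c' ^ 2 ∈ I := I.pow_mem_of_mem hy 2 (by norm_num)
  rw [H.sq c' hc'] at h1
  have h2 := I.sub_mem h1 hc
  rw [← map_sub] at h2
  have h3 : (h + C c' - (h + C c) : k[X]) = C (c' - c) := by
    rw [C_sub]
    ring
  rw [h3] at h2
  have h4 : IsUnit (algebraMap k[X] R (C (c' - c))) :=
    ((isUnit_C.2 (IsUnit.mk0 _ (sub_ne_zero.2 hne))).map _)
  exact hI.ne_top (Ideal.eq_top_of_isUnit_mem _ h2 h4)

theorem prod_notMem {I : Ideal R} (hI : I.IsPrime) (l : List k)
    (h : ∀ c ∈ l, y c ∉ I) : (l.map y).prod ∉ I := by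
  induction l with
  | nil =>
    rw [List.map_nil, List.prod_nil]
    exact fun h1 => hI.ne_top ((Ideal.eq_top_iff_one I).2 h1)
  | cons c l ih =>
    rw [List.map_cons, List.prod_cons]
    intro h1
    rcases hI.mem_or_mem h1 with h3 | h3
    · exact h c List.mem_cons_self h3
    · exact ih (fun c hc => h c (List.mem_cons_of_mem _ hc)) h3

variable [IsDedekindDomain R]

/-- `h + c` is squarefree. -/
theorem sqf (h2 : (2 : k) ≠ 0) (H : IsTw (fun c => h + C c) cs R y) {c : k} (hc : c ∉ cs)
    (hsep : (h + C c).Separable) (v : HeightOneSpectrum R)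
    (hv : algebraMap k[X] R (h + C c) ∈ v.asIdeal) :
    algebraMap k[X] R (h + C c) ∉ v.asIdeal ^ 2 := by
  intro h1
  obtain ⟨D, hD⟩ := exists_der h2 H
  have h3 := der_mem D v.asIdeal h1
  rw [hD] at h3
  rcases v.isPrime.mem_or_mem h3 with h4 | h4
  · obtain ⟨a, b, hab⟩ := hsep
    have h5 : algebraMap k[X] R (a * (h + C c) + b * derivative (h + C c)) ∈ v.asIdeal := by
      rw [map_add, map_mul, map_mul]
      exact v.asIdeal.add_mem (v.asIdeal.mul_mem_left _ hv) (v.asIdeal.mul_mem_left _ h4)
    rw [hab, map_one] at h5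
    exact v.isPrime.ne_top ((Ideal.eq_top_iff_one _).2 h5)
  · exact prod_notMem v.isPrime cs (fun c' hc' => y_notMem H v.isPrime hv hc' fun h0 =>
      hc (h0 ▸ hc')) h4

theorem val_pi (h2 : (2 : k) ≠ 0) (H : IsTw (fun c => h + C c) cs R y) {c : k} (hc : c ∉ cs)
    (hsep : (h + C c).Separable) (v : HeightOneSpectrum R) :
    v.intValuation (algebraMap k[X] R (h + C c)) = 1 ∨
      v.intValuation (algebraMap k[X] R (h + C c)) = exp (-1 : ℤ) := by
  by_cases hv : algebraMap k[X] R (h + C c) ∈ v.asIdeal
  · right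
    have h1 := sqf h2 H hc hsep v hv
    rw [← v.intValuation_le_pow_iff_mem, not_le] at h1
    have h3 : v.intValuation (algebraMap k[X] R (h + C c)) ≤ exp (-((1 : ℕ) : ℤ)) := by
      rw [v.intValuation_le_pow_iff_mem, pow_one]
      exact hv
    have h4 : v.intValuation (algebraMap k[X] R (h + C c)) ≠ 0 := by
      intro h0
      rw [h0] at h1
      exact absurd h1 (not_lt.2 zero_le)
    obtain ⟨n, hn⟩ : ∃ n : ℤ, v.intValuation (algebraMap k[X] R (h + C c)) = exp n :=
      ⟨_, (exp_log h4).symm⟩
    rw [hn, exp_le_exp] at h3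
    rw [hn, exp_lt_exp] at h1
    rw [hn]
    congr 1
    push_cast at h1 h3
    omega
  · left
    exact (v.intValuation_eq_one_iff).2 hv

theorem exists_pi (h2 : (2 : k) ≠ 0) (H : IsTw (fun c => h + C c) cs R y) {c : k} (hc : c ∉ cs)
    (hsep : (h + C c).Separable) (hu : ¬ IsUnit (h + C c)) :
    ∃ v : HeightOneSpectrum R, v.intValuation (algebraMap k[X] R (h + C c)) = exp (-1 : ℤ) := by
  haveI := H.integral
  have hinj := H.inj
  haveI : Module.IsTorsionFree k[X] R := (Module.isTorsionFree_iff_algebraMap_injective).2 hinj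
  obtain ⟨p, hp, hdvd⟩ := WfDvdMonoid.exists_irreducible_factor hu hsep.ne_zero
  let v0 : HeightOneSpectrum k[X] := ⟨Ideal.span {p}, (Ideal.span_singleton_prime hp.ne_zero).2 hp.prime,
    fun h0 => hp.ne_zero (Ideal.span_singleton_eq_bot.1 h0)⟩
  obtain ⟨w, hw⟩ := Pool.Agent.TH115.GD.exists_over (B := R) v0
  refine ⟨w, (val_pi h2 H hc hsep w).resolve_left ?_⟩
  rw [w.intValuation_eq_one_iff, not_not]
  have h3 : h + C c ∈ (HeightOneSpectrum.under k[X] w).asIdeal := by
    rw [hw]
    exact Ideal.mem_span_singleton.2 hdvd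
  exact h3

end der

end Pool.Agent.Q45.TW
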