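import Pool.Agent.Q45.TW.Rmv
import Pool.Agent.Q45.TW.Evn

/-!
# The descent: the pair of towers and the base case
-/

set_option autoImplicit false
set_option linter.all false

open Polynomial IsDedekindDomain WithZero
open scoped Classical

namespace Pool.Agent.Q45.TW

open Pool.Agent.Y160.SE (IsPw)
open Pool.Agent.Y228.FT (val_unit vpr eq_vpr vpr_self val_cases)

section pf

variable {k : Type} [Field k]

/-- The pair of towers. -/
structure Cmp (g : k[X]) (cs : List k) (A R K L : Type) [CommRing A] [Algebra k[X] A] [CommRing R]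
    [Algebra k[X] R] [Field K] [Algebra A K] [Field L] [Algebra R L] [Algebra K L] (yA : k → A)
    (yR : k → R) : Prop where
  HA : IsTw (fun c => X + C c) cs A yA
  HR : IsTw (fun c => -g + C c) cs R yR
  pol : ∀ p : k[X], algebraMap K L (algebraMap A K (algebraMap k[X] A p)) =
    algebraMap R L (algebraMap k[X] R (p.comp (-g)))
  sqr : ∀ c ∈ cs, algebraMap K L (algebraMap A K (yA c)) = algebraMap R L (yR c)

variable {g : k[X]} {cs : List k} {A R K L : Type} [CommRing A] [Algebra k[X] A] [CommRing R]
  [Algebra k[X] R] [Field K] [Algebra A K] [Field L] [Algebra R L] [Algebra K L] {yA : k → A}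
  {yR : k → R}

/-- The root of `g(x) + t`. -/
noncomputable def th (k R L : Type) [Field k] [CommRing R] [Algebra k[X] R] [Field L]
    [Algebra R L] : L := algebraMap R L (algebraMap k[X] R X)

theorem ff_K (A K : Type) [CommRing A] [Algebra k[X] A] [Field K] [Algebra A K] :
    (ff g A).map (algebraMap A K) =
      g.map ((algebraMap A K).comp (cst k A)) + C (algebraMap A K (algebraMap k[X] A X)) := by
  unfold ff
  rw [Polynomial.map_add, Polynomial.map_map, map_C]

theorem Cmp.cst (hC : Cmp g cs A R K L yA yR) (x : k) :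
    algebraMap K L (algebraMap A K (algebraMap k[X] A (C x))) =
      algebraMap R L (algebraMap k[X] R (C x)) := by
  rw [hC.pol, C_comp]

theorem Cmp.ev (hC : Cmp g cs A R K L yA yR) (p : k[X]) :
    aeval (th k R L) (p.map ((algebraMap A K).comp (TW.cst k A))) =
      algebraMap R L (algebraMap k[X] R p) := by
  rw [aeval_def, eval₂_map]
  have h1 : eval₂RingHom ((algebraMap K L).comp ((algebraMap A K).comp (TW.cst k A))) (th k R L) =
      (algebraMap R L).comp (algebraMap k[X] R) := by
    apply Polynomial.ringHom_ext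
    · intro a
      rw [coe_eval₂RingHom, eval₂_C]
      exact hC.cst a
    · rw [coe_eval₂RingHom, eval₂_X]
      rfl
  exact congrArg (fun f : k[X] →+* L => f p) h1

theorem Cmp.root (hC : Cmp g cs A R K L yA yR) :
    aeval (th k R L) ((ff g A).map (algebraMap A K)) = 0 := by
  rw [ff_K, map_add, hC.ev, aeval_C, hC.pol, X_comp, ← map_add, ← map_add, add_neg_cancel, map_zero,
    map_zero]

theorem Cmp.top [IsDomain R] [IsFractionRing R L] (hC : Cmp g cs A R K L yA yR) :
    IntermediateField.adjoin K {th k R L} = ⊤ := by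
  rw [eq_top_iff]
  rintro z -
  set S := IntermediateField.adjoin K {th k R L} with hS
  have h1 : ∀ r : R, algebraMap R L r ∈ S := by
    refine hC.HR.gen (S.toSubfield.toSubring.comap (algebraMap R L)) (fun p => ?_) fun c hc => ?_
    · show algebraMap R L (algebraMap k[X] R p) ∈ S
      rw [← hC.ev]
      exact IntermediateField.algebra_adjoin_le_adjoin K {th k R L}
        (aeval_mem_adjoin_singleton _ _)
    · show algebraMap R L (yR c) ∈ S
      rw [← hC.sqr c hc]
      exact S.algebraMap_mem _
  obtain ⟨a, b, -, rfl⟩ := IsFractionRing.div_surjective (A := R) z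
  exact div_mem (h1 a) (h1 b)

theorem Cmp.mon (hC : Cmp g cs A R K L yA yR) (hg : g.Monic) (hg0 : 0 < g.natDegree) :
    ((ff g A).map (algebraMap A K)).Monic := (ff_monic hg hg0).map _

theorem Cmp.irr [IsDedekindDomain A] [IsFractionRing A K] [IsDomain R]
    (hC : Cmp g cs A R K L yA yR) (hg : g.Monic) (hg0 : 0 < g.natDegree) :
    Irreducible ((ff g A).map (algebraMap A K)) := TW.irr hg hg0 hC.HA hC.HR

theorem Cmp.sep [IsDedekindDomain A] [IsFractionRing A K] [IsDomain R]
    (hC : Cmp g cs A R K L yA yR) (hg : g.Monic) (hg0 : 0 < g.natDegree)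
    (hd : derivative g ≠ 0) : ((ff g A).map (algebraMap A K)).Separable := by
  rw [separable_iff_derivative_ne_zero (hC.irr hg hg0), ff_K, derivative_add, derivative_C,
    add_zero, derivative_map]
  exact (Polynomial.map_ne_zero_iff ((algebraMap A K).comp (TW.cst k A)).injective).2 hd

/-- The norm of an element with even valuations. -/
theorem Cmp.norm_even [IsDedekindDomain A] [IsDedekindDomain R] [IsFractionRing A K]
    [IsFractionRing R L] (hC : Cmp g cs A R K L yA yR) (hg : g.Monic) (hg0 : 0 < g.natDegree)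
    {w : L} (hw : w ≠ 0) (hev : ∀ P : HeightOneSpectrum R, IsPw 2 (P.valuation L w))
    (v : HeightOneSpectrum A) : IsPw 2 (v.valuation K (Algebra.norm K w)) := by
  obtain ⟨α, e, h1, h3, h4, h5⟩ := pair hC.HA hC.HR
  haveI : FiniteDimensional K L := fin_of (hC.mon hg hg0) hC.root hC.top
  letI : Algebra A R := α.toAlgebra
  have hαL : ∀ a : A, algebraMap K L (algebraMap A K a) = algebraMap R L (α a) := by
    have h1 : (algebraMap K L).comp (algebraMap A K) = (algebraMap R L).comp α := by
      refine hC.HA.hom_ext (fun p => ?_) fun i hi => ?_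
      · show algebraMap K L (algebraMap A K (algebraMap k[X] A p)) =
          algebraMap R L (α (algebraMap k[X] A p))
        rw [hC.pol, h1]
      · show algebraMap K L (algebraMap A K (yA i)) = algebraMap R L (α (yA i))
        rw [hC.sqr i hi, h3 i hi]
    exact fun a => congrArg (fun f : A →+* L => f a) h1
  letI : Algebra A L := ((algebraMap K L).comp (algebraMap A K)).toAlgebra
  haveI : IsScalarTower A K L := IsScalarTower.of_algebraMap_eq fun x => rfl
  haveI : IsScalarTower A R L := IsScalarTower.of_algebraMap_eq fun x => hαL x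
  haveI : Module.Finite A R := by
    haveI : Module.Finite A (AdjoinRoot (ff g A)) := (ff_monic hg hg0).finite_adjoinRoot
    let e' : AdjoinRoot (ff g A) →ₐ[A] R :=
      { (e : AdjoinRoot (ff g A) →+* R) with
        commutes' := fun x => h4 x }
    exact Module.Finite.of_surjective e'.toLinearMap e.surjective
  haveI : Module.IsTorsionFree A R := by
    rw [Module.isTorsionFree_iff_algebraMap_injective]
    intro x y hxy
    have hxy' : α x = α y := hxy
    apply IsFractionRing.injective A K
    apply (algebraMap K L).injective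
    rw [hαL, hαL, hxy']
  exact TW.norm_even hw hev v

end pf

/-- The descent. -/
def Desc {k : Type} [Field k] (g : k[X]) (cs : List k) (A R : Type) [CommRing A]
    [IsDedekindDomain A] [Algebra k[X] A] [CommRing R] [IsDedekindDomain R] [Algebra k[X] R]
    (yA : k → A) (yR : k → R) : Prop :=
  ∀ (K L : Type) [Field K] [Algebra A K] [IsFractionRing A K] [Field L] [Algebra R L]
    [IsFractionRing R L] [Algebra K L], Cmp g cs A R K L yA yR →
    ∀ z : L, z ≠ 0 → (∀ v : HeightOneSpectrum R, IsPw 2 (v.valuation L z)) →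
      (∃ u : K, Algebra.norm K z = u ^ 2) →
      ∃ (w : L) (a : k[X]), w ≠ 0 ∧ a.Monic ∧ a ∣ (cs.map fun c => g - C c).prod ∧
        z = w ^ 2 * ((-1) ^ a.natDegree * algebraMap R L (algebraMap k[X] R a))

/-- Elements of `k(x)` with even valuations. -/
theorem even_ratfunc {k L : Type} [Field k] [Field L] [Algebra k[X] L] [IsFractionRing k[X] L]
    {z : L} (hz : z ≠ 0) (hev : ∀ v : HeightOneSpectrum k[X], IsPw 2 (v.valuation L z)) :
    ∃ (c : k) (w : L), c ≠ 0 ∧ w ≠ 0 ∧ z = algebraMap k[X] L (C c) * w ^ 2 := by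
  obtain ⟨a, b, hb, rfl⟩ := IsFractionRing.div_surjective (A := k[X]) z
  have hb0 : b ≠ 0 := nonZeroDivisors.ne_zero hb
  have ha0 : a ≠ 0 := by
    rintro rfl
    rw [map_zero, zero_div] at hz
    exact hz rfl
  have hbL : algebraMap k[X] L b ≠ 0 := fun h =>
    hb0 (IsFractionRing.injective k[X] L (by rw [h, map_zero]))
  have he : algebraMap k[X] L (a * b) =
      algebraMap k[X] L a / algebraMap k[X] L b * algebraMap k[X] L b ^ 2 := by
    rw [map_mul]
    field_simp
  obtain ⟨c, d, w, hc, ⟨N, hN⟩, hw, hd, he2⟩ := Pool.Agent.Y228.FT.factor (ℓ := 2) (by norm_num)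
    (1 : k[X]) _ (a * b) (mul_ne_zero ha0 hb0) le_rfl (fun v _ => by
      have h1 : v.valuation L (algebraMap k[X] L (a * b)) = v.intValuation (a * b) :=
        v.valuation_of_algebraMap _
      rw [← h1, he, map_mul, map_pow]
      exact (hev v).mul (IsPw.self _))
  rw [one_pow] at hN
  obtain ⟨d0, hd0, hd1⟩ := Polynomial.isUnit_iff.1 (isUnit_of_dvd_one hN)
  refine ⟨c * d0, algebraMap k[X] L w / algebraMap k[X] L b, mul_ne_zero hc hd0.ne_zero,
    div_ne_zero (fun h => hw (IsFractionRing.injective k[X] L (by rw [h, map_zero]))) hbL, ?_⟩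
  rw [he2, ← hd1, map_mul, map_mul, map_pow] at he
  rw [C_mul, map_mul, div_pow]
  field_simp
  field_simp at he
  rw [he]

/-- The base case. -/
theorem desc_nil {k : Type} [Field k] {g : k[X]} (hg : g.Monic) (hodd : Odd g.natDegree) :
    Desc g [] k[X] k[X] (fun _ => 0) (fun _ => 0) := by
  intro K L _ _ _ _ _ _ _ hC z hz hev hno
  have hg0 := hodd.pos
  have hfin : FiniteDimensional K L := fin_of (hC.mon hg hg0) hC.root hC.top
  obtain ⟨c, w, hc, hw, rfl⟩ := even_ratfunc hz hev
  obtain ⟨u, hu⟩ := hno
  have h1 : algebraMap k[X] L (C c) = algebraMap K L (algebraMap k[X] K (C c)) := (hC.cst c).symm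
  have hcK : algebraMap k[X] K (C c) ≠ 0 := by
    intro h0
    rw [h0, map_zero] at h1
    rw [h1, zero_mul] at hz
    exact hz rfl
  have h3 : Module.finrank K L = g.natDegree := by
    rw [finrank_of (hC.irr hg hg0) (hC.mon hg hg0) hC.root hC.top, (ff_monic hg hg0).natDegree_map,
      ff_natDegree hg hg0]
  rw [h1, map_mul, Algebra.norm_algebraMap, h3, map_pow] at hu
  obtain ⟨e, he⟩ := hodd
  set κ := algebraMap k[X] K (C c) with hκ
  have hNw : Algebra.norm K w ≠ 0 := (Algebra.norm_ne_zero_iff).2 hw
  have h4 : κ = (u / (Algebra.norm K w * κ ^ e)) ^ 2 := by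
    rw [div_pow, ← hu, he]
    field_simp
    ring
  refine ⟨algebraMap K L (u / (Algebra.norm K w * κ ^ e)) * w, 1, ?_, monic_one, ?_, ?_⟩
  · refine mul_ne_zero ?_ hw
    rw [_root_.map_ne_zero]
    intro h0
    rw [h0, zero_pow (by norm_num)] at h4
    exact hcK h4
  · rw [List.map_nil, List.prod_nil]
  · rw [h1, natDegree_one, pow_zero, map_one, map_one, mul_one, mul_one, mul_pow, ← map_pow, ← h4]

end Pool.Agent.Q45.TW
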