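import Pool.Agent.Q45.TW.Uni

/-!
# Generic points
-/

set_option autoImplicit false
set_option linter.all false

open Polynomial IsDedekindDomain WithZero UniqueFactorizationMonoid
open scoped Classical

namespace Pool.Agent.Q45.TW

section gnr

variable {k₀ k₁ : Type} [Field k₀] [Field k₁] {r : ℕ} [Algebra (MvPolynomial (Fin r) k₀) k₁]
  [IsFractionRing (MvPolynomial (Fin r) k₀) k₁]

/-- The constants. -/
noncomputable def j0 (k₀ k₁ : Type) [Field k₀] [Field k₁] (r : ℕ)
    [Algebra (MvPolynomial (Fin r) k₀) k₁] : k₀ →+* k₁ :=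
  (algebraMap (MvPolynomial (Fin r) k₀) k₁).comp MvPolynomial.C

/-- The generic points. -/
noncomputable def xi (k₀ k₁ : Type) [Field k₀] [Field k₁] (r : ℕ)
    [Algebra (MvPolynomial (Fin r) k₀) k₁] (i : Fin r) : k₁ :=
  algebraMap (MvPolynomial (Fin r) k₀) k₁ (MvPolynomial.X i)

/-- Specialisation. -/
noncomputable def sp (u : Fin r → k₀[X]) : MvPolynomial (Fin r) k₀ →+* k₀[X] :=
  MvPolynomial.eval₂Hom C u

theorem sp_X (u : Fin r → k₀[X]) (i : Fin r) : sp u (MvPolynomial.X i) = u i :=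
  MvPolynomial.eval₂Hom_X' _ _ _

/-- The value of a polynomial with constant coefficients. -/
noncomputable def vl (f₀ : k₀[X]) (i : Fin r) : MvPolynomial (Fin r) k₀ :=
  eval₂ MvPolynomial.C (MvPolynomial.X i) f₀

theorem vl_map (f₀ : k₀[X]) (i : Fin r) :
    algebraMap (MvPolynomial (Fin r) k₀) k₁ (vl f₀ i) =
      eval (xi k₀ k₁ r i) (f₀.map (j0 k₀ k₁ r)) := by
  unfold vl xi j0
  rw [hom_eval₂, eval_map]

theorem sp_vl (u : Fin r → k₀[X]) (f₀ : k₀[X]) (i : Fin r) : sp u (vl f₀ i) = f₀.comp (u i) := by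
  unfold vl
  rw [hom_eval₂, sp_X]
  unfold comp
  congr 1
  exact RingHom.ext fun a => MvPolynomial.eval₂Hom_C _ _ _

theorem comp_CC (f₀ : k₀[X]) (a : k₀) : f₀.comp (C a) = C (eval a f₀) := by
  rw [comp_C]

/-- A polynomial of degree `> 1` is not of degree `1`. -/
theorem not_lin {f₀ : k₀[X]} (hf : f₀.Monic) (hn : 1 < f₀.natDegree) (a b : k₀) :
    f₀ ≠ C a + C b * X := by
  intro h
  have h1 : (C a + C b * X : k₀[X]).natDegree ≤ 1 := by
    rw [add_comm]
    exact natDegree_linear_le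
  rw [← h] at h1
  omega

variable (k₁)

theorem gen_inj : Function.Injective (algebraMap (MvPolynomial (Fin r) k₀) k₁) :=
  IsFractionRing.injective _ _

theorem der_rel (F : k₁[X]) (x z : k₁) (h : eval z (derivative (Ph F x)) = 0) :
    eval z F - eval x F = (z - x) * eval z (derivative F) := by
  have h1 := congrArg (fun p => eval z (derivative p)) (Ph_spec F x)
  simp only [derivative_sub, derivative_C, sub_zero, derivative_mul, derivative_X, eval_add, eval_mul,
    one_mul, eval_sub, eval_X, eval_C, h, mul_zero, add_zero] at h1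
  rw [Ph_eval, h1]

theorem gnr {f₀ : k₀[X]} (hf : f₀.Monic) (hn : 1 < f₀.natDegree) :
    GenPt (f₀.map (j0 k₀ k₁ r)) (xi k₀ k₁ r) := by
  set F := f₀.map (j0 k₀ k₁ r) with hF
  have hder : derivative F = (derivative f₀).map (j0 k₀ k₁ r) := by rw [hF, derivative_map]
  refine ⟨fun s h0 => ?_, fun s i hi h0 => ?_, fun s i hi h0 => ?_, fun s i j hi hj hij h0 => ?_,
    fun s U hs hU w hw => ?_⟩
  · have h1 := der_rel k₁ F (xi k₀ k₁ r s) 0 (by rw [h0, eval_zero])
    have h3 : algebraMap (MvPolynomial (Fin r) k₀) k₁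
        (MvPolynomial.C (eval 0 f₀) - vl f₀ s + MvPolynomial.X s *
          MvPolynomial.C (eval 0 (derivative f₀))) = 0 := by
      rw [map_add, map_sub, map_mul, vl_map]
      have e1 : algebraMap (MvPolynomial (Fin r) k₀) k₁ (MvPolynomial.C (eval 0 f₀)) = eval 0 F := by
        rw [hF, eval_map, ← (j0 k₀ k₁ r).map_zero, eval₂_at_apply]
        rfl
      have e2 : algebraMap (MvPolynomial (Fin r) k₀) k₁ (MvPolynomial.C (eval 0 (derivative f₀))) =
          eval 0 (derivative F) := by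
        rw [hder, eval_map, ← (j0 k₀ k₁ r).map_zero, eval₂_at_apply]
        rfl
      rw [e1, e2]
      change eval 0 F - eval (xi k₀ k₁ r s) F + xi k₀ k₁ r s * eval 0 (derivative F) = 0
      linear_combination h1
    have h4 := gen_inj k₁ (h3.trans (map_zero _).symm)
    have h5 := congrArg (sp fun _ => X) h4
    rw [map_add, map_sub, map_mul, sp_vl, sp_X, map_zero, comp_X] at h5
    have e3 : ∀ a : k₀, sp (r := r) (fun _ => (X : k₀[X])) (MvPolynomial.C a) = C a := fun a =>
      MvPolynomial.eval₂Hom_C _ _ _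
    rw [e3, e3] at h5
    exact not_lin hf hn (eval 0 f₀) (eval 0 (derivative f₀)) (by linear_combination -h5)
  · have h1 := gen_inj k₁ h0
    exact hi (MvPolynomial.X_injective h1)
  · have h1 := der_rel k₁ F (xi k₀ k₁ r s) (xi k₀ k₁ r i) h0
    have h3 : algebraMap (MvPolynomial (Fin r) k₀) k₁ (vl f₀ i - vl f₀ s) =
        algebraMap (MvPolynomial (Fin r) k₀) k₁
          ((MvPolynomial.X i - MvPolynomial.X s) * vl (derivative f₀) i) := by
      rw [map_sub, map_mul, map_sub, vl_map, vl_map, vl_map, ← hder, ← hF]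
      exact h1
    have h4 := congrArg (sp fun l => if l = s then X else 0) (gen_inj k₁ h3)
    rw [map_sub, map_mul, map_sub, sp_vl, sp_vl, sp_vl, sp_X, sp_X, if_neg hi, if_pos rfl, comp_X,
      ← C_0, comp_CC, comp_CC, C_0] at h4
    exact not_lin hf hn (eval 0 f₀) (eval 0 (derivative f₀)) (by linear_combination -h4)
  · have h1 : eval (xi k₀ k₁ r i) F - eval (xi k₀ k₁ r s) F =
        (xi k₀ k₁ r i - xi k₀ k₁ r s) * eval (xi k₀ k₁ r i) (Ph F (xi k₀ k₁ r s)) := Ph_eval _ _ _
    have h2 : eval (xi k₀ k₁ r j) F - eval (xi k₀ k₁ r s) F =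
        (xi k₀ k₁ r j - xi k₀ k₁ r s) * eval (xi k₀ k₁ r j) (Ph F (xi k₀ k₁ r s)) := Ph_eval _ _ _
    have h3 : algebraMap (MvPolynomial (Fin r) k₀) k₁
        ((vl f₀ i - vl f₀ s) * (MvPolynomial.X j - MvPolynomial.X s)) =
        algebraMap (MvPolynomial (Fin r) k₀) k₁
        ((vl f₀ j - vl f₀ s) * (MvPolynomial.X i - MvPolynomial.X s)) := by
      rw [map_mul, map_mul, map_sub, map_sub, map_sub, map_sub, vl_map, vl_map, vl_map, ← hF]
      change (eval (xi k₀ k₁ r i) F - eval (xi k₀ k₁ r s) F) * (xi k₀ k₁ r j - xi k₀ k₁ r s) =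
        (eval (xi k₀ k₁ r j) F - eval (xi k₀ k₁ r s) F) * (xi k₀ k₁ r i - xi k₀ k₁ r s)
      rw [h1, h2, h0]
      ring
    have h4 := congrArg (sp fun l => if l = s then 0 else if l = i then 1 else X) (gen_inj k₁ h3)
    rw [map_mul, map_mul, map_sub, map_sub, map_sub, map_sub, sp_vl, sp_vl, sp_vl, sp_X, sp_X, sp_X,
      if_pos rfl, if_neg hi, if_neg hj, if_pos rfl, if_neg (Ne.symm hij), comp_X, ← C_0, comp_CC,
      ← C_1, comp_CC, C_0, C_1] at h4
    exact not_lin hf hn (eval 0 f₀) (eval 1 f₀ - eval 0 f₀) (by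
      rw [C_sub]
      linear_combination -h4)
  · have h1 : ∏ i ∈ U, (xi k₀ k₁ r i - xi k₀ k₁ r s) = algebraMap (MvPolynomial (Fin r) k₀) k₁
        (∏ i ∈ U, (MvPolynomial.X i - MvPolynomial.X s)) := by
      rw [map_prod]
      refine Finset.prod_congr rfl fun i _ => ?_
      rw [map_sub]
      rfl
    rw [h1] at hw
    have h3 : IsIntegral (MvPolynomial (Fin r) k₀) w := by
      refine IsIntegral.of_pow (n := 2) (by norm_num) ?_
      rw [← hw]
      exact isIntegral_algebraMap
    obtain ⟨b, rfl⟩ := IsIntegrallyClosed.isIntegral_iff.1 h3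
    rw [← map_pow] at hw
    have h4 := gen_inj k₁ hw
    obtain ⟨i0, hi0⟩ := Finset.nonempty_iff_ne_empty.2 hU
    have h5 := congrArg (sp fun l => if l = s then 0 else if l = i0 then X else 1) h4
    rw [map_prod, map_pow, Finset.prod_eq_single i0] at h5
    · have h7 : i0 ≠ s := fun h => hs (h ▸ hi0)
      rw [map_sub, sp_X, sp_X, if_pos rfl, if_neg h7, if_pos rfl, sub_zero] at h5
      have h6 := congrArg natDegree h5
      rw [natDegree_X, natDegree_pow] at h6
      omega
    · intro i hi hne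
      have h7 : i ≠ s := fun h => hs (h ▸ hi)
      rw [map_sub, sp_X, sp_X, if_pos rfl, if_neg h7, if_neg hne, sub_zero]
    · exact fun h => absurd hi0 h

end gnr

end Pool.Agent.Q45.TW
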