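import Pool.Agent.Q45.TW.Pt

/-!
# The conditions of the steps for irreducible polynomials
-/

set_option autoImplicit false
set_option linter.all false

open Polynomial IsDedekindDomain WithZero UniqueFactorizationMonoid
open scoped Classical

namespace Pool.Agent.Q45.TW

section ic

variable {k : Type} [Field k]

/-- A constant which is a square modulo an irreducible polynomial of odd degree is a square. -/
theorem odd_sq {G : k[X]} (hG : Irreducible G) (hodd : Odd G.natDegree) {D : k} {w : k[X]}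
    (h : G ∣ C D - w ^ 2) : ∃ e : k, D = e ^ 2 := by
  haveI : Fact (Irreducible G) := ⟨hG⟩
  haveI : FiniteDimensional k (AdjoinRoot G) := (AdjoinRoot.powerBasis hG.ne_zero).finite
  have h1 : Module.finrank k (AdjoinRoot G) = G.natDegree := by
    rw [(AdjoinRoot.powerBasis hG.ne_zero).finrank, AdjoinRoot.powerBasis_dim]
  have h3 : algebraMap k (AdjoinRoot G) D = AdjoinRoot.mk G w ^ 2 := by
    rw [← AdjoinRoot.mk_eq_mk, map_pow] at h
    exact h
  have h4 := congrArg (Algebra.norm k) h3
  rw [Algebra.norm_algebraMap, map_pow, h1] at h4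
  obtain ⟨m, hm⟩ := hodd
  rw [hm] at h4
  by_cases hD : D = 0
  · exact ⟨0, by rw [hD]; ring⟩
  · refine ⟨Algebra.norm k (AdjoinRoot.mk G w) / D ^ m, ?_⟩
    rw [div_pow, ← h4]
    field_simp
    ring

variable {ι : Type} {g : k[X]} {c : ι → k}

/-- The conditions for an irreducible polynomial. -/
theorem step_irr (hg : g.Monic) (hodd : Odd g.natDegree) {s : ι} {l : List ι}
    (hFs : Irreducible (g - C (c s))) (hF : ∀ i ∈ l, Irreducible (g - C (c i)))
    (hsep : (g - C (c s)).Separable) (hnd : l.Nodup)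
    (hA : ∀ I : Finset ι, I ⊆ l.toFinset → ∀ w : k, ∏ i ∈ I, (c i - c s) = w ^ 2 → I = ∅) :
    StepC g (l.map c) (c s) := by
  have hg0 := hodd.pos
  have hcs : ∀ i ∈ l, c i - c s ≠ 0 := by
    intro i hi h0
    have h1 := hA {i} (by rw [Finset.singleton_subset_iff, List.mem_toFinset]; exact hi) 0 (by
        rw [Finset.prod_singleton, h0]
        norm_num)
    exact Finset.singleton_ne_empty i h1
  refine ⟨fun h0 => ?_, hsep, fun G hGm hGi hGd => ?_, fun a ha had hcond => ?_⟩
  · obtain ⟨i, hi, h1⟩ := List.mem_map.1 h0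
    exact hcs i hi (sub_eq_zero.2 h1)
  · intro I' hI' hne w hw
    obtain ⟨l', hl', rfl⟩ := List.sublist_map_iff.1 hI'
    obtain ⟨h1, h3⟩ := finset_of_list hnd hl'
    have hG : G = g - C (c s) := eq_of_monic_of_associated hGm (sub_monic hg hg0 _)
      (hGi.associated_of_dvd hFs hGd)
    rw [List.map_map] at hw
    have e1 : (l'.map ((fun c' => -g + C c') ∘ c)).prod = ∏ i ∈ l'.toFinset, (-g + C (c i)) := h3 _
    rw [e1] at hw
    have h4 : G ∣ C (∏ i ∈ l'.toFinset, (c i - c s)) - ∏ i ∈ l'.toFinset, (-g + C (c i)) := by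
      rw [← AdjoinRoot.mk_eq_mk, map_prod, map_prod, map_prod]
      refine Finset.prod_congr rfl fun i _ => ?_
      rw [AdjoinRoot.mk_eq_mk]
      have h5 : C (c i - c s) - (-g + C (c i)) = g - C (c s) := by
        rw [C_sub]
        ring
      rw [h5]
      exact hGd
    have h6 := dvd_add h4 hw
    have h7 : C (∏ i ∈ l'.toFinset, (c i - c s)) - ∏ i ∈ l'.toFinset, (-g + C (c i)) +
        (∏ i ∈ l'.toFinset, (-g + C (c i)) - w ^ 2) = C (∏ i ∈ l'.toFinset, (c i - c s)) - w ^ 2 := by
      ring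
    rw [h7] at h6
    obtain ⟨e, he⟩ := odd_sq hGi (by rw [hG, natDegree_sub_C]; exact hodd) h6
    have h8 := hA _ h1 e he
    rw [List.toFinset_eq_empty_iff] at h8
    exact hne (by rw [h8, List.map_nil])
  · have had' : a ∣ ∏ i ∈ l.toFinset, (g - C (c i)) := by
      rw [List.map_map] at had
      have h1 : (l.map ((fun c' => g - C c') ∘ c)).prod = ∏ i ∈ l.toFinset, (g - C (c i)) :=
        (List.prod_toFinset _ hnd).symm
      rwa [h1] at had
    obtain ⟨U, V, hU, hV, hUP, hUV⟩ := monic_fac (P := fun _ => False) (x := fun _ => 0)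
      (q := fun i => g - C (c i)) hg hg0 l.toFinset
      (fun i hi => ⟨fun h => h.elim, fun _ => rfl, hF i (List.mem_toFinset.1 hi)⟩) a ha had'
    have hU0 : U = ∅ := Finset.eq_empty_of_forall_notMem fun i hi => hUP i hi
    obtain ⟨l', hl', hlp⟩ := list_of_finset hnd V hV
    refine ⟨l'.map c, hl'.map c, ?_⟩
    rw [List.map_map]
    have h5 : (l'.map ((fun c' => g - C c') ∘ c)).prod = ∏ i ∈ V, (g - C (c i)) := hlp _
    rw [h5, hUV, hU0, Finset.prod_empty, one_mul]

end ic

end Pool.Agent.Q45.TW
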