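import Pool.Agent.Q45.TW.Main
import Pool.Agent.Y627.FT.Lin

/-!
# Independence of the classes of the divisors
-/

set_option autoImplicit false
set_option linter.all false

open Polynomial IsDedekindDomain WithZero UniqueFactorizationMonoid
open scoped Classical

namespace Pool.Agent.Q45.TW

section mult

variable {k : Type} [Field k]

/-- The multiplicity. -/
noncomputable def vG (G p : k[X]) : ℕ := (normalizedFactors p).count G

variable {G p q : k[X]}

theorem vG_mul (hp : p ≠ 0) (hq : q ≠ 0) : vG G (p * q) = vG G p + vG G q := by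
  unfold vG
  rw [normalizedFactors_mul hp hq, Multiset.count_add]

theorem vG_one : vG G (1 : k[X]) = 0 := by
  unfold vG
  rw [normalizedFactors_one, Multiset.count_zero]

theorem vG_pow (n : ℕ) : vG G (p ^ n) = n * vG G p := by
  unfold vG
  rw [normalizedFactors_pow, Multiset.count_nsmul]

theorem vG_assoc (hp : p ≠ 0) (hq : q ≠ 0) (h : Associated p q) : vG G p = vG G q := by
  unfold vG
  rw [(associated_iff_normalizedFactors_eq_normalizedFactors hp hq).1 h]

theorem vG_neg (hp : p ≠ 0) : vG G (-p) = vG G p :=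
  vG_assoc (neg_ne_zero.2 hp) hp ((Associated.refl p).neg_left)

theorem vG_zero (h : ¬ G ∣ p) : vG G p = 0 := by
  unfold vG
  rw [Multiset.count_eq_zero]
  exact fun h1 => h (dvd_of_mem_normalizedFactors h1)

theorem vG_sep (hs : p.Separable) (hm : G.Monic) (hi : Irreducible G) (h : G ∣ p) : vG G p = 1 := by
  unfold vG
  refine Multiset.count_eq_one_of_mem ?_ ?_
  · exact (squarefree_iff_nodup_normalizedFactors hs.ne_zero).1 hs.squarefree
  · exact (Polynomial.mem_normalizedFactors_iff hs.ne_zero).2 ⟨hi, hm, h⟩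

theorem vG_self (hm : G.Monic) (hi : Irreducible G) : vG G G = 1 := by
  unfold vG
  rw [normalizedFactors_irreducible hi, hm.normalize_eq_self, Multiset.count_singleton_self]

/-- A polynomial with even multiplicities is a constant times a square. -/
theorem not_both {g : k[X]} {c c' : k} (hG : Irreducible G) (h : G ∣ g - C c) (h' : G ∣ g - C c') :
    c = c' := by
  by_contra hne
  have h1 := dvd_sub h h'
  have h3 : (g - C c - (g - C c') : k[X]) = C (c' - c) := by
    rw [C_sub]
    ring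
  rw [h3] at h1
  exact hG.not_isUnit (isUnit_of_dvd_unit h1 (isUnit_C.2 (IsUnit.mk0 _ (sub_ne_zero.2 (Ne.symm hne)))))

theorem dvd_neg_add {g : k[X]} {c : k} : G ∣ -g + C c ↔ G ∣ g - C c := by
  have h1 : (-g + C c : k[X]) = -(g - C c) := by ring
  rw [h1, dvd_neg]

/-- The multiplicity of a product of the `-g + c`. -/
theorem vG_prod {g : k[X]} {cs : List k} (hsep : ∀ c ∈ cs, (g - C c).Separable) {c0 : k}
    (hm : G.Monic) (hi : Irreducible G) (h0 : G ∣ g - C c0) :
    ∀ I : List k, (∀ c ∈ I, c ∈ cs) → I.Nodup → (I.map fun c => -g + C c).prod ≠ 0 ∧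
      vG G ((I.map fun c => -g + C c).prod) = if c0 ∈ I then 1 else 0 := by
  intro I
  induction I with
  | nil =>
    intro _ _
    rw [List.map_nil, List.prod_nil, if_neg List.not_mem_nil]
    exact ⟨one_ne_zero, vG_one⟩
  | cons c I ih =>
    intro hI hn
    obtain ⟨hc, hn'⟩ := List.nodup_cons.1 hn
    obtain ⟨ih1, ih2⟩ := ih (fun c hc => hI c (List.mem_cons_of_mem _ hc)) hn'
    have hs := hsep c (hI c List.mem_cons_self)
    have e : (-g + C c : k[X]) = -(g - C c) := by ring
    have hne : (-g + C c : k[X]) ≠ 0 := by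
      rw [e]
      exact neg_ne_zero.2 hs.ne_zero
    rw [List.map_cons, List.prod_cons]
    refine ⟨mul_ne_zero hne ih1, ?_⟩
    rw [vG_mul hne ih1, ih2, e, vG_neg hs.ne_zero]
    by_cases h1 : c0 = c
    · subst h1
      rw [vG_sep hs hm hi h0, if_neg hc, if_pos List.mem_cons_self]
    · have h3 : ¬ G ∣ g - C c := fun h3 => h1 (not_both hi h0 h3)
      rw [vG_zero h3, zero_add]
      by_cases h4 : c0 ∈ I
      · rw [if_pos h4, if_pos (List.mem_cons_of_mem _ h4)]
      · rw [if_neg h4, if_neg]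
        exact fun h5 => (List.mem_cons.1 h5).elim h1 h4

/-- Squares of rational functions. -/
theorem sq_poly {κ : Type} [Field κ] [Algebra k[X] κ] [IsFractionRing k[X] κ] {a : k[X]} {w : κ}
    (h : algebraMap k[X] κ a = w ^ 2) : ∃ b : k[X], a = b ^ 2 := by
  have h1 : IsIntegral k[X] w := by
    refine IsIntegral.of_pow (n := 2) (by norm_num) ?_
    rw [← h]
    exact isIntegral_algebraMap
  obtain ⟨b, rfl⟩ := IsIntegrallyClosed.isIntegral_iff.1 h1
  refine ⟨b, IsFractionRing.injective k[X] κ ?_⟩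
  rw [h, map_pow]

end mult

section ind

variable {k : Type} [Field k] {g : k[X]} {cs : List k} {R L : Type} [CommRing R] [IsDomain R]
  [Algebra k[X] R] {yR : k → R} [Field L] [Algebra R L] [IsFractionRing R L]

/-- The polynomials which become squares in the tower. -/
theorem sq_tower (h2 : (2 : k) ≠ 0) (hnd : cs.Nodup) (hsep : ∀ c ∈ cs, (g - C c).Separable)
    (hu : ∀ c ∈ cs, ¬ IsUnit (g - C c)) (H : IsTw (fun c => -g + C c) cs R yR) {a : k[X]} {w : L}
    (hw : algebraMap R L (algebraMap k[X] R a) = w ^ 2) :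
    ∃ (I : List k) (b : k[X]), I.Sublist cs ∧ a * (I.map fun c => -g + C c).prod = b ^ 2 := by
  let κ := FractionRing k[X]
  have h2κ : (2 : κ) ≠ 0 := by
    have h3 : (2 : κ) = algebraMap k[X] κ (C 2) := by
      rw [show (C (2 : k) : k[X]) = 2 from rfl, map_ofNat]
    rw [h3]
    intro h0
    exact h2 (C_eq_zero.1 (IsFractionRing.injective k[X] κ (by rw [h0, map_zero])))
  let α : k → κ := fun c => algebraMap k[X] κ (-g + C c)
  have hap : ∀ I : List k, (I.map α).prod = algebraMap k[X] κ (I.map fun c => -g + C c).prod := by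
    intro I
    rw [map_list_prod, List.map_map]
    rfl
  obtain ⟨E, iE, aE, yE, hE, hsq⟩ := field_tower h2κ α cs hnd (fun I hI1 hI0 w hw => by
    rw [hap] at hw
    obtain ⟨b, hb⟩ := sq_poly hw
    obtain ⟨c0, hc0⟩ := List.exists_mem_of_ne_nil I hI0
    have hc0' := hI1.subset hc0
    obtain ⟨G, hG⟩ := WfDvdMonoid.exists_irreducible_factor (hu c0 hc0') (hsep c0 hc0').ne_zero
    have hG' : normalize G ∣ g - C c0 := (normalize_associated G).dvd.trans hG.2
    have hGi : Irreducible (normalize G) := (normalize_associated G).symm.irreducible hG.1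
    have hGm : (normalize G).Monic := Polynomial.monic_normalize hG.1.ne_zero
    obtain ⟨h3, h4⟩ := vG_prod hsep hGm hGi hG' I (fun c hc => hI1.subset hc) (hI1.nodup hnd)
    rw [if_pos hc0, hb, vG_pow] at h4
    omega)
  obtain ⟨ψ, hψ1, hψ2⟩ := H.lift E ((algebraMap κ E).comp (algebraMap k[X] κ)) yE
    (fun c hc => hE.sq c hc)
  haveI := H.integral
  have hinj : Function.Injective ψ := by
    refine inj_of_integral (S := k[X]) ψ ?_
    have h1 : ψ.comp (algebraMap k[X] R) = (algebraMap κ E).comp (algebraMap k[X] κ) :=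
      RingHom.ext hψ1
    rw [h1]
    exact (algebraMap κ E).injective.comp (IsFractionRing.injective k[X] κ)
  letI : Algebra R E := ψ.toAlgebra
  have hinj' : Function.Injective (algebraMap R E) := hinj
  let Ψ : L →+* E := IsFractionRing.lift hinj'
  have hΨ : ∀ r, Ψ (algebraMap R L r) = ψ r := fun r => IsFractionRing.lift_algebraMap hinj' r
  obtain ⟨I, v, hI, hv⟩ := hsq (algebraMap k[X] κ a) ⟨Ψ w, by
    rw [← map_pow, ← hw, hΨ]
    exact hψ1 a⟩
  rw [hap, ← map_mul] at hv
  obtain ⟨b, hb⟩ := sq_poly hv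
  exact ⟨I, b, hI, hb⟩

/-- The independence. -/
theorem sq_ind (h2 : (2 : k) ≠ 0) (hnd : cs.Nodup) (hsep : ∀ c ∈ cs, (g - C c).Separable)
    (hu : ∀ c ∈ cs, ¬ IsUnit (g - C c)) (H : IsTw (fun c => -g + C c) cs R yR) {a : k[X]}
    (ha : a ≠ 0) {w : L} (hw : algebraMap R L (algebraMap k[X] R a) = w ^ 2)
    (hG : ∀ c ∈ cs, ∃ G : k[X], G.Monic ∧ Irreducible G ∧ G ∣ g - C c ∧ ¬ G ∣ a) :
    ∃ b : k[X], a = b ^ 2 := by
  obtain ⟨I, b, hI, hb⟩ := sq_tower h2 hnd hsep hu H hw
  have h0 : I = [] := by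
    by_contra h0
    obtain ⟨c0, hc0⟩ := List.exists_mem_of_ne_nil I h0
    obtain ⟨G, hGm, hGi, hGd, hGa⟩ := hG c0 (hI.subset hc0)
    obtain ⟨h3, h4⟩ := vG_prod hsep hGm hGi hGd I (fun c hc => hI.subset hc) (hI.nodup hnd)
    have h5 := vG_mul (G := G) ha h3
    rw [hb, vG_pow, vG_zero hGa, h4, if_pos hc0] at h5
    omega
  subst h0
  rw [List.map_nil, List.prod_nil, mul_one] at hb
  exact ⟨b, hb⟩

end ind

end Pool.Agent.Q45.TW
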