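import Pool.Agent.Q45.TW.Bas

/-!
# Irreducible polynomials over the constants stay irreducible
-/

set_option autoImplicit false
set_option linter.all false

open Polynomial IsDedekindDomain WithZero
open scoped Classical

namespace Pool.Agent.Q45.TW

theorem IsTw.reindex {ι ι' S R : Type} [CommRing S] [CommRing R] [Algebra S R] {a : ι → S}
    {j : ι' → ι} (hj : Function.Injective j) {cs : List ι'} {y : ι → R}
    (H : IsTw a (cs.map j) R y) : IsTw (a ∘ j) cs R (y ∘ j) := by
  refine ⟨fun c hc => H.sq (j c) (List.mem_map_of_mem hc), fun T h1 h2 x => ?_, fun B _ φ b hb => ?_⟩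
  · refine H.gen T h1 (fun c hc => ?_) x
    obtain ⟨c', hc', rfl⟩ := List.mem_map.1 hc
    exact h2 c' hc'
  · obtain ⟨ψ, h1, h2⟩ := H.lift B φ (Function.extend j b 0) (fun c hc => by
      obtain ⟨c', hc', rfl⟩ := List.mem_map.1 hc
      rw [hj.extend_apply]
      exact hb c' hc')
    refine ⟨ψ, h1, fun c hc => ?_⟩
    have h3 := h2 (j c) (List.mem_map_of_mem hc)
    rw [hj.extend_apply] at h3
    exact h3

/-- Irreducible polynomials over the constants stay irreducible over the function field. -/
theorem irrG {k : Type} [Field k] (h2 : (2 : k) ≠ 0) {cs : List k} (hnd : cs.Nodup) {A K : Type}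
    [CommRing A] [IsDedekindDomain A] [Algebra k[X] A] {yA : k → A} [Field K] [Algebra A K]
    [IsFractionRing A K] (HA : IsTw (fun c => X + C c) cs A yA) {G : k[X]} (hGm : G.Monic)
    (hG : Irreducible G) : Irreducible (G.map ((algebraMap A K).comp (cst k A))) := by
  haveI : Fact (Irreducible G) := ⟨hG⟩
  let E := AdjoinRoot G
  let j : k →+* E := algebraMap k E
  have h2E : (2 : E) ≠ 0 := by
    have h3 : (2 : E) = j 2 := by rw [map_ofNat]
    rw [h3]
    exact (_root_.map_ne_zero _).2 h2
  obtain ⟨B, iB, iD, iA, yB, HB0⟩ := exists_ded h2E X (fun c => not_isUnit_X_add_C c) (cs.map j)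
    (hnd.map j.injective) (fun c _ => separable_X_add_C c)
  have HB := HB0.reindex j.injective
  -- `A → B`
  obtain ⟨α, hα1, hα2⟩ := HA.lift B ((algebraMap E[X] B).comp (mapRingHom j))
    (fun c => yB (j c)) (fun c hc => by
      have h3 := HB.sq c hc
      show yB (j c) ^ 2 = algebraMap E[X] B ((X + C c).map j)
      rw [Polynomial.map_add, map_X, map_C]
      exact h3)
  have hα1' : ∀ p, α (algebraMap k[X] A p) = algebraMap E[X] B (p.map j) := fun p => hα1 p
  have hαc : α.comp (cst k A) = ((algebraMap E[X] B).comp C).comp j := RingHom.ext fun x => by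
    show α (algebraMap k[X] A (C x)) = algebraMap E[X] B (C (j x))
    rw [hα1', map_C]
  set GA : A[X] := G.map (cst k A) with hGA
  let γ : AdjoinRoot GA →+* B := AdjoinRoot.lift α (algebraMap E[X] B (C (AdjoinRoot.root G))) (by
    rw [hGA, eval₂_map, hαc]
    have h3 : algebraMap E[X] B (C (AdjoinRoot.root G)) =
        ((algebraMap E[X] B).comp C) (AdjoinRoot.root G) := rfl
    rw [h3, ← hom_eval₂]
    have h4 : eval₂ j (AdjoinRoot.root G) G = 0 := AdjoinRoot.eval₂_root G
    rw [h4, map_zero])
  -- `B → A[x] / (G)`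
  let ι : E →+* AdjoinRoot GA := AdjoinRoot.lift ((AdjoinRoot.of GA).comp (cst k A))
    (AdjoinRoot.root GA) (by
      rw [← eval₂_map]
      exact AdjoinRoot.eval₂_root GA)
  let Φ : E[X] →+* AdjoinRoot GA := eval₂RingHom ι (AdjoinRoot.of GA (algebraMap k[X] A X))
  have hι : ∀ x, ι (j x) = AdjoinRoot.of GA (cst k A x) := fun x => by
    have h3 : j x = AdjoinRoot.of G x := rfl
    show AdjoinRoot.lift _ _ _ (j x) = _
    rw [h3, AdjoinRoot.lift_of]
    rfl
  have hΦ : ∀ p : k[X], Φ (p.map j) = AdjoinRoot.of GA (algebraMap k[X] A p) := by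
    have h3 : Φ.comp (mapRingHom j) = (AdjoinRoot.of GA).comp (algebraMap k[X] A) := by
      apply Polynomial.ringHom_ext
      · intro x
        show eval₂ ι _ ((C x).map j) = _
        rw [map_C, eval₂_C, hι]
        rfl
      · show eval₂ ι _ (X.map j) = _
        rw [map_X, eval₂_X]
        rfl
    exact fun p => congrArg (fun f : k[X] →+* AdjoinRoot GA => f p) h3
  obtain ⟨β, hβ1, hβ2⟩ := HB.lift (AdjoinRoot GA) Φ (fun c => AdjoinRoot.of GA (yA c))
    (fun c hc => by
      rw [← map_pow, HA.sq c hc]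
      have h3 := hΦ (X + C c)
      rw [Polynomial.map_add, map_X, map_C] at h3
      exact h3.symm)
  have hβγ : β.comp γ = RingHom.id _ := by
    refine AdjoinRoot.ringHom_ext ?_ ?_
    · refine HA.hom_ext (fun p => ?_) fun c hc => ?_
      · show β (γ (AdjoinRoot.of _ (algebraMap k[X] A p))) = AdjoinRoot.of _ (algebraMap k[X] A p)
        rw [AdjoinRoot.lift_of, hα1', hβ1, hΦ]
      · show β (γ (AdjoinRoot.of _ (yA c))) = AdjoinRoot.of _ (yA c)
        rw [AdjoinRoot.lift_of, hα2 c hc]
        exact hβ2 c hc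
    · show β (γ (AdjoinRoot.root _)) = AdjoinRoot.root _
      rw [AdjoinRoot.lift_root, hβ1]
      show eval₂ ι _ (C (AdjoinRoot.root G)) = _
      rw [eval₂_C]
      exact AdjoinRoot.lift_root _
  have hinj : Function.Injective γ := by
    intro x z hxz
    have h3 := congrArg β hxz
    have h4 : ∀ x, β (γ x) = x := fun x => congrArg (fun f : AdjoinRoot GA →+* AdjoinRoot GA => f x) hβγ
    rwa [h4, h4] at h3
  haveI : IsDomain (AdjoinRoot GA) := hinj.isDomain γ
  have h1 : (Ideal.span {GA}).IsPrime := (Ideal.Quotient.isDomain_iff_prime _).1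
    (inferInstance : IsDomain (AdjoinRoot GA))
  have hGAm : GA.Monic := hGm.map _
  have h3 : Prime GA := (Ideal.span_singleton_prime hGAm.ne_zero).1 h1
  have h4 := (hGAm.irreducible_iff_irreducible_map_fraction_map (K := K)).1 h3.irreducible
  rw [hGA, Polynomial.map_map] at h4
  exact h4

end Pool.Agent.Q45.TW
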