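import Pool.Agent.Q45.TW.Rsd
import Pool.Agent.Y228.FT.TwA

/-!
# Quadratic extensions of Dedekind domains
-/

set_option autoImplicit false
set_option linter.all false

open Polynomial IsDedekindDomain WithZero
open scoped Classical

namespace Pool.Agent.Q45.TW

open Pool.Agent.Y160.FT (Kx)
open Pool.Agent.Y160.SE (IsPw)
open Pool.Agent.Y228.FT (val_unit)

section kx

variable {k A R L L' : Type} [Field k] [CommRing A] [IsDedekindDomain A] [Algebra k A]
  [CommRing R] [IsDedekindDomain R] [Algebra A R] [Field L] [Algebra R L] [IsFractionRing R L]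
  [Algebra k L] [Field L'] [Algebra A L'] [IsFractionRing A L'] [Algebra L' L] {π : A} {u : R}
  {σ : L ≃+* L}

section gen

variable (hLL : ∀ a : A, algebraMap L' L (algebraMap A L' a) = algebraMap R L (algebraMap A R a))

include hLL

theorem ext_val {P : HeightOneSpectrum R} {v : HeightOneSpectrum A} {e : ℕ}
    (h : ∀ a : A, P.valuation L (algebraMap R L (algebraMap A R a)) = v.intValuation a ^ e)
    (x : L') : P.valuation L (algebraMap L' L x) = v.valuation L' x ^ e := by
  obtain ⟨a, b, hb, rfl⟩ := IsFractionRing.div_surjective (A := A) x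
  rw [map_div₀, map_div₀, hLL, hLL, h, h, map_div₀, HeightOneSpectrum.valuation_of_algebraMap,
    HeightOneSpectrum.valuation_of_algebraMap, div_pow]

end gen

variable (hLL : ∀ a : A, algebraMap L' L (algebraMap A L' a) = algebraMap R L (algebraMap A R a))
  (hK : Kx 2 (-1 : k) π u σ)

include hLL hK

theorem fixL {z : L} (hz : σ z = z) : ∃ x : L', algebraMap L' L x = z := by
  obtain ⟨a, b, hb, h1⟩ := hK.fix z hz
  have hb0 : algebraMap A L' b ≠ 0 := by
    intro h0
    exact hb (IsFractionRing.injective A L' (by rw [h0, map_zero]))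
  have hb1 : algebraMap L' L (algebraMap A L' b) ≠ 0 := (_root_.map_ne_zero _).2 hb0
  refine ⟨algebraMap A L' a / algebraMap A L' b, ?_⟩
  rw [map_div₀, div_eq_iff hb1, hLL, hLL]
  exact h1.symm

theorem sig (x : L') : σ (algebraMap L' L x) = algebraMap L' L x := by
  obtain ⟨a, b, hb, rfl⟩ := IsFractionRing.div_surjective (A := A) x
  rw [map_div₀, map_div₀, hLL, hLL, hK.sa, hK.sa]

omit hLL in
theorem sig2 (z : L) : σ (σ z) = z := by
  have h1 := hK.sr z
  rw [pow_two] at h1
  exact h1

omit hLL in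
theorem uL0 (hπ : π ≠ 0) : algebraMap R L u ≠ 0 := by
  intro h0
  have h1 : u = 0 := IsFractionRing.injective R L (by rw [h0, map_zero])
  have h3 := hK.pw
  rw [h1, zero_pow (by norm_num)] at h3
  exact hπ (hK.inj (by rw [← h3, map_zero]))

omit hLL in
theorem sigu : σ (algebraMap R L u) = -algebraMap R L u := by
  rw [hK.su]
  have h1 : algebraMap k L (-1) = -1 := by rw [map_neg, map_one]
  rw [h1, neg_one_mul]

/-- An element of the base field which becomes a square. -/
theorem sq_desc (h2 : (2 : L') ≠ 0) (hπ : π ≠ 0) {n : L'} (hn : ∃ U : L, algebraMap L' L n = U ^ 2) :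
    ∃ v : L', n = v ^ 2 ∨ n * algebraMap A L' π = v ^ 2 := by
  obtain ⟨U, hU⟩ := hn
  have h1 : (σ U) ^ 2 = U ^ 2 := by
    rw [← map_pow, ← hU, sig hLL hK]
  have h3 : σ U = U ∨ σ U = -U := by
    have h4 : (σ U - U) * (σ U + U) = 0 := by linear_combination h1
    rcases mul_eq_zero.1 h4 with h5 | h5
    · exact Or.inl (sub_eq_zero.1 h5)
    · exact Or.inr (eq_neg_of_add_eq_zero_left h5)
  rcases h3 with h4 | h4
  · obtain ⟨v, hv⟩ := fixL hLL hK h4
    refine ⟨v, Or.inl ((algebraMap L' L).injective ?_)⟩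
    rw [hU, map_pow, hv]
  · have h5 : σ (U * algebraMap R L u) = U * algebraMap R L u := by
      rw [map_mul, h4, sigu hK]
      ring
    obtain ⟨v, hv⟩ := fixL hLL hK h5
    refine ⟨v, Or.inr ((algebraMap L' L).injective ?_)⟩
    rw [map_mul, hU, map_pow, hv, mul_pow, hLL, ← map_pow (algebraMap R L) u, hK.pw]

/-- Hilbert 90. -/
theorem hil {z : L} (hz : z ≠ 0) {x w : L'} (hx : algebraMap L' L x = z * σ z)
    (hw : x = w ^ 2) : ∃ (y : L) (w' : L'), y ≠ 0 ∧ w' ≠ 0 ∧ z * y ^ 2 = algebraMap L' L w' := by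
  have hw0 : w ≠ 0 := by
    rintro rfl
    rw [hw, zero_pow (by norm_num), map_zero] at hx
    exact mul_ne_zero hz ((_root_.map_ne_zero σ).2 hz) hx.symm
  have hw1 : algebraMap L' L w ≠ 0 := (_root_.map_ne_zero _).2 hw0
  obtain ⟨y, hy, hy2⟩ := hK.h90 (z / algebraMap L' L w) (by
    rw [Finset.prod_range_succ, Finset.prod_range_succ, Finset.prod_range_zero, one_mul, pow_zero,
      pow_one]
    show z / algebraMap L' L w * σ (z / algebraMap L' L w) = 1
    rw [map_div₀, sig hLL hK, div_mul_div_comm, ← hx, hw, map_pow, ← pow_two, div_self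
      (pow_ne_zero 2 hw1)])
  have h3 : σ (y * σ y) = y * σ y := by
    rw [map_mul, sig2 hK, mul_comm]
  obtain ⟨m, hm⟩ := fixL hLL hK h3
  have h5 : z * y ^ 2 = algebraMap L' L (w * m) := by
    rw [map_mul, hm, hy2]
    field_simp
  refine ⟨y, w * m, hy, ?_, h5⟩
  intro h0
  rw [h0, map_zero] at h5
  exact mul_ne_zero hz (pow_ne_zero 2 hy) h5

/-- The valuations of the norm of `z`. -/
theorem even_norm (hπ2 : ∀ v : HeightOneSpectrum A, v.intValuation π = 1 ∨
      v.intValuation π = exp (-1 : ℤ)) {z : L}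
    (hz : ∀ P : HeightOneSpectrum R, IsPw 2 (P.valuation L z)) {x : L'}
    (hx : algebraMap L' L x = z * σ z) (v : HeightOneSpectrum A) : IsPw 2 (v.valuation L' x) := by
  by_cases hv : v.intValuation π = 1
  · obtain ⟨P, hP⟩ := hK.unram v hv
    have h1 : P.valuation L (algebraMap L' L x) = v.valuation L' x ^ 1 :=
      ext_val hLL (fun a => by rw [hP, pow_one]) x
    rw [pow_one] at h1
    rw [← h1, hx, map_mul]
    obtain ⟨P', hP'⟩ := hK.perm P
    rw [hP']
    exact (hz P).mul (hz P')
  · obtain ⟨P, hP1, hP2, hP3, hP4⟩ := hK.ram v hv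
    have h1 := ext_val hLL hP1 x
    rw [hx, map_mul, hP3, ← pow_two] at h1
    have h3 : v.valuation L' x = P.valuation L z :=
      (pow_left_inj₀ zero_le zero_le (by norm_num)).1 h1.symm
    rw [h3]
    exact hz P

/-- The valuations of a generator modulo squares. -/
theorem even_unram {z y : L} (hz : ∀ P : HeightOneSpectrum R, IsPw 2 (P.valuation L z)) {w' : L'}
    (hw : z * y ^ 2 = algebraMap L' L w') (v : HeightOneSpectrum A) (hv : v.intValuation π = 1) :
    IsPw 2 (v.valuation L' w') := by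
  obtain ⟨P, hP⟩ := hK.unram v hv
  have h1 : P.valuation L (algebraMap L' L w') = v.valuation L' w' ^ 1 :=
    ext_val hLL (fun a => by rw [hP, pow_one]) w'
  rw [pow_one] at h1
  rw [← h1, ← hw, map_mul, map_pow]
  exact (hz P).mul (IsPw.self _)

/-- The local condition at a ramified prime. -/
theorem local_sq (hπ : π ≠ 0) {v : HeightOneSpectrum A} (hv : v.intValuation π ≠ 1) {z : L}
    (hz0 : z ≠ 0) (hz : ∀ P : HeightOneSpectrum R, IsPw 2 (P.valuation L z)) {x w : L'} {α : A}
    (hx : algebraMap L' L x = z * σ z) (hxw : x = w ^ 2 * algebraMap A L' α)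
    (hα : v.intValuation α = 1) :
    ∃ a b : A, b ∉ v.asIdeal ∧ b ^ 2 * α - a ^ 2 ∈ v.asIdeal := by
  obtain ⟨P, hP1, hP2, hP3, hP4⟩ := hK.ram v hv
  have hval : ∀ x : L', P.valuation L (algebraMap L' L x) = v.valuation L' x ^ 2 :=
    ext_val hLL hP1
  have hu0 := uL0 hK hπ
  -- the exponent
  obtain ⟨δ, hδ⟩ := hz P
  have hδ0 : δ ≠ 0 := by
    rintro rfl
    rw [zero_pow (by norm_num)] at hδ
    exact hz0 ((P.valuation L).zero_iff.1 hδ)
  obtain ⟨m, hm⟩ : ∃ m : ℤ, δ = exp m := ⟨_, (exp_log hδ0).symm⟩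
  -- the unit
  set z1 : L := z * (algebraMap R L u ^ m) ^ 2 with hz1
  have hPu : P.valuation L (algebraMap R L u ^ m) = exp (-m) := by
    rw [map_zpow₀, hP2, ← exp_zsmul]
    congr 1
    rw [smul_eq_mul]
    ring
  have hz1v : P.valuation L z1 = 1 := by
    rw [hz1, map_mul, map_pow, hPu, hδ, hm, ← mul_pow, ← exp_add, add_neg_cancel, exp_zero, one_pow]
  have hsu : σ (algebraMap R L u ^ m) ^ 2 = (algebraMap R L u ^ m) ^ 2 := by
    rw [map_zpow₀, sigu hK]
    have e1 : ∀ x : L, (x ^ m) ^ 2 = (x ^ 2) ^ m := fun x => by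
      rw [← zpow_natCast, ← zpow_mul, mul_comm, zpow_mul, zpow_natCast]
    rw [e1, e1, neg_sq]
  have hsz1 : σ z1 = σ z * (algebraMap R L u ^ m) ^ 2 := by
    rw [hz1, map_mul, map_pow, hsu]
  have hu2 : (algebraMap R L u) ^ 2 = algebraMap L' L (algebraMap A L' π) := by
    rw [hLL, ← map_pow, hK.pw]
  set w1 : L' := w * algebraMap A L' π ^ m with hw1
  have hprod : z1 * σ z1 = algebraMap L' L (w1 ^ 2 * algebraMap A L' α) := by
    have e1 : z1 * σ z1 = (z * σ z) * ((algebraMap R L u ^ 2) ^ m) ^ 2 := by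
      rw [hsz1, hz1]
      have e3 : (algebraMap R L u ^ m) ^ 2 = (algebraMap R L u ^ 2) ^ m := by
        rw [← zpow_natCast, ← zpow_mul, mul_comm, zpow_mul, zpow_natCast]
      rw [e3]
      ring
    rw [e1, ← hx, hxw, hu2, hw1]
    simp only [map_mul, map_pow, map_zpow₀]
    ring
  -- the residue
  obtain ⟨a, ha⟩ := hP4 z1 hz1v.le
  have hPa : P.valuation L (algebraMap R L (algebraMap A R a)) ≤ 1 := P.valuation_le_one _
  have hsa : P.valuation L (σ z1 - algebraMap R L (algebraMap A R a)) < 1 := by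
    have e1 : σ z1 - algebraMap R L (algebraMap A R a) =
        σ (z1 - algebraMap R L (algebraMap A R a)) := by
      rw [map_sub, hK.sa]
    rw [e1, hP3]
    exact ha
  have hlt : P.valuation L (z1 * σ z1 - algebraMap R L (algebraMap A R a) ^ 2) < 1 := by
    have e1 : z1 * σ z1 - algebraMap R L (algebraMap A R a) ^ 2 =
        (z1 - algebraMap R L (algebraMap A R a)) * σ z1 +
          algebraMap R L (algebraMap A R a) * (σ z1 - algebraMap R L (algebraMap A R a)) := by ring
    rw [e1]
    refine (Valuation.map_add _ _ _).trans_lt (max_lt ?_ ?_)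
    · rw [map_mul, hP3, hz1v, mul_one]
      exact ha
    · rw [map_mul]
      exact mul_lt_one_of_nonneg_of_lt_one_right hPa zero_le hsa
  have hlt' : v.valuation L' (w1 ^ 2 * algebraMap A L' α - algebraMap A L' a ^ 2) < 1 := by
    have e1 : z1 * σ z1 - algebraMap R L (algebraMap A R a) ^ 2 =
        algebraMap L' L (w1 ^ 2 * algebraMap A L' α - algebraMap A L' a ^ 2) := by
      rw [hprod, ← hLL, map_sub, map_pow]
    rw [e1, hval] at hlt
    exact (pow_lt_one_iff_of_nonneg zero_le (by norm_num)).1 hlt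
  -- the valuation of `w1`
  have hα' : v.valuation L' (algebraMap A L' α) = 1 := by
    rw [HeightOneSpectrum.valuation_of_algebraMap, hα]
  have hw1v : v.valuation L' w1 = 1 := by
    have e1 : P.valuation L (z1 * σ z1) = 1 := by
      rw [map_mul, hP3, hz1v, one_mul]
    rw [hprod, hval, map_mul, map_pow, hα', mul_one, ← pow_mul] at e1
    exact (pow_eq_one_iff_of_nonneg zero_le (by norm_num)).1 e1
  obtain ⟨b, hb⟩ := v.exists_valuation_sub_lt_of_integer hw1v.le (1 : (WithZero (Multiplicative ℤ))ˣ)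
  have hb' : v.valuation L' (algebraMap A L' b - w1) < 1 := by
    simpa using hb
  have hbv : v.valuation L' (algebraMap A L' b) = 1 := by
    have e1 : algebraMap A L' b = w1 + (algebraMap A L' b - w1) := by ring
    rw [e1, Valuation.map_add_eq_of_lt_left _ (by rw [hw1v]; exact hb'), hw1v]
  refine ⟨a, b, ?_, ?_⟩
  · rw [HeightOneSpectrum.valuation_of_algebraMap, v.intValuation_eq_one_iff] at hbv
    exact hbv
  · rw [← v.intValuation_lt_one_iff_mem, ← v.valuation_of_algebraMap (K := L')]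
    show v.valuation L' (algebraMap A L' (b ^ 2 * α - a ^ 2)) < 1
    have e1 : algebraMap A L' (b ^ 2 * α - a ^ 2) =
        (algebraMap A L' b - w1) * ((algebraMap A L' b + w1) * algebraMap A L' α) +
          (w1 ^ 2 * algebraMap A L' α - algebraMap A L' a ^ 2) := by
      rw [map_sub, map_mul, map_pow, map_pow]
      ring
    rw [e1]
    refine (Valuation.map_add _ _ _).trans_lt (max_lt ?_ hlt')
    rw [map_mul, map_mul, hα', mul_one]
    refine mul_lt_one_of_nonneg_of_lt_one_left zero_le hb' ?_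
    refine (Valuation.map_add _ _ _).trans (max_le hbv.le hw1v.le)

end kx

end Pool.Agent.Q45.TW
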