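import Pool.Agent.Q45.TW.Pkg
import Pool.Agent.Y160.SL.Conv

/-!
# The Tate-Shafarevich group and the generation of the Mordell-Weil group
-/

set_option autoImplicit false
set_option linter.all false

open Polynomial IsDedekindDomain WithZero UniqueFactorizationMonoid
open scoped Classical

namespace Pool.Agent.Q45.TW

open Pool.Agent.Y160.SE (IsPw)
open Pool.Agent.Q45.GP (Regular TateOver)
open Pool.Agent.Y160.SQ
open Pool.Agent.Y160.RK (ptCl)

theorem monic_nf {k : Type} [Field k] {a G : k[X]} (hG : G ∈ normalizedFactors a) : G.Monic := by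
  have h1 : G ≠ 0 := (irreducible_of_normalized_factor G hG).ne_zero
  have h3 := Polynomial.monic_normalize h1
  rwa [normalize_normalized_factor G hG] at h3

section pts

variable {k : Type} [Field k] {g : k[X]} {cs : List k} {K : Type} [Field K] [Algebra k[X] K]
  {y : k → K}

/-- The divisors `G(x) = 0`, `w = y c`, for the irreducible factors `G` of `g - c`. -/
def Pts (g : k[X]) (cs : List k) (y : k → K) : Set (K[X] × K[X]) :=
  {P | ∃ c ∈ cs, ∃ G : k[X], G.Monic ∧ Irreducible G ∧ G ∣ g - C c ∧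
    P = (G.map (cst k K), C (y c))}

theorem ff_sub {c : k} (hy : y c ^ 2 = algebraMap k[X] K (X + C c)) :
    ff g K - (C (y c)) ^ 2 = (g - C c).map (cst k K) := by
  unfold ff
  rw [← C_pow, hy, map_add, C_add, Polynomial.map_sub, map_C]
  show _ - (C (algebraMap k[X] K X) + C (cst k K c)) = _
  ring

theorem tc_ne (hB : IsBase k cs K y) (c : k) : algebraMap k[X] K (X + C c) ≠ 0 := fun h0 =>
  X_add_C_ne_zero c (hB.inj (by rw [h0, map_zero]))

theorem pts_ok (hB : IsBase k cs K y)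
    (hirr : ∀ G : k[X], G.Monic → Irreducible G → Irreducible (G.map (cst k K))) :
    ∀ P ∈ Pts g cs y, Irreducible P.1 ∧ P.1.Monic ∧ ¬ P.1 ∣ ff g K ∧ P.1 ∣ ff g K - P.2 ^ 2 := by
  rintro _ ⟨c, hc, G, hGm, hGi, hGd, rfl⟩
  have h1 : G.map (cst k K) ∣ ff g K - (C (y c)) ^ 2 := by
    rw [ff_sub (hB.sq c hc)]
    exact Polynomial.map_dvd _ hGd
  refine ⟨hirr G hGm hGi, hGm.map _, fun h3 => ?_, h1⟩
  have h4 : G.map (cst k K) ∣ C (algebraMap k[X] K (X + C c)) := by
    have h5 := dvd_sub h3 h1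
    rw [sub_sub_cancel, ← C_pow, hB.sq c hc] at h5
    exact h5
  exact (hirr G hGm hGi).not_isUnit (isUnit_of_dvd_unit h4 (isUnit_C.2 (IsUnit.mk0 _ (tc_ne hB c))))

theorem two_ne (h2 : (2 : k) ≠ 0) (hinj : Function.Injective (algebraMap k[X] K)) : (2 : K) ≠ 0 := by
  have h3 : (2 : K) = cst k K 2 := by rw [map_ofNat]
  rw [h3]
  exact (_root_.map_ne_zero _).2 h2

/-- The divisors of the given factors. -/
theorem dvP_pts {a : k[X]} (ham : a.Monic) (had : a ∣ (cs.map fun c => g - C c).prod) :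
    ∃ S : Multiset (K[X] × K[X]), (∀ P ∈ S, P ∈ Pts g cs y) ∧ dvP S = a.map (cst k K) := by
  have h1 : ∀ G ∈ normalizedFactors a, ∃ c ∈ cs, G ∣ g - C c := by
    intro G hG
    have h3 : Prime G := prime_of_normalized_factor G hG
    have h4 : G ∣ (cs.map fun c => g - C c).prod := (dvd_of_mem_normalizedFactors hG).trans had
    rw [h3.dvd_prod_iff] at h4
    obtain ⟨_, h5, h6⟩ := h4
    obtain ⟨c, hc, rfl⟩ := List.mem_map.1 h5
    exact ⟨c, hc, h6⟩
  let cc : k[X] → k := fun G => if h : ∃ c ∈ cs, G ∣ g - C c then h.choose else 0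
  have hcc : ∀ G ∈ normalizedFactors a, cc G ∈ cs ∧ G ∣ g - C (cc G) := by
    intro G hG
    have h := h1 G hG
    show (if h : ∃ c ∈ cs, G ∣ g - C c then h.choose else 0) ∈ cs ∧
      G ∣ g - C (if h : ∃ c ∈ cs, G ∣ g - C c then h.choose else 0)
    rw [dif_pos h]
    exact h.choose_spec
  refine ⟨(normalizedFactors a).map fun G => (G.map (cst k K), C (y (cc G))), fun P hP => ?_, ?_⟩
  · obtain ⟨G, hG, rfl⟩ := Multiset.mem_map.1 hP
    exact ⟨cc G, (hcc G hG).1, G, monic_nf hG,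
      irreducible_of_normalized_factor G hG, (hcc G hG).2, rfl⟩
  · unfold dvP
    rw [Multiset.map_map]
    have h5 : (normalizedFactors a).prod = a := by
      have h6 := prod_normalizedFactors_eq (a := a) ham.ne_zero
      rw [h6, ham.normalize_eq_self]
    have h6 := (map_multiset_prod (mapRingHom (cst k K)) (normalizedFactors a)).symm
    rw [h5] at h6
    exact h6

end pts

section main

variable {k : Type} [Field k] {g : k[X]} {cs : List k} {K : Type} [Field K] [Algebra k[X] K]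
  {y : k → K} {A : Type} [CommRing A] [IsDedekindDomain A] [Algebra A K] [IsFractionRing A K]
  [Algebra k[X] A] [IsScalarTower k[X] A K] [IsIntegralClosure A k[X] K]

theorem good (h2 : (2 : k) ≠ 0) (hg : g.Monic) (hodd : Odd g.natDegree)
    (hinj : Function.Injective (algebraMap k[X] K)) (hsep : (ff g K).Separable) :
    Good 2 (-1) (ff g K) := by
  refine ⟨Nat.prime_two.isPrimePow, prim (two_ne h2 hinj), ff_monic hg hodd.pos, hsep, ?_⟩
  rw [ff_natDegree hg hodd.pos]
  exact (Nat.coprime_two_left).2 hodd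

/-- All the data for the criterion. -/
theorem allData (h2 : (2 : k) ≠ 0) (hg : g.Monic) (hodd : Odd g.natDegree)
    (hd : derivative g ≠ 0) (hG : GoodL g cs) (hB : IsBase k cs K y) :
    ∃ (R L : Type) (_ : CommRing R) (_ : IsDedekindDomain R) (_ : Field L)
      (_ : Algebra R L) (_ : IsFractionRing R L) (_ : Algebra K L) (_ : Algebra A R) (θ : L)
      (yA : k → A), Algebra.IsIntegral A R ∧
      IsTw (fun c => X + C c) cs A yA ∧ (∀ c ∈ cs, algebraMap A K (yA c) = y c) ∧
      (∀ a : A, algebraMap K L (algebraMap A K a) = algebraMap R L (algebraMap A R a)) ∧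
      (ff g A).map (algebraMap A K) = ff g K ∧
      Irreducible (ff g K) ∧ (ff g K).Separable ∧ aeval θ (ff g K) = 0 ∧
      IntermediateField.adjoin K {θ} = ⊤ ∧
      (∀ P ∈ Pts g cs y, Irreducible P.1 ∧ P.1.Monic ∧ ¬ P.1 ∣ ff g K ∧ P.1 ∣ ff g K - P.2 ^ 2) ∧
      (∀ z : L, z ≠ 0 → (∀ v : HeightOneSpectrum R, IsPw 2 (v.valuation L z)) →
        (∃ u : K, Algebra.norm K z = u ^ 2) →
        ∃ (u : K) (w : L) (S : Multiset (K[X] × K[X])), u ≠ 0 ∧ w ≠ 0 ∧ (∀ P ∈ S, P ∈ Pts g cs y) ∧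
          z = algebraMap K L u * w ^ 2 * aeval θ (dvP S)) ∧
      ∃ (_ : Algebra k[X] R) (yR : k → R), IsTw (fun c => -g + C c) cs R yR ∧
        ∀ p : k[X], aeval θ (p.map (cst k K)) = algebraMap R L (algebraMap k[X] R p) := by
  obtain ⟨R, L, i1, i2, i3, i4, i5, i6, i7, i8, yA, yR, hint, hcomp, hC, hyA, hD⟩ :=
    package (A := A) h2 hg hodd hG hB
  have hcst : (algebraMap A K).comp (cst k A) = cst k K := RingHom.ext fun x =>
    (IsScalarTower.algebraMap_apply k[X] A K (C x)).symm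
  have hff : (ff g A).map (algebraMap A K) = ff g K := by
    rw [ff_K, hcst, ← IsScalarTower.algebraMap_apply]
    rfl
  refine ⟨R, L, i1, i2, i4, i5, i6, i7, i8, th k R L, yA,
    hint, hC.HA, hyA, hcomp, hff, ?_, ?_, ?_, hC.top, ?_, ?_, i3, yR, hC.HR, fun p => ?_⟩
  · rw [← hff]
    exact hC.irr hg hodd.pos
  · rw [← hff]
    exact hC.sep hg hodd.pos hd
  · rw [← hff]
    exact hC.root
  · refine pts_ok hB fun G hGm hGi => ?_
    rw [← hcst]
    exact irrG h2 hG.nodup hC.HA hGm hGi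
  · intro z hz hev hno
    obtain ⟨w, a, hw, ham, had, hzw⟩ := hD z hz hev hno
    obtain ⟨S, hS, hSa⟩ := dvP_pts (y := y) ham had
    refine ⟨(-1) ^ a.natDegree, w, S, pow_ne_zero _ (neg_ne_zero.2 one_ne_zero), hw, hS, ?_⟩
    rw [hSa, ← hcst, hC.ev, hzw, map_pow, map_neg, map_one]
    ring
  · rw [← hcst]
    exact hC.ev p

/-- **The Tate-Shafarevich group and the generation modulo `2`.** -/
theorem sha_gen (h2 : (2 : k) ≠ 0) (hg : g.Monic) (hodd : Odd g.natDegree)
    (hd : derivative g ≠ 0) (hG : GoodL g cs) (hB : IsBase k cs K y) :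
    ∃ hgd : Good 2 (-1) (ff g K), Pool.Agent.Y160.SH.ShaTriv 2 2 A (ff g K) ∧
      ∀ x : Jac 2 (ff g K) K, ∃ (T : Multiset (K[X] × K[X])) (v : Jac 2 (ff g K) K),
        (∀ P ∈ T, P ∈ Pts g cs y) ∧
        x = (T.map (ptCl 2 (ff g K))).sum + pe hgd K (1 - X) v := by
  obtain ⟨R, L, i1, i2, i4, i5, i6, i7, i8, θ, yA, hint, HA, hyA, hcomp, hff, hirr, hsep, hθ, htop,
    hP, hpts, -⟩ := allData (A := A) h2 hg hodd hd hG hB
  have hgd := good h2 hg hodd hB.inj hsep
  haveI := hint
  letI : Algebra A L := ((algebraMap K L).comp (algebraMap A K)).toAlgebra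
  haveI : IsScalarTower A K L := IsScalarTower.of_algebraMap_eq fun x => rfl
  haveI : IsScalarTower A R L := IsScalarTower.of_algebraMap_eq fun x => hcomp x
  haveI : Module.IsTorsionFree A R := by
    rw [Module.isTorsionFree_iff_algebraMap_injective]
    have h1 : Function.Injective ((algebraMap R L).comp (algebraMap A R)) := by
      have h3 : (algebraMap R L).comp (algebraMap A R) = (algebraMap K L).comp (algebraMap A K) :=
        RingHom.ext fun a => (hcomp a).symm
      rw [h3]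
      exact (algebraMap K L).injective.comp (IsFractionRing.injective A K)
    intro a b hab
    apply h1
    show algebraMap R L (algebraMap A R a) = algebraMap R L (algebraMap A R b)
    rw [hab]
  refine ⟨hgd, ?_⟩
  have hS := regular (K := K) h2 HA (fun c hc => hG.sep c hc)
  have key : ∀ (f1 : K[X]) (h : (ff g A).map (algebraMap A K) = f1) (hgd : Good 2 (-1) f1),
      Irreducible f1 → aeval θ f1 = 0 →
      (∀ P ∈ Pts g cs y, Irreducible P.1 ∧ P.1.Monic ∧ ¬ P.1 ∣ f1 ∧ P.1 ∣ f1 - P.2 ^ 2) →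
      Pool.Agent.Y160.SH.ShaTriv 2 2 A f1 ∧
      ∀ x : Jac 2 f1 K, ∃ (T : Multiset (K[X] × K[X])) (v : Jac 2 f1 K),
        (∀ P ∈ T, P ∈ Pts g cs y) ∧ x = (T.map (ptCl 2 f1)).sum + pe hgd K (1 - X) v := by
    rintro f1 rfl hgd hirr hθ hP
    exact Pool.Agent.Q45.GP.main (p := 2) (m := 1) (ℓ := 2) (A := A) (K := K) (N := L) (R := R)
      Nat.prime_two (by norm_num) (f := ff g A) (ζ := -1) hgd (ff_monic hg hodd.pos)
      hS hirr (θ := θ) hθ htop (Pts g cs y) hP hpts
  exact key _ hff hgd hirr hθ hP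

end main

end Pool.Agent.Q45.TW
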