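import Pool.Agent.Q45.TW.Cov

/-!
# The field `k₀(h, x₁, …, x_r)`
-/

set_option autoImplicit false
set_option linter.all false

open Polynomial

namespace Pool.Agent.Q45.TW

theorem opt_ex (k₀ k : Type) [Field k₀] [Field k] (r : ℕ)
    [Algebra (MvPolynomial (Option (Fin r)) k₀) k]
    [IsFractionRing (MvPolynomial (Option (Fin r)) k₀) k] :
    ∃ (k₁ : Type) (_ : Field k₁) (_ : Algebra (MvPolynomial (Fin r) k₀) k₁)
      (_ : IsFractionRing (MvPolynomial (Fin r) k₀) k₁) (_ : Algebra k₁[X] k),
      IsFractionRing k₁[X] k ∧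
      (∀ a : k₀, cst k₁ k (j0 k₀ k₁ r a) =
        algebraMap (MvPolynomial (Option (Fin r)) k₀) k (MvPolynomial.C a)) ∧
      (∀ i, cst k₁ k (xi k₀ k₁ r i) =
        algebraMap (MvPolynomial (Option (Fin r)) k₀) k (MvPolynomial.X (some i))) ∧
      hh k₁ k = algebraMap (MvPolynomial (Option (Fin r)) k₀) k (MvPolynomial.X none) := by
  let P := MvPolynomial (Fin r) k₀
  let e : MvPolynomial (Option (Fin r)) k₀ ≃ₐ[k₀] P[X] := MvPolynomial.optionEquivLeft k₀ (Fin r)
  let k₁ := FractionRing P
  letI aPk : Algebra P[X] k :=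
    ((algebraMap (MvPolynomial (Option (Fin r)) k₀) k).comp (e.symm : P[X] →+* _)).toAlgebra
  have hPk : ∀ p : P[X], algebraMap P[X] k p =
    algebraMap (MvPolynomial (Option (Fin r)) k₀) k (e.symm p) := fun p => rfl
  haveI : IsFractionRing P[X] k := by
    have h1 := IsLocalization.isLocalization_of_base_ringEquiv
      (nonZeroDivisors (MvPolynomial (Option (Fin r)) k₀)) k e.toRingEquiv
    have h3 : Submonoid.map e.toRingEquiv
        (nonZeroDivisors (MvPolynomial (Option (Fin r)) k₀)) = nonZeroDivisors P[X] :=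
      MulEquivClass.map_nonZeroDivisors e.toRingEquiv
    rw [h3] at h1
    exact h1
  have hinjP : Function.Injective ((algebraMap P[X] k).comp C) :=
    (IsFractionRing.injective P[X] k).comp C_injective
  let σ : k₁ →+* k := IsFractionRing.lift hinjP
  have hσ : ∀ a : P, σ (algebraMap P k₁ a) = algebraMap P[X] k (C a) := fun a =>
    IsFractionRing.lift_algebraMap hinjP a
  letI aPX : Algebra P[X] k₁[X] := Polynomial.algebra P k₁
  letI a1 : Algebra k₁[X] k := (eval₂RingHom σ (algebraMap P[X] k X)).toAlgebra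
  have ha1 : ∀ p : k₁[X], algebraMap k₁[X] k p = eval₂ σ (algebraMap P[X] k X) p := fun p => rfl
  have haX : ∀ p : P[X], algebraMap P[X] k₁[X] p = p.map (algebraMap P k₁) := fun p => rfl
  haveI : IsScalarTower P[X] k₁[X] k := IsScalarTower.of_algebraMap_eq fun p => by
    rw [ha1, haX, eval₂_map]
    have h1 : algebraMap P[X] k = eval₂RingHom (σ.comp (algebraMap P k₁)) (algebraMap P[X] k X) := by
      apply Polynomial.ringHom_ext
      · intro a
        rw [coe_eval₂RingHom, eval₂_C]
        exact (hσ a).symm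
      · rw [coe_eval₂RingHom, eval₂_X]
    exact congrArg (fun f : P[X] →+* k => f p) h1
  haveI : IsLocalization ((nonZeroDivisors P).map (C : P →+* P[X])) k₁[X] :=
    Polynomial.isLocalization (nonZeroDivisors P) k₁
  have hM : (nonZeroDivisors P).map (C : P →+* P[X]) ≤ nonZeroDivisors P[X] := by
    rintro _ ⟨a, ha, rfl⟩
    exact mem_nonZeroDivisors_of_ne_zero (C_ne_zero.2 (nonZeroDivisors.ne_zero ha))
  haveI := IsFractionRing.isFractionRing_of_isLocalization
    ((nonZeroDivisors P).map (C : P →+* P[X])) k₁[X] k hM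
  refine ⟨k₁, inferInstance, inferInstance, inferInstance, a1, inferInstance, fun a => ?_,
    fun i => ?_, ?_⟩
  · show algebraMap k₁[X] k (C (algebraMap P k₁ (MvPolynomial.C a))) = _
    rw [ha1, eval₂_C, hσ, hPk]
    congr 1
    rw [AlgEquiv.symm_apply_eq]
    exact (MvPolynomial.optionEquivLeft_C k₀ (Fin r) a).symm
  · show algebraMap k₁[X] k (C (algebraMap P k₁ (MvPolynomial.X i))) = _
    rw [ha1, eval₂_C, hσ, hPk]
    congr 1
    rw [AlgEquiv.symm_apply_eq]
    exact (MvPolynomial.optionEquivLeft_X_some k₀ (Fin r) i).symm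
  · show algebraMap k₁[X] k X = _
    rw [ha1, eval₂_X, hPk]
    congr 1
    rw [AlgEquiv.symm_apply_eq]
    exact (MvPolynomial.optionEquivLeft_X_none k₀ (Fin r)).symm

end Pool.Agent.Q45.TW
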