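import Pool.Agent.Q45.TW.IrG

/-!
# The descent over the base curve
-/

set_option autoImplicit false
set_option linter.all false

open Polynomial IsDedekindDomain WithZero UniqueFactorizationMonoid
open scoped Classical

namespace Pool.Agent.Q45.TW

open Pool.Agent.Y160.SE (IsPw)
open Pool.Agent.Q45.GP (Regular TateOver)
open Pool.Agent.Y160.SQ

section pkg

variable {k : Type} [Field k] {g : k[X]} {cs : List k} {K : Type} [Field K] [Algebra k[X] K]
  {y : k → K} {A : Type} [CommRing A] [IsDedekindDomain A] [Algebra A K] [IsFractionRing A K]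
  [Algebra k[X] A] [IsScalarTower k[X] A K] [IsIntegralClosure A k[X] K]

/-- The curve `g(x) + t = 0` over the base curve. -/
theorem package (h2 : (2 : k) ≠ 0) (hg : g.Monic) (hodd : Odd g.natDegree) (hG : GoodL g cs)
    (hB : IsBase k cs K y) :
    ∃ (R L : Type) (_ : CommRing R) (_ : IsDedekindDomain R) (_ : Algebra k[X] R) (_ : Field L)
      (_ : Algebra R L) (_ : IsFractionRing R L) (_ : Algebra K L) (_ : Algebra A R)
      (yA : k → A) (yR : k → R), Algebra.IsIntegral A R ∧
      (∀ a : A, algebraMap K L (algebraMap A K a) = algebraMap R L (algebraMap A R a)) ∧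
      Cmp g cs A R K L yA yR ∧ (∀ c ∈ cs, algebraMap A K (yA c) = y c) ∧
      ∀ z : L, z ≠ 0 → (∀ v : HeightOneSpectrum R, IsPw 2 (v.valuation L z)) →
      (∃ u : K, Algebra.norm K z = u ^ 2) →
      ∃ (w : L) (a : k[X]), w ≠ 0 ∧ a.Monic ∧ a ∣ (cs.map fun c => g - C c).prod ∧
        z = w ^ 2 * ((-1) ^ a.natDegree * algebraMap R L (algebraMap k[X] R a)) := by
  obtain ⟨A₀, i1, i2, i3, y₀, R, j1, j2, j3, yR, HA, HR, HD⟩ := chain h2 hg hodd cs hG
  obtain ⟨l1, l2, l3, hy₀⟩ := IsBase.frac HA hB
  obtain ⟨e, he1, he2⟩ := IsBase.equiv (K := K) HA (A := A)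
  obtain ⟨α, ε, hα1, hα2, hα3, hα4⟩ := pair HA HR
  let L := FractionRing R
  -- `α` is injective
  have hαi : Function.Injective α := by
    haveI := HA.integral
    have h1 : Function.Injective ((algebraMap R L).comp α) := by
      refine inj_of_integral (S := k[X]) _ ?_
      intro p q hpq
      have h3 : algebraMap R L (α (algebraMap k[X] A₀ p)) =
        algebraMap R L (α (algebraMap k[X] A₀ q)) := hpq
      rw [hα1, hα1] at h3
      have h4 := HR.inj (IsFractionRing.injective R L h3)
      have h5 : (p - q).comp (-g) = 0 := by rw [sub_comp, h4, sub_self]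
      rcases comp_eq_zero_iff.1 h5 with h6 | ⟨-, h6⟩
      · exact sub_eq_zero.1 h6
      · exfalso
        have h7 := congrArg natDegree h6
        rw [natDegree_neg, natDegree_C] at h7
        have := hodd.pos
        omega
    intro a b hab
    apply h1
    show algebraMap R L (α a) = algebraMap R L (α b)
    rw [hab]
  have hαi' : Function.Injective ((algebraMap R L).comp α) :=
    (IsFractionRing.injective R L).comp hαi
  letI : Algebra K L := (IsFractionRing.lift hαi' : K →+* L).toAlgebra
  have hKL : ∀ a : A₀, algebraMap K L (algebraMap A₀ K a) = algebraMap R L (α a) := fun a =>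
    IsFractionRing.lift_algebraMap hαi' a
  letI : Algebra A R := (α.comp (e.symm : A →+* A₀)).toAlgebra
  have hAR : ∀ a : A, algebraMap A R a = α (e.symm a) := fun a => rfl
  have hAK : ∀ a : A, algebraMap A K a = algebraMap A₀ K (e.symm a) := fun a => by
    rw [← he2, e.apply_symm_apply]
  have hC₀ : Cmp g cs A₀ R K L y₀ yR :=
    { HA := HA
      HR := HR
      pol := fun p => by rw [hKL, hα1]
      sqr := fun c hc => by rw [hKL, hα2 c hc] }
  refine ⟨R, L, j1, j2, j3, inferInstance, inferInstance, inferInstance, inferInstance,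
    inferInstance, fun c => e (y₀ c), yR, ?_, fun a => ?_, ?_, fun c hc => ?_, HD K L hC₀⟩
  · -- integrality
    have h1 : (AdjoinRoot.of (ff g A₀)).IsIntegral := by
      haveI : Module.Finite A₀ (AdjoinRoot (ff g A₀)) := (ff_monic hg hodd.pos).finite_adjoinRoot
      intro x
      exact Algebra.IsIntegral.isIntegral (R := A₀) x
    have h3 : α.IsIntegral := by
      intro x
      obtain ⟨x', rfl⟩ := ε.surjective x
      have h4 := h1 x'
      obtain ⟨p, hp, hpx⟩ := h4
      refine ⟨p, hp, ?_⟩
      have h5 : α = (ε : AdjoinRoot (ff g A₀) →+* R).comp (AdjoinRoot.of (ff g A₀)) :=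
        RingHom.ext fun x => (hα3 x).symm
      rw [h5]
      have h6 : (ε x' : R) = (ε : AdjoinRoot (ff g A₀) →+* R) x' := rfl
      rw [h6, ← hom_eval₂, hpx, map_zero]
    have h4 : (e.symm : A →+* A₀).IsIntegral := RingHom.isIntegral_of_surjective _ e.symm.surjective
    exact ⟨RingHom.IsIntegral.trans _ _ h4 h3⟩
  · rw [hAK, hKL, hAR]
  · exact
      { HA := HA.equiv e he1
        HR := HR
        pol := fun p => by
          rw [hAK, ← he1, e.symm_apply_apply, hKL, hα1]
        sqr := fun c hc => by
          rw [hAK, e.symm_apply_apply, hKL, hα2 c hc] }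
  · show algebraMap A K (e (y₀ c)) = y c
    rw [he2, hy₀ c hc]

end pkg

end Pool.Agent.Q45.TW
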