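import Pool.Agent.Q45.TW.Kum

/-!
# Removing the ramified part
-/

set_option autoImplicit false
set_option linter.all false

open Polynomial IsDedekindDomain WithZero UniqueFactorizationMonoid
open scoped Classical

namespace Pool.Agent.Q45.TW

open Pool.Agent.Y160.SE (IsPw)
open Pool.Agent.Y228.FT (val_unit vpr eq_vpr vpr_self val_cases)

section rmv

variable {k A L' : Type} [Field k] [CommRing A] [IsDedekindDomain A] [Algebra k[X] A]
  [Field L'] [Algebra A L'] [IsFractionRing A L']

theorem isPw_exp {m : ℤ} (h : ¬ IsPw 2 (exp m : WithZero (Multiplicative ℤ))) :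
    IsPw 2 (exp m * exp (-1 : ℤ) : WithZero (Multiplicative ℤ)) := by
  rcases Int.even_or_odd m with h1 | h1
  · exfalso
    obtain ⟨j, hj⟩ := h1
    exact h ⟨exp j, by rw [← exp_nsmul]; congr 1; rw [nsmul_eq_mul]; push_cast; omega⟩
  · obtain ⟨j, hj⟩ := h1
    refine ⟨exp j, ?_⟩
    rw [← exp_add, ← exp_nsmul]
    congr 1
    rw [nsmul_eq_mul]
    push_cast
    omega

/-- Distinct irreducible polynomials are not in the same prime. -/
theorem val_one_of_ne (v : HeightOneSpectrum A) {G G' : k[X]} (hG : G.Monic) (hGi : Irreducible G)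
    (hG' : G'.Monic) (hGi' : Irreducible G') (hne : G' ≠ G)
    (hv : v.intValuation (algebraMap k[X] A G) ≠ 1) : v.intValuation (algebraMap k[X] A G') = 1 := by
  rw [v.intValuation_eq_one_iff]
  rw [Ne, v.intValuation_eq_one_iff, not_not] at hv
  intro h'
  have h1 : IsCoprime G G' := by
    refine (hGi.coprime_iff_not_dvd).2 fun h => ?_
    have h3 := hGi.associated_of_dvd hGi' h
    exact hne (eq_of_monic_of_associated hG hG' h3).symm
  obtain ⟨a, b, hab⟩ := h1
  have h3 : algebraMap k[X] A (a * G + b * G') ∈ v.asIdeal := by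
    rw [map_add, map_mul, map_mul]
    exact v.asIdeal.add_mem (v.asIdeal.mul_mem_left _ hv) (v.asIdeal.mul_mem_left _ h')
  rw [hab, map_one] at h3
  exact v.isPrime.ne_top ((Ideal.eq_top_iff_one _).2 h3)

theorem val_prod (v : HeightOneSpectrum A) {G : k[X]} (hG : G.Monic) (hGi : Irreducible G)
    (hv : v.intValuation (algebraMap k[X] A G) = exp (-1 : ℤ)) (T : Multiset k[X])
    (hT : ∀ G' ∈ T, G'.Monic ∧ Irreducible G') (hnd : T.Nodup) :
    v.intValuation (algebraMap k[X] A T.prod) = if G ∈ T then exp (-1 : ℤ) else 1 := by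
  have hv1 : v.intValuation (algebraMap k[X] A G) ≠ 1 := by
    rw [hv, ← exp_zero]
    intro h0
    exact absurd (exp_injective h0) (by norm_num)
  induction T using Multiset.induction_on with
  | empty =>
    rw [Multiset.prod_zero, map_one, map_one, if_neg (Multiset.notMem_zero _)]
  | cons G' T ih =>
    rw [Multiset.nodup_cons] at hnd
    rw [Multiset.prod_cons, map_mul, map_mul,
      ih (fun G'' h => hT G'' (Multiset.mem_cons_of_mem h)) hnd.2]
    obtain ⟨h1, h2⟩ := hT G' (Multiset.mem_cons_self _ _)
    by_cases h0 : G' = G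
    · subst h0
      rw [hv, if_neg hnd.1, mul_one, if_pos (Multiset.mem_cons_self _ _)]
    · rw [val_one_of_ne v hG hGi h1 h2 h0 hv1, one_mul]
      congr 1
      rw [Multiset.mem_cons]
      exact propext ⟨fun h => Or.inr h, fun h => h.resolve_left fun h => h0 h.symm⟩

theorem val_one_of_dvd (v : HeightOneSpectrum A) {a b : k[X]} (h : a ∣ b)
    (hv : v.intValuation (algebraMap k[X] A b) = 1) : v.intValuation (algebraMap k[X] A a) = 1 := by
  rw [v.intValuation_eq_one_iff] at hv ⊢
  intro h1
  obtain ⟨q, rfl⟩ := h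
  rw [map_mul] at hv
  exact hv (v.asIdeal.mul_mem_right _ h1)

/-- Removing the ramified part. -/
theorem remove {q : k[X]} (hsep : q.Separable) (hpr : ∀ G : k[X], G.Monic → Irreducible G → G ∣ q →
      Prime (algebraMap k[X] A G)) {w' : L'} (hw' : w' ≠ 0)
    (hun : ∀ v : HeightOneSpectrum A, v.intValuation (algebraMap k[X] A q) = 1 →
      IsPw 2 (v.valuation L' w')) :
    ∃ b : k[X], b.Monic ∧ b ∣ q ∧ ∀ v : HeightOneSpectrum A,
      IsPw 2 (v.valuation L' (w' * ((-1) ^ b.natDegree *
        algebraMap A L' (algebraMap k[X] A b)))) := by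
  have hq0 := hsep.ne_zero
  have hnf : ∀ G ∈ normalizedFactors q, G.Monic ∧ Irreducible G ∧ G ∣ q := fun G hG =>
    ⟨by
      have h1 := normalize_normalized_factor G hG
      rw [← h1]
      exact monic_normalize (irreducible_of_normalized_factor G hG).ne_zero,
      irreducible_of_normalized_factor G hG, dvd_of_mem_normalizedFactors hG⟩
  set S : Multiset k[X] := (normalizedFactors q).filter (fun G =>
    ∃ h : Prime (algebraMap k[X] A G), ¬ IsPw 2 ((vpr h).valuation L' w')) with hS
  have hnd0 : (normalizedFactors q).Nodup := (squarefree_iff_nodup_normalizedFactors hq0).1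
    hsep.squarefree
  have hSnd : S.Nodup := hnd0.filter _
  have hSn : ∀ G ∈ S, G.Monic ∧ Irreducible G := fun G hG =>
    ⟨(hnf G (Multiset.mem_of_mem_filter hG)).1, (hnf G (Multiset.mem_of_mem_filter hG)).2.1⟩
  have hSq : S.prod ∣ q :=
    (Multiset.prod_dvd_prod_of_le (Multiset.filter_le _ _)).trans
      (prod_normalizedFactors hq0).dvd
  have hSm : S.prod.Monic := by
    have h1 := monic_multiset_prod_of_monic S id fun G hG => (hSn G hG).1
    rwa [Multiset.map_id] at h1
  refine ⟨S.prod, hSm, hSq, fun v => ?_⟩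
  have hsgn : v.valuation L' ((-1) ^ (S.prod).natDegree *
      algebraMap A L' (algebraMap k[X] A S.prod)) = v.intValuation (algebraMap k[X] A S.prod) := by
    have h1 : v.valuation L' (algebraMap A L' (algebraMap k[X] A S.prod)) =
        v.intValuation (algebraMap k[X] A S.prod) := v.valuation_of_algebraMap _
    rw [map_mul, map_pow, Valuation.map_neg, map_one, one_pow, one_mul, h1]
  rw [map_mul, hsgn]
  by_cases hv : v.intValuation (algebraMap k[X] A q) = 1
  · rw [val_one_of_dvd v hSq hv, mul_one]
    exact hun v hv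
  · obtain ⟨G, hG, hvG⟩ : ∃ G ∈ normalizedFactors q, v.intValuation (algebraMap k[X] A G) ≠ 1 := by
      by_contra hcon
      push Not at hcon
      apply hv
      obtain ⟨ε, hε⟩ := prod_normalizedFactors hq0
      rw [← hε, map_mul, map_mul, val_unit v (ε.isUnit.map _), mul_one]
      have h3 : ∀ T : Multiset k[X], (∀ G ∈ T, v.intValuation (algebraMap k[X] A G) = 1) →
          v.intValuation (algebraMap k[X] A T.prod) = 1 := by
        intro T
        induction T using Multiset.induction_on with
        | empty => intro _; rw [Multiset.prod_zero, map_one, map_one]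
        | cons G T ih =>
          intro h
          rw [Multiset.prod_cons, map_mul, map_mul, h G (Multiset.mem_cons_self _ _), one_mul,
            ih fun G' h' => h G' (Multiset.mem_cons_of_mem h')]
      exact h3 _ hcon
    obtain ⟨hGm, hGi, hGq⟩ := hnf G hG
    have hp := hpr G hGm hGi hGq
    have hveq := eq_vpr hp v hvG
    have hv1 : v.intValuation (algebraMap k[X] A G) = exp (-1 : ℤ) := by
      rw [hveq, vpr_self]
    rw [val_prod v hGm hGi hv1 S hSn hSnd]
    have hwv : v.valuation L' w' ≠ 0 := (Valuation.ne_zero_iff _).2 hw'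
    obtain ⟨m, hm⟩ : ∃ m : ℤ, v.valuation L' w' = exp m := ⟨_, (exp_log hwv).symm⟩
    split_ifs with h0
    · obtain ⟨h1, h3⟩ := (Multiset.mem_filter.1 h0).2
      rw [← hveq, hm] at h3
      rw [hm]
      exact isPw_exp h3
    · rw [mul_one]
      by_contra hcon
      apply h0
      rw [hS, Multiset.mem_filter]
      refine ⟨hG, hp, ?_⟩
      rw [← hveq]
      exact hcon

end rmv

end Pool.Agent.Q45.TW
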