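import Pool.Agent.Q45.TW.Ded

/-!
# The residue rings of a tower
-/

set_option autoImplicit false
set_option linter.all false

open Polynomial IsDedekindDomain WithZero
open scoped Classical

namespace Pool.Agent.Q45.TW

section res

variable {k : Type} [Field k] {h : k[X]} {cs : List k} {R : Type} [CommRing R] [Algebra k[X] R]
  {y : k → R}

/-- The products of the `h + c` are not squares modulo `G`. -/
def Indep (h : k[X]) (cs : List k) (G : k[X]) : Prop :=
  ∀ I : List k, I.Sublist cs → I ≠ [] → ∀ w : k[X], ¬ G ∣ (I.map fun c => h + C c).prod - w ^ 2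

/-- The residue ring at an irreducible polynomial. -/
theorem residue (h2 : (2 : k) ≠ 0) (H : IsTw (fun c => h + C c) cs R y) (hnd : cs.Nodup) {G : k[X]}
    (hG : Irreducible G) (hI : Indep h cs G) :
    ∃ (E : Type) (_ : Field E) (ψ : R →+* E), Function.Surjective ψ ∧
      (∀ z, ψ z = 0 ↔ algebraMap k[X] R G ∣ z) ∧
      ∀ a : k[X], (∃ e : E, e ^ 2 = ψ (algebraMap k[X] R a)) →
        ∃ (I : List k) (w : k[X]), I.Sublist cs ∧ G ∣ a * (I.map fun c => h + C c).prod - w ^ 2 := by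
  haveI : Fact (Irreducible G) := ⟨hG⟩
  let κ := AdjoinRoot G
  have h2κ : (2 : κ) ≠ 0 := by
    have h3 : (2 : κ) = algebraMap k κ 2 := by rw [map_ofNat]
    rw [h3]
    exact (_root_.map_ne_zero _).2 h2
  let a : k → κ := fun c => AdjoinRoot.mk G (h + C c)
  have hap : ∀ I : List k, (I.map a).prod = AdjoinRoot.mk G (I.map fun c => h + C c).prod := by
    intro I
    rw [map_list_prod, List.map_map]
    rfl
  obtain ⟨E, iE, aE, yE, hE, hsq⟩ := field_tower h2κ a cs hnd (fun I hI1 hI0 w hw => by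
    obtain ⟨w', rfl⟩ := AdjoinRoot.mk_surjective w
    rw [hap, ← map_pow, AdjoinRoot.mk_eq_mk] at hw
    exact hI I hI1 hI0 w' hw)
  obtain ⟨ψ, hψ1, hψ2⟩ := H.lift E ((algebraMap κ E).comp (AdjoinRoot.mk G)) yE
    (fun c hc => hE.sq c hc)
  have hψ1' : ∀ p, ψ (algebraMap k[X] R p) = algebraMap κ E (AdjoinRoot.mk G p) := fun p => hψ1 p
  refine ⟨E, iE, ψ, ?_, fun z => ⟨fun hz => ?_, fun hz => ?_⟩, fun b hb => ?_⟩
  · intro x
    refine hE.gen ψ.range (fun s => ?_) (fun c hc => ⟨y c, hψ2 c hc⟩) x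
    obtain ⟨p, rfl⟩ := AdjoinRoot.mk_surjective s
    exact ⟨algebraMap k[X] R p, hψ1' p⟩
  · -- the map in the other direction
    let Q := R ⧸ Ideal.span {algebraMap k[X] R G}
    let φ : κ →+* Q := Ideal.Quotient.lift (Ideal.span {G})
      ((Ideal.Quotient.mk (Ideal.span {algebraMap k[X] R G})).comp (algebraMap k[X] R)) (by
        intro p hp
        obtain ⟨q, rfl⟩ := Ideal.mem_span_singleton.1 hp
        show Ideal.Quotient.mk _ (algebraMap k[X] R (G * q)) = 0
        rw [Ideal.Quotient.eq_zero_iff_mem, map_mul]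
        exact Ideal.mul_mem_right _ _ (Ideal.mem_span_singleton_self _))
    have hφ : ∀ p, φ (AdjoinRoot.mk G p) = Ideal.Quotient.mk _ (algebraMap k[X] R p) := fun p =>
      Ideal.Quotient.lift_mk _ _ _
    obtain ⟨χ, hχ1, hχ2⟩ := hE.lift Q φ (fun c => Ideal.Quotient.mk _ (y c)) (fun c hc => by
      rw [← map_pow, H.sq c hc]
      exact (hφ _).symm)
    have h3 : χ.comp ψ = Ideal.Quotient.mk _ := by
      refine H.hom_ext (fun p => ?_) fun c hc => ?_
      · show χ (ψ (algebraMap k[X] R p)) = _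
        rw [hψ1', hχ1, hφ]
      · show χ (ψ (y c)) = _
        rw [hψ2 c hc, hχ2 c hc]
    have h4 : (Ideal.Quotient.mk (Ideal.span {algebraMap k[X] R G})) z = 0 := by
      rw [← h3]
      show χ (ψ z) = 0
      rw [hz, map_zero]
    exact Ideal.mem_span_singleton.1 ((Ideal.Quotient.eq_zero_iff_mem).1 h4)
  · obtain ⟨q, rfl⟩ := hz
    rw [map_mul, hψ1', AdjoinRoot.mk_self, map_zero, zero_mul]
  · obtain ⟨e, he⟩ := hb
    rw [hψ1'] at he
    obtain ⟨I, w, hI1, hw⟩ := hsq _ ⟨e, he⟩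
    obtain ⟨w', rfl⟩ := AdjoinRoot.mk_surjective w
    refine ⟨I, w', hI1, ?_⟩
    rw [← AdjoinRoot.mk_eq_mk, map_mul, map_pow, ← hap]
    exact hw

/-- The irreducible polynomial stays prime. -/
theorem prime_of [IsDomain R] (h2 : (2 : k) ≠ 0) (H : IsTw (fun c => h + C c) cs R y)
    (hnd : cs.Nodup) {G : k[X]} (hG : Irreducible G) (hI : Indep h cs G) :
    Prime (algebraMap k[X] R G) := by
  obtain ⟨E, iE, ψ, -, hψ, -⟩ := residue h2 H hnd hG hI
  refine ⟨?_, ?_, ?_⟩
  · intro h0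
    exact hG.ne_zero (H.inj (by rw [h0, map_zero]))
  · intro hu
    have h1 : ψ 1 = 0 := (hψ 1).2 (hu.dvd)
    rw [map_one] at h1
    exact one_ne_zero h1
  · intro a b hab
    rw [← hψ, map_mul] at hab
    rw [← hψ, ← hψ]
    exact mul_eq_zero.1 hab

end res

end Pool.Agent.Q45.TW
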