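import Pool.Agent.Q45.TW.Dsc

/-!
# The descent: the step
-/

set_option autoImplicit false
set_option linter.all false

open Polynomial IsDedekindDomain WithZero
open scoped Classical

namespace Pool.Agent.Q45.TW

open Pool.Agent.Y160.FT (Kx)
open Pool.Agent.Y160.SE (IsPw)
open Pool.Agent.Y228.FT (val_unit vpr eq_vpr vpr_self val_cases)

/-- The conditions for adding `c` to the list. -/
structure StepC {k : Type} [Field k] (g : k[X]) (cs : List k) (c : k) : Prop where
  nmem : c ∉ cs
  sep : (g - C c).Separable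
  ind : ∀ G : k[X], G.Monic → Irreducible G → G ∣ g - C c → Indep (-g) cs G
  redei : ∀ a : k[X], a.Monic → a ∣ (cs.map fun c' => g - C c').prod →
    (∀ G : k[X], G.Monic → Irreducible G → G ∣ g - C c → ∃ (I : List k) (w : k[X]), I.Sublist cs ∧
      G ∣ (-1) ^ a.natDegree * a * (I.map fun c' => -g + C c').prod - w ^ 2) →
    ∃ I : List k, I.Sublist cs ∧ a = (I.map fun c' => g - C c').prod

section aux

variable {k : Type} [Field k] {g : k[X]} {cs : List k} {c : k}

theorem StepC.sep' (S : StepC g cs c) : (-g + C c).Separable := by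
  have h1 : (-g + C c : k[X]) = -(g - C c) := by ring
  rw [h1]
  obtain ⟨a, b, hab⟩ := S.sep
  exact ⟨-a, -b, by rw [derivative_neg]; linear_combination hab⟩

theorem not_unit (hg : g.Monic) (hg0 : 0 < g.natDegree) (c : k) : ¬ IsUnit (g - C c) := by
  intro hu
  have h1 := natDegree_eq_zero_of_isUnit hu
  rw [natDegree_sub_C] at h1
  omega

theorem not_unit' (hg : g.Monic) (hg0 : 0 < g.natDegree) (c : k) : ¬ IsUnit (-g + C c) := by
  intro hu
  apply not_unit hg hg0 c
  have h1 : (g - C c : k[X]) = -(-g + C c) := by ring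
  rw [h1]
  exact hu.neg

theorem StepC.der (S : StepC g cs c) (hg : g.Monic) (hg0 : 0 < g.natDegree) :
    derivative g ≠ 0 := by
  intro h0
  have h1 := S.sep
  have h3 : derivative (g - C c) = 0 := by rw [derivative_sub, derivative_C, sub_zero, h0]
  unfold Polynomial.Separable at h1
  rw [h3] at h1
  exact not_unit hg hg0 c (isCoprime_zero_right.1 h1)

/-- The sign of a product of complete sets. -/
theorem sign_prod (hg : g.Monic) (hodd : Odd g.natDegree) (I : List k) :
    (-1) ^ ((I.map fun c' => g - C c').prod).natDegree * (I.map fun c' => g - C c').prod =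
      (I.map fun c' => -g + C c').prod := by
  induction I with
  | nil => simp
  | cons c I ih =>
    have hm : ∀ c : k, (g - C c).Monic := fun c => by
      refine hg.sub_of_left ?_
      refine lt_of_le_of_lt degree_C_le ?_
      rw [degree_eq_natDegree hg.ne_zero]
      exact_mod_cast hodd.pos
    have hp : ((I.map fun c' => g - C c').prod).Monic := by
      clear ih
      induction I with
      | nil => simp
      | cons c I ih => rw [List.map_cons, List.prod_cons]; exact (hm c).mul ih
    rw [List.map_cons, List.prod_cons, List.map_cons, List.prod_cons, ← ih, (hm c).natDegree_mul hp,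
      natDegree_sub_C, pow_add, hodd.neg_one_pow]
    ring

theorem list_pow {M : Type} [CommRing M] (y : k → M) (I : List k) :
    (I.map y).prod ^ 2 = (I.map fun i => y i ^ 2).prod := by
  induction I with
  | nil => simp
  | cons i I ih =>
    rw [List.map_cons, List.prod_cons, List.map_cons, List.prod_cons, mul_pow, ih]

theorem fa {F : Type} [Field F] {N T v : F} (hT : T ≠ 0) (h : N * T = v ^ 2) (b : ℕ) :
    N * T ^ b = (v / T) ^ 2 * T ^ (b + 1) := by
  rw [div_pow, ← h]
  field_simp
  ring

theorem fb {F : Type} [Field F] {w β w2 x : F} (hβ : β ≠ 0) (h : w * β = w2 ^ 2 * x) :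
    w = (w2 / β) ^ 2 * (β * x) := by
  rw [div_pow]
  field_simp
  exact h

theorem fc {F F' : Type} [Field F] [Field F'] (φ : F →+* F') (n m : ℕ) (x y : F) :
    φ ((-1) ^ n * x * ((-1) ^ m * y)) = (-1) ^ (n + m) * (φ x * φ y) := by
  simp only [map_mul, map_pow, map_neg, map_one, pow_add]
  ring

end aux

section stp

variable {k : Type} [Field k] {g : k[X]} {cs : List k} {c : k} {A' R' A R K L : Type}
  [CommRing A'] [IsDedekindDomain A'] [Algebra k[X] A'] [Algebra k A']
  [CommRing R'] [IsDedekindDomain R'] [Algebra k[X] R'] [Algebra k R']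
  [CommRing A] [IsDedekindDomain A] [Algebra k[X] A] [Algebra A' A]
  [CommRing R] [IsDedekindDomain R] [Algebra k[X] R] [Algebra R' R]
  [Field K] [Algebra A K] [IsFractionRing A K] [Algebra k K]
  [Field L] [Algebra R L] [IsFractionRing R L] [Algebra k L] [Algebra K L]
  {yA' : k → A'} {yR' : k → R'} {yA : k → A} {yR : k → R} {σA : K ≃+* K} {σR : L ≃+* L}

theorem step_abs (h2 : (2 : k) ≠ 0) (hg : g.Monic) (hodd : Odd g.natDegree) (hnd : cs.Nodup)
    (S : StepC g cs c) (HA' : IsTw (fun c => X + C c) cs A' yA')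
    (HR' : IsTw (fun c => -g + C c) cs R' yR') (HD : Desc g cs A' R' yA' yR')
    (hAA : ∀ p, algebraMap k[X] A p = algebraMap A' A (algebraMap k[X] A' p))
    (hRR : ∀ p, algebraMap k[X] R p = algebraMap R' R (algebraMap k[X] R' p))
    (hyA : ∀ i ∈ cs, yA i = algebraMap A' A (yA' i))
    (hyR : ∀ i ∈ cs, yR i = algebraMap R' R (yR' i))
    (kA : Kx 2 (-1 : k) (algebraMap k[X] A' (X + C c)) (yA c) σA)
    (kR : Kx 2 (-1 : k) (algebraMap k[X] R' (-g + C c)) (yR c) σR)
    (hC : Cmp g (c :: cs) A R K L yA yR) {z : L} (hz : z ≠ 0)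
    (hev : ∀ v : HeightOneSpectrum R, IsPw 2 (v.valuation L z))
    (hno : ∃ u : K, Algebra.norm K z = u ^ 2) :
    ∃ (w : L) (a : k[X]), w ≠ 0 ∧ a.Monic ∧ a ∣ ((c :: cs).map fun c => g - C c).prod ∧
        z = w ^ 2 * ((-1) ^ a.natDegree * algebraMap R L (algebraMap k[X] R a)) := by
  have hg0 := hodd.pos
  have hd := S.der hg hg0
  have hsep' := S.sep'
  obtain ⟨α, -, hα1, hα2, -, -⟩ := pair HA' HR'
  let K' := FractionRing A'
  let L' := FractionRing R'
  -- the homomorphisms of the fields
  have iA : Function.Injective ((algebraMap A K).comp (algebraMap A' A)) :=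
    (IsFractionRing.injective A K).comp kA.inj
  have iR : Function.Injective ((algebraMap R L).comp (algebraMap R' R)) :=
    (IsFractionRing.injective R L).comp kR.inj
  letI : Algebra K' K := (IsFractionRing.lift iA : K' →+* K).toAlgebra
  letI : Algebra L' L := (IsFractionRing.lift iR : L' →+* L).toAlgebra
  have hKK : ∀ a : A', algebraMap K' K (algebraMap A' K' a) = algebraMap A K (algebraMap A' A a) :=
    fun a => IsFractionRing.lift_algebraMap iA a
  have hLL : ∀ a : R', algebraMap L' L (algebraMap R' L' a) = algebraMap R L (algebraMap R' R a) :=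
    fun a => IsFractionRing.lift_algebraMap iR a
  have hαL : ∀ a : A', algebraMap K L (algebraMap A K (algebraMap A' A a)) =
      algebraMap R L (algebraMap R' R (α a)) := by
    have h1 : ((algebraMap K L).comp (algebraMap A K)).comp (algebraMap A' A) =
        ((algebraMap R L).comp (algebraMap R' R)).comp α := by
      refine HA'.hom_ext (fun p => ?_) fun i hi => ?_
      · show algebraMap K L (algebraMap A K (algebraMap A' A (algebraMap k[X] A' p))) =
          algebraMap R L (algebraMap R' R (α (algebraMap k[X] A' p)))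
        rw [← hAA, hC.pol, hα1, hRR]
      · show algebraMap K L (algebraMap A K (algebraMap A' A (yA' i))) =
          algebraMap R L (algebraMap R' R (α (yA' i)))
        rw [← hyA i hi, hC.sqr i (List.mem_cons_of_mem c hi), hα2 i hi, hyR i hi]
    exact fun a => congrArg (fun f : A' →+* L => f a) h1
  have iAR : Function.Injective ((algebraMap R' L').comp α) := by
    refine (IsFractionRing.injective R' L').comp fun a b hab => ?_
    have hab' : α a = α b := hab
    apply iA
    apply (algebraMap K L).injective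
    show algebraMap K L (algebraMap A K (algebraMap A' A a)) =
      algebraMap K L (algebraMap A K (algebraMap A' A b))
    rw [hαL, hαL, hab']
  letI : Algebra K' L' := (IsFractionRing.lift iAR : K' →+* L').toAlgebra
  have hKL' : ∀ a : A', algebraMap K' L' (algebraMap A' K' a) = algebraMap R' L' (α a) :=
    fun a => IsFractionRing.lift_algebraMap iAR a
  letI : Algebra K' L := ((algebraMap K L).comp (algebraMap K' K)).toAlgebra
  haveI : IsScalarTower K' K L := IsScalarTower.of_algebraMap_eq fun x => rfl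
  haveI : IsScalarTower K' L' L := IsScalarTower.of_algebraMap_eq fun x => by
    obtain ⟨a, b, -, rfl⟩ := IsFractionRing.div_surjective (A := A') x
    show algebraMap K L (algebraMap K' K (algebraMap A' K' a / algebraMap A' K' b)) = _
    simp only [map_div₀, hKK, hKL', hLL, hαL]
  have hC' : Cmp g cs A' R' K' L' yA' yR' :=
    { HA := HA'
      HR := HR'
      pol := fun p => by rw [hKL', hα1]
      sqr := fun i hi => by rw [hKL', hα2 i hi] }
  -- the norms
  have hff : ((ff g A').map (algebraMap A' K')).map (algebraMap K' K) =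
      (ff g A).map (algebraMap A K) := by
    rw [Polynomial.map_map, ← ff_map (g := g) (algebraMap A' A) (fun p => (hAA p).symm),
      Polynomial.map_map]
    congr 1
    exact RingHom.ext fun a => hKK a
  have hθ : algebraMap L' L (th k R' L') = th k R L := by
    unfold th
    rw [hLL, hRR]
  have NB : ∀ w : L', Algebra.norm K (algebraMap L' L w) = algebraMap K' K (Algebra.norm K' w) :=
    norm_base (hC'.mon hg hg0) (hC'.sep hg hg0 hd) (hC'.irr hg hg0)
      (by rw [hff]; exact hC.irr hg hg0) hC'.root hC'.top (by rw [hθ]; exact hC.top)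
  haveI : FiniteDimensional K L := fin_of (hC.mon hg hg0) hC.root hC.top
  haveI : FiniteDimensional K' L' := fin_of (hC'.mon hg hg0) hC'.root hC'.top
  have hσσ : ∀ x : K, algebraMap K L (σA x) = σR (algebraMap K L x) := by
    have h1 : (((algebraMap K L).comp (σA : K →+* K)).comp (algebraMap A K)) =
        (((σR : L →+* L).comp (algebraMap K L)).comp (algebraMap A K)) := by
      refine hC.HA.hom_ext (fun p => ?_) fun i hi => ?_
      · show algebraMap K L (σA (algebraMap A K (algebraMap k[X] A p))) =
          σR (algebraMap K L (algebraMap A K (algebraMap k[X] A p)))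
        rw [hC.pol, hRR, kR.sa, ← hRR, ← hC.pol, hAA, kA.sa]
      · show algebraMap K L (σA (algebraMap A K (yA i))) = σR (algebraMap K L (algebraMap A K (yA i)))
        rcases List.mem_cons.1 hi with h0 | h0
        · subst h0
          rw [sigu kA, map_neg, hC.sqr i hi, sigu kR]
        · rw [hC.sqr i hi, hyR i h0, kR.sa, ← hyR i h0, ← hC.sqr i hi, hyA i h0, kA.sa]
    intro x
    obtain ⟨a, b, -, rfl⟩ := IsFractionRing.div_surjective (A := A) x
    have h3 : ∀ a : A, algebraMap K L (σA (algebraMap A K a)) = σR (algebraMap K L (algebraMap A K a)) :=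
      fun a => congrArg (fun f : A →+* L => f a) h1
    rw [map_div₀, map_div₀, map_div₀, map_div₀, h3, h3]
  have NS : ∀ x : L, Algebra.norm K (σR x) = σA (Algebra.norm K x) := by
    intro x
    have h1 := Algebra.norm_eq_of_equiv_equiv (A₁ := K) (B₁ := L) (A₂ := K) (B₂ := L) σA σR
      (RingHom.ext fun x => hσσ x) x
    rw [h1, RingEquiv.apply_symm_apply]
  have hπA0 : algebraMap k[X] A' (X + C c) ≠ 0 := fun h0 =>
    (X_add_C_ne_zero c) (HA'.inj (by rw [h0, map_zero]))
  have hπR0 : algebraMap k[X] R' (-g + C c) ≠ 0 := fun h0 =>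
    hsep'.ne_zero (HR'.inj (by rw [h0, map_zero]))
  have hπ2 := val_pi h2 HR' S.nmem hsep'
  have h2K : (2 : K') ≠ 0 := by
    have h3 : (2 : K') = algebraMap A' K' (algebraMap k[X] A' (C 2)) := by
      rw [show (C (2 : k) : k[X]) = 2 from rfl, map_ofNat, map_ofNat]
    rw [h3]
    intro h0
    have h4 := HA'.inj ((IsFractionRing.injective A' K' (by rw [h0, map_zero])).trans
      (map_zero (algebraMap k[X] A')).symm)
    exact h2 (C_eq_zero.1 h4)
  obtain ⟨u, hu⟩ := hno
  -- the norm to `L'`
  obtain ⟨x, hx⟩ := fixL hLL kR (z := z * σR z) (by rw [map_mul, sig2 kR, mul_comm])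
  have hσz : σR z ≠ 0 := (_root_.map_ne_zero σR).2 hz
  have hx0 : x ≠ 0 := by
    rintro rfl
    rw [map_zero] at hx
    exact mul_ne_zero hz hσz hx.symm
  obtain ⟨m, hm⟩ := fixL hKK kA (z := u * σA u) (by rw [map_mul, sig2 kA, mul_comm])
  have hnx : Algebra.norm K' x = m ^ 2 := by
    apply (algebraMap K' K).injective
    rw [← NB, hx, map_mul, NS, hu, map_pow, map_pow, hm]
    ring
  obtain ⟨w, a, hw, ham, had, hxw⟩ := HD K' L' hC' x hx0 (even_norm hLL kR hπ2 hev hx) ⟨m, hnx⟩
  have hxw' : x = w ^ 2 * algebraMap R' L' (algebraMap k[X] R' ((-1) ^ a.natDegree * a)) := by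
    rw [hxw]
    simp only [map_mul, map_pow, map_neg, map_one]
  -- the condition
  obtain ⟨I, hI, haI⟩ := S.redei a ham had (fun G hG hGi hGd => by
    have hp : Prime (algebraMap k[X] R' G) := prime_of h2 HR' hnd hGi (S.ind G hG hGi hGd)
    obtain ⟨E, iE, ψ, -, hψ, hsq⟩ := residue h2 HR' hnd hGi (S.ind G hG hGi hGd)
    have hvG : algebraMap k[X] R' G ∈ (vpr hp).asIdeal := Ideal.mem_span_singleton_self _
    have hvg : algebraMap k[X] R' (g - C c) ∈ (vpr hp).asIdeal := by
      obtain ⟨q, hq⟩ := hGd
      rw [hq, map_mul]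
      exact Ideal.mul_mem_right _ _ hvG
    have hvπ : (vpr hp).intValuation (algebraMap k[X] R' (-g + C c)) ≠ 1 := by
      rw [Ne, (vpr hp).intValuation_eq_one_iff, not_not]
      have h1 : (-g + C c : k[X]) = -(g - C c) := by ring
      rw [h1, map_neg]
      exact neg_mem hvg
    have hα : (vpr hp).intValuation (algebraMap k[X] R' ((-1) ^ a.natDegree * a)) = 1 := by
      rw [(vpr hp).intValuation_eq_one_iff]
      intro hmem
      have hmem2 : algebraMap k[X] R' a ∈ (vpr hp).asIdeal := by
        have h1 : algebraMap k[X] R' a = (-1) ^ a.natDegree *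
            algebraMap k[X] R' ((-1) ^ a.natDegree * a) := by
          rw [map_mul, map_pow, map_neg, map_one, ← mul_assoc, ← mul_pow]
          norm_num
        rw [h1]
        exact Ideal.mul_mem_left _ _ hmem
      have hmem3 : algebraMap k[X] R' ((cs.map fun c' => g - C c').prod) ∈ (vpr hp).asIdeal := by
        obtain ⟨q, hq⟩ := had
        rw [hq, map_mul]
        exact Ideal.mul_mem_right _ _ hmem2
      rw [map_list_prod, List.map_map] at hmem3
      have h3 : ∀ l : List k, (∀ i ∈ l, i ∈ cs) →
          (l.map ((algebraMap k[X] R') ∘ fun c' => g - C c')).prod ∉ (vpr hp).asIdeal := by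
        intro l
        induction l with
        | nil =>
          intro _
          rw [List.map_nil, List.prod_nil]
          exact fun h1 => (vpr hp).isPrime.ne_top ((Ideal.eq_top_iff_one _).2 h1)
        | cons i l ih =>
          intro hl
          rw [List.map_cons, List.prod_cons]
          intro h1
          rcases (vpr hp).isPrime.mem_or_mem h1 with h3 | h3
          · have h4 : algebraMap k[X] R' (g - C i) ∈ (vpr hp).asIdeal := h3
            have h5 := (vpr hp).asIdeal.sub_mem h4 hvg
            rw [← map_sub] at h5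
            have h6 : (g - C i - (g - C c) : k[X]) = C (c - i) := by
              rw [C_sub]
              ring
            rw [h6] at h5
            have hne : c - i ≠ 0 := sub_ne_zero.2 fun h0 => S.nmem (h0 ▸ hl i List.mem_cons_self)
            exact (vpr hp).isPrime.ne_top (Ideal.eq_top_of_isUnit_mem _ h5
              ((isUnit_C.2 (IsUnit.mk0 _ hne)).map _))
          · exact ih (fun i hi => hl i (List.mem_cons_of_mem _ hi)) h3
      exact h3 cs (fun i hi => hi) hmem3
    obtain ⟨a0, b0, hb0, hab0⟩ := local_sq hLL kR hπR0 hvπ hz hev hx hxw' hα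
    have hb1 : ψ b0 ≠ 0 := fun h0 => hb0 (Ideal.mem_span_singleton.2 ((hψ b0).1 h0))
    have hab1 : ψ (b0 ^ 2 * algebraMap k[X] R' ((-1) ^ a.natDegree * a) - a0 ^ 2) = 0 :=
      (hψ _).2 (Ideal.mem_span_singleton.1 hab0)
    refine hsq _ ⟨ψ a0 / ψ b0, ?_⟩
    rw [map_sub, map_mul, map_pow, map_pow, sub_eq_zero] at hab1
    rw [div_pow, ← hab1, mul_div_cancel_left₀ _ (pow_ne_zero 2 hb1)])
  -- `x` is a square
  have hxs : x = (w * algebraMap R' L' (I.map yR').prod) ^ 2 := by
    rw [hxw', haI, sign_prod hg hodd, mul_pow, ← map_pow]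
    congr 2
    rw [list_pow, map_list_prod, List.map_map]
    congr 1
    refine List.map_congr_left fun i hi => ?_
    exact (HR'.sq i (hI.subset hi)).symm
  obtain ⟨y, w', hy, hw', hzy⟩ := hil hLL kR hz hx hxs
  -- removing the ramified part
  have hun : ∀ v : HeightOneSpectrum R', v.intValuation (algebraMap k[X] R' (g - C c)) = 1 →
      IsPw 2 (v.valuation L' w') := by
    intro v hv
    refine even_unram hLL kR hev hzy v ?_
    have h1 : (-g + C c : k[X]) = -(g - C c) := by ring
    rw [h1, map_neg, Valuation.map_neg]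
    exact hv
  obtain ⟨b, hbm, hbd, hbev⟩ := remove S.sep (fun G hG hGi hGd =>
    prime_of h2 HR' hnd hGi (S.ind G hG hGi hGd)) hw' hun
  set β : L' := (-1) ^ b.natDegree * algebraMap R' L' (algebraMap k[X] R' b) with hβ
  have hβ0 : β ≠ 0 := by
    refine mul_ne_zero (pow_ne_zero _ (neg_ne_zero.2 one_ne_zero)) ?_
    intro h0
    exact hbm.ne_zero (HR'.inj (IsFractionRing.injective R' L' (by rw [h0, map_zero, map_zero])))
  have hwβ : w' * β ≠ 0 := mul_ne_zero hw' hβ0
  set T : K' := algebraMap A' K' (algebraMap k[X] A' (X + C c)) with hT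
  have hT0 : T ≠ 0 := fun h0 => hπA0 (IsFractionRing.injective A' K' (by rw [← hT, h0, map_zero]))
  have hnβ : Algebra.norm K' β = T ^ b.natDegree := by
    have h1 := norm_dvd ((algebraMap A' K').comp (cst k A')) (algebraMap A' K' (algebraMap k[X] A' X))
      hg hg0 (by rw [← ff_K]; exact hC'.irr hg hg0) (by rw [← ff_K]; exact hC'.sep hg hg0 hd)
      (by rw [← ff_K]; exact hC'.root) hC'.top hbm hbd
    rw [hC'.ev] at h1
    rw [hβ, h1, hT, map_add, map_add]
    rfl
  -- the norm of `w'`
  have hnw : ∃ (s : K') (e : ℕ), s ≠ 0 ∧ Algebra.norm K' (w' * β) = s ^ 2 * T ^ e := by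
    obtain ⟨v, hv⟩ := sq_desc hKK kA h2K hπA0 (n := Algebra.norm K' w') ⟨u * Algebra.norm K y, by
      rw [← NB, ← hzy, map_mul, map_pow, hu]
      ring⟩
    have hn0 : Algebra.norm K' w' ≠ 0 := (Algebra.norm_ne_zero_iff).2 hw'
    rcases hv with h | h
    · refine ⟨v, b.natDegree, ?_, by rw [map_mul, hnβ, h]⟩
      rintro rfl
      rw [zero_pow (by norm_num)] at h
      exact hn0 h
    · have hv0 : v ≠ 0 := by
        rintro rfl
        rw [zero_pow (by norm_num)] at h
        exact mul_ne_zero hn0 hT0 h
      refine ⟨v / T, b.natDegree + 1, div_ne_zero hv0 hT0, ?_⟩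
      rw [map_mul, hnβ]
      exact fa hT0 h _
  obtain ⟨s, e, hs, hse⟩ := hnw
  have hsq : ∃ s' : K', Algebra.norm K' (w' * β) = s' ^ 2 := by
    rcases Nat.even_or_odd e with he | he
    · obtain ⟨j, hj⟩ := he
      exact ⟨s * T ^ j, by rw [hse, hj]; ring⟩
    · exfalso
      obtain ⟨j, hj⟩ := he
      obtain ⟨v, hv⟩ := exists_pi h2 HA' S.nmem (separable_X_add_C c) (not_isUnit_X_add_C c)
      have h1 := hC'.norm_even hg hg0 hwβ hbev v
      rw [hse, map_mul, map_pow, map_pow] at h1
      have h3 : v.valuation K' T = exp (-1 : ℤ) := by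
        rw [hT]
        exact (v.valuation_of_algebraMap _).trans hv
      rw [h3, mul_comm] at h1
      have h4 := IsPw.of_mul ((Valuation.ne_zero_iff _).2 hs) h1
      rw [hj, ← exp_nsmul] at h4
      obtain ⟨δ, hδ⟩ := h4
      have hδ0 : δ ≠ 0 := by
        rintro rfl
        rw [zero_pow (by norm_num)] at hδ
        exact exp_ne_zero hδ
      obtain ⟨n, hn⟩ : ∃ n : ℤ, δ = exp n := ⟨_, (exp_log hδ0).symm⟩
      rw [hn, ← exp_nsmul] at hδ
      have h5 := exp_injective hδ
      rw [nsmul_eq_mul, nsmul_eq_mul] at h5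
      push_cast at h5
      omega
  obtain ⟨w2, a2, hw2, ha2m, ha2d, hw2e⟩ := HD K' L' hC' (w' * β) hwβ hbev hsq
  -- the conclusion
  have hβ2 : β ^ 2 = (algebraMap R' L' (algebraMap k[X] R' b)) ^ 2 := by
    rw [hβ, mul_pow, ← pow_mul, mul_comm b.natDegree 2, pow_mul]
    norm_num
  refine ⟨algebraMap L' L (w2 / β) / y, b * a2, ?_, hbm.mul ha2m, ?_, ?_⟩
  · exact div_ne_zero ((_root_.map_ne_zero _).2 (div_ne_zero hw2 hβ0)) hy
  · rw [List.map_cons, List.prod_cons]
    exact mul_dvd_mul hbd ha2d
  · have e1 : z = algebraMap L' L w' / y ^ 2 := by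
      rw [← hzy, mul_div_cancel_right₀ _ (pow_ne_zero 2 hy)]
    have e2 : w' = (w2 / β) ^ 2 * (β * ((-1) ^ a2.natDegree *
        algebraMap R' L' (algebraMap k[X] R' a2))) := fb hβ0 hw2e
    have e3 : algebraMap L' L (β * ((-1) ^ a2.natDegree *
        algebraMap R' L' (algebraMap k[X] R' a2))) =
        (-1) ^ (b * a2).natDegree * algebraMap R L (algebraMap k[X] R (b * a2)) := by
      rw [hbm.natDegree_mul ha2m, hβ, hRR, ← hLL, fc, ← map_mul, map_mul (algebraMap k[X] R'),
        map_mul (algebraMap R' L')]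
    rw [e1, e2, map_mul, e3, map_pow, div_pow]
    ring

end stp

end Pool.Agent.Q45.TW
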